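import Pool.Agent.H70PR.Geo2

/-!
# A tensor invariant under the rotation of a plane by the angle `π` with the opposite sign
-/

set_option autoImplicit false

namespace Pool.Agent.H70PR

open Finset Module Pool.Agent.W666.GB Pool.Agent.W669.HD
open Pool.Agent.H31HS (I6)

/-- the sum over the matchings, for integers -/
def A6Z (F : Fin 6 → Fin 6 → Fin 6 → Fin 6 → Fin 6 → Fin 6 → ℤ) : ℤ :=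
  (F 0 1 2 3 4 5 - F 0 1 2 4 3 5 + F 0 1 2 5 3 4 + F 0 1 3 4 2 5 - F 0 1 3 5 2 4 + F 0 1 4 5 2 3
    - F 0 2 1 3 4 5 + F 0 2 1 4 3 5 - F 0 2 1 5 3 4 - F 0 2 3 4 1 5 + F 0 2 3 5 1 4 - F 0 2 4 5 1 3
    + F 0 3 1 2 4 5 - F 0 3 1 4 2 5 + F 0 3 1 5 2 4 + F 0 3 2 4 1 5 - F 0 3 2 5 1 4 + F 0 3 4 5 1 2
    - F 0 4 1 2 3 5 + F 0 4 1 3 2 5 - F 0 4 1 5 2 3 - F 0 4 2 3 1 5 + F 0 4 2 5 1 3 - F 0 4 3 5 1 2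
    + F 0 5 1 2 3 4 - F 0 5 1 3 2 4 + F 0 5 1 4 2 3 + F 0 5 2 3 1 4 - F 0 5 2 4 1 3 + F 0 5 3 4 1 2
    + F 1 2 0 3 4 5 - F 1 2 0 4 3 5 + F 1 2 0 5 3 4 + F 1 2 3 4 0 5 - F 1 2 3 5 0 4 + F 1 2 4 5 0 3
    - F 1 3 0 2 4 5 + F 1 3 0 4 2 5 - F 1 3 0 5 2 4 - F 1 3 2 4 0 5 + F 1 3 2 5 0 4 - F 1 3 4 5 0 2
    + F 1 4 0 2 3 5 - F 1 4 0 3 2 5 + F 1 4 0 5 2 3 + F 1 4 2 3 0 5 - F 1 4 2 5 0 3 + F 1 4 3 5 0 2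
    - F 1 5 0 2 3 4 + F 1 5 0 3 2 4 - F 1 5 0 4 2 3 - F 1 5 2 3 0 4 + F 1 5 2 4 0 3 - F 1 5 3 4 0 2
    + F 2 3 0 1 4 5 - F 2 3 0 4 1 5 + F 2 3 0 5 1 4 + F 2 3 1 4 0 5 - F 2 3 1 5 0 4 + F 2 3 4 5 0 1
    - F 2 4 0 1 3 5 + F 2 4 0 3 1 5 - F 2 4 0 5 1 3 - F 2 4 1 3 0 5 + F 2 4 1 5 0 3 - F 2 4 3 5 0 1
    + F 2 5 0 1 3 4 - F 2 5 0 3 1 4 + F 2 5 0 4 1 3 + F 2 5 1 3 0 4 - F 2 5 1 4 0 3 + F 2 5 3 4 0 1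
    + F 3 4 0 1 2 5 - F 3 4 0 2 1 5 + F 3 4 0 5 1 2 + F 3 4 1 2 0 5 - F 3 4 1 5 0 2 + F 3 4 2 5 0 1
    - F 3 5 0 1 2 4 + F 3 5 0 2 1 4 - F 3 5 0 4 1 2 - F 3 5 1 2 0 4 + F 3 5 1 4 0 2 - F 3 5 2 4 0 1
    + F 4 5 0 1 2 3 - F 4 5 0 2 1 3 + F 4 5 0 3 1 2 + F 4 5 1 2 0 3 - F 4 5 1 3 0 2 + F 4 5 2 3 0 1)

theorem A6_cast (F : Fin 6 → Fin 6 → Fin 6 → Fin 6 → Fin 6 → Fin 6 → ℤ) :
    ((A6Z F : ℤ) : ℝ) = A6 fun a b c d e f => ((F a b c d e f : ℤ) : ℝ) := by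
  unfold A6Z A6
  push_cast
  ring

/-- the three skew forms -/
def AZ : Fin 3 → Fin 6 → Fin 6 → ℤ := ![
  ![![0, 1, 0, 0, 0, 0],
    ![-1, 0, 0, 0, 0, 0],
    ![0, 0, 0, -1, 0, 0],
    ![0, 0, 1, 0, 0, 0],
    ![0, 0, 0, 0, 0, 0],
    ![0, 0, 0, 0, 0, 0]],
  ![![0, 0, 0, 0, 1, 0],
    ![0, 0, 0, 0, 0, -1],
    ![0, 0, 0, 0, 1, 0],
    ![0, 0, 0, 0, 0, -1],
    ![-1, 0, -1, 0, 0, 0],
    ![0, 1, 0, 1, 0, 0]],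
  ![![0, 0, 0, 0, 0, 1],
    ![0, 0, 0, 0, 1, 0],
    ![0, 0, 0, 0, 0, -1],
    ![0, 0, 0, 0, -1, 0],
    ![0, -1, 0, 1, 0, 0],
    ![-1, 0, 1, 0, 0, 0]]]

/-- the tensor of the three forms -/
def KZ (i j k l : Fin 6) : ℤ :=
  (2 * (AZ 0 i j * AZ 0 k l) + AZ 0 i k * AZ 0 j l - AZ 0 i l * AZ 0 j k) +
  (2 * (AZ 1 i j * AZ 1 k l) + AZ 1 i k * AZ 1 j l - AZ 1 i l * AZ 1 j k) +
  (2 * (AZ 2 i j * AZ 2 k l) + AZ 2 i k * AZ 2 j l - AZ 2 i l * AZ 2 j k)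

/-- the inner sum -/
def KV (a b c d e f : Fin 6) : ℤ := A6Z fun i j k l m n => KZ i j a b * (KZ k l c d * KZ m n e f)

/-- the double sum -/
def KW : ℤ := A6Z KV

theorem KZ_val : KW = -576 := by
  decide +kernel

theorem KZ_12 : ∀ i j k l, KZ j i k l = - KZ i j k l := by
  decide +kernel

theorem KZ_34 : ∀ i j k l, KZ i j l k = - KZ i j k l := by
  decide +kernel

theorem G6_KZ : G6 (fun i j k l => ((KZ i j k l : ℤ) : ℝ)) = -36864 := by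
  rw [G6_eq (fun i j k l => by rw [KZ_12]; push_cast; rfl)
    (fun i j k l => by rw [KZ_34]; push_cast; rfl)]
  have h1 : (A6 fun a b c d e f => N6 (fun x y => ((KZ x y a b : ℤ) : ℝ))
      (fun x y => ((KZ x y c d : ℤ) : ℝ)) (fun x y => ((KZ x y e f : ℤ) : ℝ))) =
      ((KW : ℤ) : ℝ) := by
    unfold KW
    rw [A6_cast]
    congr 1
    funext a b c d e f
    unfold KV
    rw [A6_cast]
    unfold N6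
    congr 1
    funext i j k l m n
    push_cast
    rfl
  rw [h1, KZ_val]
  norm_num

end Pool.Agent.H70PR
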