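import Pool.Agent.H70PR.Ex

/-!
# The rotation of a plane by the angle `π`
-/

set_option autoImplicit false

namespace Pool.Agent.H70PR

open Finset Module Pool.Agent.W666.GB Pool.Agent.W669.HD
open Pool.Agent.H31HS (I6 add_curv')

section skew

variable {V : Type} [NormedAddCommGroup V] [InnerProductSpace ℝ V]

/-- minus the sum of the curvature tensors of skew forms -/
def skT (φ : Fin 3 → V → V → ℝ) (x y z w : V) : ℝ :=
  -(∑ k, (2 * (φ k x y * φ k z w) + φ k x z * φ k y w - φ k x w * φ k y z))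

theorem skT_curv {φ : Fin 3 → V → V → ℝ} (ha : ∀ k x x' y, φ k (x + x') y = φ k x y + φ k x' y)
    (hm : ∀ k (t : ℝ) x y, φ k (t • x) y = t * φ k x y) (hs : ∀ k x y, φ k y x = - φ k x y) :
    AlgCurv (skT φ) where
  add x x' y z w := by
    unfold skT
    rw [← neg_add, ← Finset.sum_add_distrib]
    congr 1
    refine Finset.sum_congr rfl fun k _ => ?_
    rw [ha, ha, ha]
    ring
  smul t x y z w := by
    unfold skT
    rw [mul_neg, Finset.mul_sum]
    congr 1
    refine Finset.sum_congr rfl fun k _ => ?_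
    rw [hm, hm, hm]
    ring
  anti x y z w := by
    unfold skT
    rw [neg_neg, ← Finset.sum_neg_distrib]
    refine Finset.sum_congr rfl fun k _ => ?_
    rw [hs k x y]
    ring
  pair x y z w := by
    unfold skT
    congr 1
    refine Finset.sum_congr rfl fun k _ => ?_
    rw [hs k x z, hs k y w, hs k y z, hs k x w]
    ring
  bianchi x y z w := by
    unfold skT
    rw [← neg_add, ← neg_add, ← Finset.sum_add_distrib, ← Finset.sum_add_distrib, neg_eq_zero]
    refine Finset.sum_eq_zero fun k _ => ?_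
    rw [hs k x y, hs k x z, hs k y z]
    ring

theorem skT_sec {φ : Fin 3 → V → V → ℝ} (hs : ∀ k x y, φ k y x = - φ k x y) (x y : V) :
    skT φ x y x y ≤ 0 := by
  unfold skT
  rw [neg_nonpos]
  refine Finset.sum_nonneg fun k _ => ?_
  have h1 := hs k x x
  have h2 : φ k x x = 0 := by linarith
  rw [h2, hs k x y]
  nlinarith [sq_nonneg (φ k x y)]

end skew

/-- six-dimensional Euclidean space -/
abbrev E6 := EuclideanSpace ℝ (Fin 3 × Bool)

/-- the three skew forms on Euclidean space -/
noncomputable def phi (k : Fin 3) (x y : E6) : ℝ :=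
  ∑ i : Fin 6, ∑ j : Fin 6, ((AZ k i j : ℤ) : ℝ) * (x (ix i) * y (ix j))

theorem AZ_anti : ∀ k i j, AZ k j i = - AZ k i j := by
  decide +kernel

theorem phi_add (k : Fin 3) (x x' y : E6) : phi k (x + x') y = phi k x y + phi k x' y := by
  unfold phi
  rw [← Finset.sum_add_distrib]
  refine Finset.sum_congr rfl fun i _ => ?_
  rw [← Finset.sum_add_distrib]
  refine Finset.sum_congr rfl fun j _ => ?_
  rw [PiLp.add_apply]
  ring

theorem phi_smul (k : Fin 3) (t : ℝ) (x y : E6) : phi k (t • x) y = t * phi k x y := by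
  unfold phi
  simp only [Finset.mul_sum]
  refine Finset.sum_congr rfl fun i _ => Finset.sum_congr rfl fun j _ => ?_
  rw [PiLp.smul_apply, smul_eq_mul]
  ring

theorem phi_anti (k : Fin 3) (x y : E6) : phi k y x = - phi k x y := by
  unfold phi
  rw [Finset.sum_comm, ← Finset.sum_neg_distrib]
  refine Finset.sum_congr rfl fun i _ => ?_
  rw [← Finset.sum_neg_distrib]
  refine Finset.sum_congr rfl fun j _ => ?_
  rw [AZ_anti k i j]
  push_cast
  ring

/-- the standard basis -/
noncomputable def e6 : OrthonormalBasis (Fin 3 × Bool) ℝ E6 :=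
  EuclideanSpace.basisFun (Fin 3 × Bool) ℝ

theorem e6_apply (i j : Fin 6) : e6 (ix i) (ix j) = if i = j then 1 else 0 := by
  unfold e6
  rw [EuclideanSpace.basisFun_apply, EuclideanSpace.single_apply]
  simp only [EmbeddingLike.apply_eq_iff_eq, @eq_comm _ j i]

theorem phi_e6 (k : Fin 3) (i j : Fin 6) : phi k (e6 (ix i)) (e6 (ix j)) = ((AZ k i j : ℤ) : ℝ) := by
  unfold phi
  simp only [e6_apply]
  rw [Finset.sum_eq_single i, Finset.sum_eq_single j]
  · simp
  · intro l _ hl
    rw [if_neg (Ne.symm hl)]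
    ring
  · intro h
    exact absurd (Finset.mem_univ _) h
  · intro l _ hl
    refine Finset.sum_eq_zero fun m _ => ?_
    rw [if_neg (Ne.symm hl)]
    ring
  · intro h
    exact absurd (Finset.mem_univ _) h

/-- the tensor -/
noncomputable def R0 : E6 → E6 → E6 → E6 → ℝ := skT phi

theorem R0_curv : AlgCurv R0 := skT_curv phi_add phi_smul phi_anti

theorem gbc_R0 : 0 < gbc e6 R0 := by
  obtain ⟨κ, hκ, h⟩ := gbc_G6 e6 e6.toBasis
  have h1 := h R0 R0_curv
  have h2 : (fun i j k l => - R0 (e6.toBasis (ix i)) (e6.toBasis (ix j)) (e6.toBasis (ix k))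
      (e6.toBasis (ix l))) = fun i j k l => ((KZ i j k l : ℤ) : ℝ) := by
    funext i j k l
    simp only [OrthonormalBasis.coe_toBasis, R0, skT, neg_neg, phi_e6, Fin.sum_univ_three]
    unfold KZ
    push_cast
    ring
  rw [h2, G6_KZ] at h1
  have h3 : 0 < κ * 36864 := by positivity
  linarith

/-- the rotation of the third plane by the angle `π` -/
noncomputable def g6 : E6 ≃ₗᵢ[ℝ] E6 :=
  LinearIsometryEquiv.piLpCongrRight 2 fun i : Fin 3 × Bool =>
    if i.1 = 2 then LinearIsometryEquiv.neg ℝ else LinearIsometryEquiv.refl ℝ ℝ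

/-- the signs -/
def sgn6 (i : Fin 6) : ℤ := if i.val < 4 then 1 else -1

theorem g6_apply (x : E6) (i : Fin 6) : g6 x (ix i) = ((sgn6 i : ℤ) : ℝ) * x (ix i) := by
  unfold g6
  rw [LinearIsometryEquiv.piLpCongrRight_apply]
  fin_cases i <;> simp [ix, sgn6]

/-- the parities of the forms -/
def par6 (k : Fin 3) : ℤ := ![1, -1, -1] k

theorem AZ_par : ∀ k i j, AZ k i j * (sgn6 i * sgn6 j) = par6 k * AZ k i j := by
  decide +kernel

theorem phi_g6 (k : Fin 3) (x y : E6) : phi k (g6 x) (g6 y) = ((par6 k : ℤ) : ℝ) * phi k x y := by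
  unfold phi
  simp only [g6_apply, Finset.mul_sum]
  refine Finset.sum_congr rfl fun i _ => Finset.sum_congr rfl fun j _ => ?_
  have h := AZ_par k i j
  have h' : ((AZ k i j : ℤ) : ℝ) * (((sgn6 i : ℤ) : ℝ) * ((sgn6 j : ℤ) : ℝ)) =
      ((par6 k : ℤ) : ℝ) * ((AZ k i j : ℤ) : ℝ) := by exact_mod_cast h
  linear_combination (x (ix i) * y (ix j)) * h'

theorem par_sq : ∀ k, par6 k * par6 k = 1 := by
  decide +kernel

theorem R0_g6 (x y z w : E6) : R0 (g6 x) (g6 y) (g6 z) (g6 w) = R0 x y z w := by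
  unfold R0 skT
  congr 1
  refine Finset.sum_congr rfl fun k _ => ?_
  have h : ((par6 k : ℤ) : ℝ) * ((par6 k : ℤ) : ℝ) = 1 := by exact_mod_cast par_sq k
  simp only [phi_g6]
  linear_combination (2 * (phi k x y * phi k z w) + phi k x z * phi k y w -
    phi k x w * phi k y z) * h

/-- **The example.** -/
theorem example_pi : ∃ (δ : ℝ) (R : E6 → E6 → E6 → E6 → ℝ) (g : E6 ≃ₗᵢ[ℝ] E6)
    (W : Submodule ℝ E6), 0 < δ ∧ AlgCurv R ∧ (∀ a b, R a b a b + δ * unitT a b a b ≤ 0) ∧
      finrank ℝ W = 4 ∧ (∀ w ∈ W, g w = w) ∧ (∀ x ∈ Wᗮ, g x = - x) ∧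
      (∀ a b c d, R (g a) (g b) (g c) (g d) = R a b c d) ∧ 0 < gbc e6 R := by
  have hc := gbc_cont e6 R0 (fun a b c d => unitT a b c d)
  have h0 : (fun a b c d => R0 a b c d + (0 : ℝ) * unitT a b c d) = R0 := by
    funext a b c d
    ring
  have h1 : 0 < gbc e6 (fun a b c d => R0 a b c d + (0 : ℝ) * unitT a b c d) := by
    rw [h0]
    exact gbc_R0
  have h2 := (hc.tendsto 0).eventually (lt_mem_nhds h1)
  obtain ⟨r, hr, hball⟩ := Metric.eventually_nhds_iff.1 h2
  have h3 : 0 < gbc e6 (fun a b c d => R0 a b c d + (-(r / 2)) * unitT a b c d) := by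
    apply hball
    rw [Real.dist_eq, sub_zero, abs_neg, abs_of_pos (by positivity)]
    linarith
  have hu : AlgCurv (fun a b c d : E6 => unitT a b c d) := by
    have := unit_curv (V := E6) 1
    simpa using this
  have hli : LinearIndependent ℝ (fun i : Fin 4 => e6 (ix (Fin.castLE (by norm_num) i))) := by
    have := e6.toBasis.linearIndependent.comp
      (fun i : Fin 4 => ix (Fin.castLE (by norm_num : 4 ≤ 6) i))
      (fun a b h => Fin.castLE_injective _ (ix.injective h))
    simpa [Function.comp_def] using this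
  refine ⟨r / 2, fun a b c d => R0 a b c d + (-(r / 2)) * unitT a b c d, g6,
    Submodule.span ℝ (Set.range fun i : Fin 4 => e6 (ix (Fin.castLE (by norm_num) i))),
    by positivity, add_curv' R0_curv hu _, ?_, ?_, ?_, ?_, ?_, h3⟩
  · intro a b
    have := skT_sec phi_anti a b
    change R0 a b a b + (-(r / 2)) * unitT a b a b + r / 2 * unitT a b a b ≤ 0
    have h4 : R0 a b a b ≤ 0 := this
    linarith
  · rw [finrank_span_eq_card hli, Fintype.card_fin]
  · intro w hw
    have h4 : Set.EqOn (g6.toLinearEquiv : E6 →ₗ[ℝ] E6) (LinearMap.id : E6 →ₗ[ℝ] E6)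
        (Set.range fun i : Fin 4 => e6 (ix (Fin.castLE (by norm_num) i))) := by
      rintro _ ⟨i, rfl⟩
      change g6 _ = _
      ext j
      obtain ⟨j, rfl⟩ := ix.surjective j
      rw [g6_apply]
      change _ = e6 (ix _) (ix j)
      rw [e6_apply]
      by_cases hij : Fin.castLE (by norm_num) i = j
      · rw [if_pos hij, ← hij]
        unfold sgn6
        rw [if_pos]
        · simp
        · exact i.2
      · rw [if_neg hij, mul_zero]
    exact LinearMap.eqOn_span h4 hw
  · intro x hx
    ext j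
    obtain ⟨j, rfl⟩ := ix.surjective j
    rw [g6_apply]
    change _ = - x (ix j)
    by_cases hj : j.val < 4
    · have h4 : inner ℝ (e6 (ix j)) x = 0 :=
        (Submodule.mem_orthogonal _ x).1 hx _ (Submodule.subset_span ⟨⟨j.val, hj⟩, rfl⟩)
      have h5 : x (ix j) = 0 := by
        rw [← h4]
        unfold e6
        rw [EuclideanSpace.basisFun_apply, EuclideanSpace.inner_single_left]
        simp
      rw [h5]
      simp
    · unfold sgn6
      rw [if_neg hj]
      simp
  · intro a b c d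
    simp only [R0_g6, unitT, LinearIsometryEquiv.inner_map_map]

end Pool.Agent.H70PR
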