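import Pool.Agent.H70PR.Ineq2
import Pool.Agent.H31HS.Geo4

/-!
# Curvature tensors invariant under a rotation of a plane: relations and components
-/

set_option autoImplicit false

namespace Pool.Agent.H70PR

open Finset Module Pool.Agent.W666.GB Pool.Agent.W669.HD Pool.Agent.TH598.GV
open Pool.Agent.W975.HD (SM)
open Pool.Agent.H31HS (I6 cpt gbc_basis)
open Pool.Agent.R735.HA

/-- the six indices -/
def ix : Fin 6 ≃ I6 where
  toFun := ![(0, false), (0, true), (1, false), (1, true), (2, false), (2, true)]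
  invFun := fun p => if p.2 then ![1, 3, 5] p.1 else ![0, 2, 4] p.1
  left_inv := by decide
  right_inv := by decide

theorem G6_ix (R : I6 → I6 → I6 → I6 → ℝ) :
    ∑ σ : Equiv.Perm (Fin 3 × Bool), ∑ τ : Equiv.Perm (Fin 3 × Bool), sn σ * sn τ *
        ∏ b : Fin 3, R (σ (b, false)) (σ (b, true)) (τ (b, false)) (τ (b, true)) =
      G6 (fun i j k l => R (ix i) (ix j) (ix k) (ix l)) := by
  have hs : ∀ σ : Equiv.Perm (Fin 6), sn (ix.permCongr σ) = sn σ := by
    intro σ
    unfold sn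
    rw [Equiv.Perm.sign_permCongr]
  have hv : ∀ (σ : Equiv.Perm (Fin 6)) (i : Fin 6), ix.permCongr σ (ix i) = ix (σ i) := by
    intro σ i
    simp [Equiv.permCongr_apply]
  unfold G6
  rw [← Equiv.sum_comp ix.permCongr]
  refine Finset.sum_congr rfl fun σ _ => ?_
  rw [← Equiv.sum_comp ix.permCongr]
  refine Finset.sum_congr rfl fun τ _ => ?_
  rw [hs, hs, Fin.prod_univ_three]
  have a0 : ((0 : Fin 3), false) = ix 0 := rfl
  have a1 : ((0 : Fin 3), true) = ix 1 := rfl
  have a2 : ((1 : Fin 3), false) = ix 2 := rfl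
  have a3 : ((1 : Fin 3), true) = ix 3 := rfl
  have a4 : ((2 : Fin 3), false) = ix 4 := rfl
  have a5 : ((2 : Fin 3), true) = ix 5 := rfl
  simp only [a0, a1, a2, a3, a4, a5, hv]
  ring

variable {V : Type} [NormedAddCommGroup V] [InnerProductSpace ℝ V]

/-- the integrand for a tensor with structured components -/
theorem gbc_G6 (e : OrthonormalBasis (Fin 3 × Bool) ℝ V) (f : Basis I6 ℝ V) :
    ∃ κ : ℝ, 0 < κ ∧ ∀ S : V → V → V → V → ℝ, AlgCurv S →
      - gbc e S = κ * G6 (fun i j k l => - S (f (ix i)) (f (ix j)) (f (ix k)) (f (ix l))) := by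
  obtain ⟨κ, hκ, h⟩ := gbc_basis e f
  refine ⟨κ, hκ, fun S hS => ?_⟩
  rw [h S hS]
  congr 1
  have h1 := Pool.Agent.TH828.J3423.GG_re (fun i j k l : I6 => - S (f i) (f j) (f k) (f l))
  have h2 : cpt S f = fun a b c d => ((- S (f a) (f b) (f c) (f d) : ℝ) : ℂ) := rfl
  rw [h2, h1]
  exact G6_ix (fun i j k l : I6 => - S (f i) (f j) (f k) (f l))

/-- the relations for the components of a tensor invariant under a rotation of the plane of `p`
and `q` fixing the elements of `W` -/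
structure PlaneRel (S : V → V → V → V → ℝ) (p q : V) (W : Submodule ℝ V) : Prop where
  r1 : ∀ w ∈ W, S p q p w = 0
  r1' : ∀ w ∈ W, S p q q w = 0
  r2 : ∀ w ∈ W, ∀ w' ∈ W, ∀ w'' ∈ W, S p w w' w'' = 0
  r2' : ∀ w ∈ W, ∀ w' ∈ W, ∀ w'' ∈ W, S q w w' w'' = 0
  r3 : ∀ w ∈ W, ∀ w' ∈ W, S q w q w' = S p w p w'
  r4 : ∀ w ∈ W, ∀ w' ∈ W, 2 * S p w q w' = S p q w w'

section curv

variable {S : V → V → V → V → ℝ} (hS : AlgCurv S)

include hS

theorem c34 (x y z w : V) : S x y w z = - S x y z w := by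
  rw [← hS.pair x y w z, hS.anti z w, hS.pair]

theorem add2 (x y y' z w : V) : S x (y + y') z w = S x y z w + S x y' z w := by
  rw [hS.anti (y + y') x, hS.add, hS.anti x y, hS.anti x y']
  ring

theorem smul2 (t : ℝ) (x y z w : V) : S x (t • y) z w = t * S x y z w := by
  rw [hS.anti (t • y) x, hS.smul, hS.anti x y]
  ring

theorem add3 (x y z z' w : V) : S x y (z + z') w = S x y z w + S x y z' w := by
  rw [hS.pair (z + z') w, hS.add, hS.pair x y z w, hS.pair x y z' w]

theorem smul3 (t : ℝ) (x y z w : V) : S x y (t • z) w = t * S x y z w := by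
  rw [hS.pair (t • z) w, hS.smul, hS.pair]

theorem add4 (x y z w w' : V) : S x y z (w + w') = S x y z w + S x y z w' := by
  rw [c34 hS x y (w + w') z, add3 hS, c34 hS x y z w, c34 hS x y z w']
  ring

theorem smul4 (t : ℝ) (x y z w : V) : S x y z (t • w) = t * S x y z w := by
  rw [c34 hS x y (t • w) z, smul3 hS, c34 hS x y z w]
  ring

/-- **The relations follow from the invariance.** -/
theorem rel_of_inv {p q : V} {W : Submodule ℝ V} {g : V →ₗ[ℝ] V} {c s : ℝ} (hs : s ≠ 0)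
    (hcs : c ^ 2 + s ^ 2 = 1) (hp : g p = c • p + s • q) (hq : g q = (-s) • p + c • q)
    (hW : ∀ w ∈ W, g w = w)
    (hg : ∀ x y z w, (x = p ∨ x = q ∨ x ∈ W) → (y = p ∨ y = q ∨ y ∈ W) →
      (z = p ∨ z = q ∨ z ∈ W) → (w = p ∨ w = q ∨ w ∈ W) →
      S (g x) (g y) (g z) (g w) = S x y z w) : PlaneRel S p q W := by
  have lin : ∀ A B : ℝ, c * A + s * B = A → -s * A + c * B = B → A = 0 ∧ B = 0 := by
    intro A B h1 h2
    have h3 : (1 - c) ^ 2 * A + s ^ 2 * A = 0 := by linear_combination -(1 - c) * h1 - s * h2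
    have h4 : (1 - c) ^ 2 * B + s ^ 2 * B = 0 := by linear_combination -(1 - c) * h2 + s * h1
    have h5 : 0 < (1 - c) ^ 2 + s ^ 2 := by positivity
    constructor
    · have : ((1 - c) ^ 2 + s ^ 2) * A = 0 := by linarith
      exact (mul_eq_zero.1 this).resolve_left h5.ne'
    · have : ((1 - c) ^ 2 + s ^ 2) * B = 0 := by linarith
      exact (mul_eq_zero.1 this).resolve_left h5.ne'
  -- the plane
  have hpq : ∀ z w, S (g p) (g q) z w = S p q z w := by
    intro z w
    have hpp : S p p z w = 0 := by linarith [hS.anti p p z w]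
    have hqq : S q q z w = 0 := by linarith [hS.anti q q z w]
    rw [hp, hq, hS.add, hS.smul, hS.smul, add2 hS, add2 hS, smul2 hS, smul2 hS, smul2 hS,
      smul2 hS, hpp, hqq, hS.anti p q]
    linear_combination (S p q z w) * hcs
  have A1 : ∀ w ∈ W, S p q p w = 0 ∧ S p q q w = 0 := by
    intro w hw
    have h1 := hg p q p w (Or.inl rfl) (Or.inr (Or.inl rfl)) (Or.inl rfl) (Or.inr (Or.inr hw))
    have h2 := hg p q q w (Or.inl rfl) (Or.inr (Or.inl rfl)) (Or.inr (Or.inl rfl))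
      (Or.inr (Or.inr hw))
    rw [hpq, hW w hw, hp, add3 hS, smul3 hS, smul3 hS] at h1
    rw [hpq, hW w hw, hq, add3 hS, smul3 hS, smul3 hS] at h2
    exact lin _ _ h1 h2
  have A2 : ∀ w ∈ W, ∀ w' ∈ W, ∀ w'' ∈ W, S p w w' w'' = 0 ∧ S q w w' w'' = 0 := by
    intro w hw w' hw' w'' hw''
    have h1 := hg p w w' w'' (Or.inl rfl) (Or.inr (Or.inr hw)) (Or.inr (Or.inr hw'))
      (Or.inr (Or.inr hw''))
    have h2 := hg q w w' w'' (Or.inr (Or.inl rfl)) (Or.inr (Or.inr hw)) (Or.inr (Or.inr hw'))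
      (Or.inr (Or.inr hw''))
    rw [hW w hw, hW w' hw', hW w'' hw'', hp, hS.add, hS.smul, hS.smul] at h1
    rw [hW w hw, hW w' hw', hW w'' hw'', hq, hS.add, hS.smul, hS.smul] at h2
    exact lin _ _ h1 h2
  have A3 : ∀ w ∈ W, ∀ w' ∈ W, S q w q w' = S p w p w' ∧ S q w p w' = - S p w q w' := by
    intro w hw w' hw'
    have h1 := hg p w p w' (Or.inl rfl) (Or.inr (Or.inr hw)) (Or.inl rfl) (Or.inr (Or.inr hw'))
    have h2 := hg p w q w' (Or.inl rfl) (Or.inr (Or.inr hw)) (Or.inr (Or.inl rfl))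
      (Or.inr (Or.inr hw'))
    rw [hW w hw, hW w' hw', hp, hS.add, hS.smul, hS.smul, add3 hS, add3 hS, smul3 hS, smul3 hS,
      smul3 hS, smul3 hS] at h1
    rw [hW w hw, hW w' hw', hp, hq, hS.add, hS.smul, hS.smul, add3 hS, add3 hS, smul3 hS,
      smul3 hS, smul3 hS, smul3 hS] at h2
    have h3 : s * (s * (S q w q w' - S p w p w') + c * (S p w q w' + S q w p w')) = 0 := by
      linear_combination h1 + (-S p w p w') * hcs
    have h4 : s * (c * (S q w q w' - S p w p w') - s * (S p w q w' + S q w p w')) = 0 := by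
      linear_combination h2 + (-S p w q w') * hcs
    have h5 := (mul_eq_zero.1 h3).resolve_left hs
    have h6 := (mul_eq_zero.1 h4).resolve_left hs
    constructor
    · linear_combination s * h5 + c * h6 - (S q w q w' - S p w p w') * hcs
    · linear_combination c * h5 - s * h6 - (S p w q w' + S q w p w') * hcs
  refine ⟨fun w hw => (A1 w hw).1, fun w hw => (A1 w hw).2,
    fun w hw w' hw' w'' hw'' => (A2 w hw w' hw' w'' hw'').1,
    fun w hw w' hw' w'' hw'' => (A2 w hw w' hw' w'' hw'').2,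
    fun w hw w' hw' => (A3 w hw w' hw').1, fun w hw w' hw' => ?_⟩
  have h1 := hS.bianchi p w q w'
  have h2 := hS.anti q w p w'
  have h3 := hS.anti p q w w'
  have h4 := (A3 w hw w' hw').2
  linarith

end curv

/-- the components -/
def cmp (S : V → V → V → V → ℝ) (f : I6 → V) : T6 :=
  fun i j k l => - S (f (ix i)) (f (ix j)) (f (ix k)) (f (ix l))

theorem rot_of_rel {S : V → V → V → V → ℝ} (hS : AlgCurv S) {p q : V} {W : Submodule ℝ V}
    (hr : PlaneRel S p q W) (f : I6 → V) (hp : f (0, false) = p) (hq : f (0, true) = q)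
    (hw : ∀ i, f (ix (ww i)) ∈ W)
    (ho : ∀ i j, - S p (f (ix (ww i))) p (f (ix (ww j))) = if i = j then 1 else 0) :
    Rot (cmp S f) (- S p q p q) (fun i j => - S p q (f (ix (ww i))) (f (ix (ww j))))
      (fun i j k l => - S (f (ix (ww i))) (f (ix (ww j))) (f (ix (ww k))) (f (ix (ww l)))) := by
  have e0 : f (ix 0) = p := hp
  have e1 : f (ix 1) = q := hq
  unfold cmp
  refine ⟨?_, ?_, ?_, ?_, ?_, ?_, ?_, ?_, ?_, ?_, ?_, ?_, ?_, ?_, ?_, ?_⟩
  · intro i j l m
    rw [hS.anti]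
  · intro i j l m
    rw [hS.pair]
  · rw [e0, e1]
  · intro i j
    rw [e0, e1]
  · intro i
    rw [e0, ho, if_pos rfl]
  · intro i j hij
    rw [e0, ho, if_neg hij]
  · intro i
    rw [e1, hr.r3 _ (hw i) _ (hw i), ho, if_pos rfl]
  · intro i j hij
    rw [e1, hr.r3 _ (hw i) _ (hw j), ho, if_neg hij]
  · intro i j
    rw [e0, e1, ← hr.r4 _ (hw i) _ (hw j)]
    ring
  · intro i
    rw [e0, e1, hr.r1 _ (hw i), neg_zero]
  · intro i
    rw [e0, e1, hr.r1' _ (hw i), neg_zero]
  · intro i j l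
    rw [e0, hr.r2 _ (hw i) _ (hw j) _ (hw l), neg_zero]
  · intro i j l
    rw [e1, hr.r2' _ (hw i) _ (hw j) _ (hw l), neg_zero]
  · intro i j l m
    rfl
  · intro i j
    rw [c34 hS]
  · refine ⟨fun i j k l => by rw [hS.anti], fun i j k l => by rw [hS.pair], fun i j k l => ?_⟩
    have h := hS.bianchi (f (ix (ww i))) (f (ix (ww j))) (f (ix (ww k))) (f (ix (ww l)))
    linarith

/-- the condition on the sectional curvatures -/
theorem sec_H {S : V → V → V → V → ℝ} (hS : AlgCurv S) (hs : ∀ a b, S a b a b ≤ 0) {p q : V}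
    {W : Submodule ℝ V} (hr : PlaneRel S p q W) (g : Fin 4 → V) (hg : ∀ i, g i ∈ W)
    (ho : ∀ i j, - S p (g i) p (g j) = if i = j then 1 else 0) (u v : Fin 4 → ℝ)
    (hu : ∑ i, u i ^ 2 = 1) (hv : ∑ i, v i ^ 2 = 1) (D : ℝ) :
    0 ≤ - S p q p q * D ^ 2 + 3 * D * bv (fun i j => - S p q (g i) (g j)) u v + 2 * |D| +
      SM (fun i j k l => - S (g i) (g j) (g k) (g l)) u v u v := by
  have hU : vc g u ∈ W := W.sum_mem fun i _ => W.smul_mem _ (hg i)
  have hV : vc g v ∈ W := W.sum_mem fun i _ => W.smul_mem _ (hg i)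
  have n1 : ∀ x : Fin 4 → ℝ, - S p (vc g x) p (vc g x) = ∑ i, x i ^ 2 := by
    intro x
    rw [l2 hS, ← Finset.sum_neg_distrib]
    refine Finset.sum_congr rfl fun i _ => ?_
    rw [l4 hS]
    have : ∀ j, x j * S p (g i) p (g j) = -(x j * (if i = j then 1 else 0)) := fun j => by
      rw [← ho i j]; ring
    simp only [this, Finset.sum_neg_distrib]
    simp
    ring
  have n2 : - S p q (vc g u) (vc g v) = bv (fun i j => - S p q (g i) (g j)) u v := by
    unfold bv
    rw [l3 hS, ← Finset.sum_neg_distrib]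
    refine Finset.sum_congr rfl fun i _ => ?_
    rw [l4 hS, Finset.mul_sum, ← Finset.sum_neg_distrib]
    exact Finset.sum_congr rfl fun j _ => by ring
  have n3 : - S (vc g u) (vc g v) (vc g u) (vc g v) =
      SM (fun i j k l => - S (g i) (g j) (g k) (g l)) u v u v := by
    unfold SM
    rw [l1 hS, ← Finset.sum_neg_distrib]
    refine Finset.sum_congr rfl fun i _ => ?_
    rw [l2 hS, Finset.mul_sum, ← Finset.sum_neg_distrib]
    refine Finset.sum_congr rfl fun j _ => ?_
    rw [l3 hS, Finset.mul_sum, Finset.mul_sum, ← Finset.sum_neg_distrib]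
    refine Finset.sum_congr rfl fun k _ => ?_
    rw [l4 hS, Finset.mul_sum, Finset.mul_sum, Finset.mul_sum, ← Finset.sum_neg_distrib]
    exact Finset.sum_congr rfl fun l _ => by ring
  rw [← n2, ← n3]
  have m1 := n1 u
  have m2 := n1 v
  rw [hu] at m1
  rw [hv] at m2
  generalize vc g u = U at hU m1 n2 n3
  generalize vc g v = T at hV m2 n2 n3
  -- the general identity
  have key : ∀ α β : ℝ, - S (α • p + U) (β • q + T) (α • p + U) (β • q + T) =
      - S p q p q * (α * β) ^ 2 + 3 * (α * β) * (- S p q U T) + α ^ 2 + β ^ 2 +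
        - S U T U T := by
    intro α β
    have z1 := hr.r1 _ hU
    have z2 := hr.r1 _ hV
    have z3 := hr.r1' _ hU
    have z4 := hr.r1' _ hV
    have y1 := hr.r2 _ hV _ hU _ hV
    have y2 := hr.r2' _ hU _ hU _ hV
    have x1 : S q U q U = S p U p U := hr.r3 _ hU _ hU
    have x2 := hr.r4 _ hV _ hU
    have f1 : S p q p T = 0 := z2
    have f2 : S p q U q = 0 := by rw [c34 hS p q q U, z3, neg_zero]
    have f3 : S p T p q = 0 := by rw [hS.pair p q p T, z2]
    have f4 : S p T p T = -1 := by linarith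
    have f5 : S p T U q = 1 / 2 * S p q U T := by
      have h1 := c34 hS p T q U
      have h2 := c34 hS p q T U
      linarith
    have f6 : S p T U T = 0 := y1
    have f7 : S U q p q = 0 := by rw [hS.pair p q U q, f2]
    have f8 : S U q p T = 1 / 2 * S p q U T := by rw [hS.pair p T U q, f5]
    have f9 : S U q U q = -1 := by
      rw [hS.anti q U U q, c34 hS q U q U, x1]
      linarith
    have f10 : S U q U T = 0 := by rw [hS.anti q U U T, y2, neg_zero]
    have f11 : S U T p q = S p q U T := hS.pair _ _ _ _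
    have f12 : S U T p T = 0 := by rw [hS.pair p T U T, y1]
    have f13 : S U T U q = 0 := by rw [hS.pair U q U T, f10]
    simp only [hS.add, hS.smul, add2 hS, smul2 hS, add3 hS, smul3 hS, add4 hS, smul4 hS]
    rw [f1, f2, f3, f4, f5, f6, f7, f8, f9, f10, f11, f12, f13]
    ring
  have hD := abs_nonneg D
  have sD := Real.mul_self_sqrt hD
  rcases abs_cases D with ⟨h1, -⟩ | ⟨h1, -⟩
  · have h2 := key (Real.sqrt |D|) (Real.sqrt |D|)
    have h3 := hs (Real.sqrt |D| • p + U) (Real.sqrt |D| • q + T)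
    rw [sq (Real.sqrt |D|), sD] at h2
    rw [h1] at h2 h3 ⊢
    linarith
  · have h2 := key (Real.sqrt |D|) (-Real.sqrt |D|)
    have h3 := hs (Real.sqrt |D| • p + U) ((-Real.sqrt |D|) • q + T)
    have h4 : Real.sqrt |D| * -Real.sqrt |D| = D := by
      rw [mul_neg, sD, h1, neg_neg]
    rw [h4, neg_sq, sq (Real.sqrt |D|), sD] at h2
    rw [h1] at h2 h3 ⊢
    linarith

/-- **The strict case.** -/
theorem rot_strict (e : OrthonormalBasis (Fin 3 × Bool) ℝ V) {S : V → V → V → V → ℝ}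
    (hS : AlgCurv S) (hs : ∀ a b, S a b a b ≤ 0) {p q : V} {W : Submodule ℝ V}
    (hr : PlaneRel S p q W) (hk : 0 < - S p q p q) (f : Basis I6 ℝ V) (hp : f (0, false) = p)
    (hq : f (0, true) = q) (hw : ∀ i, f (ix (ww i)) ∈ W)
    (ho : ∀ i j, - S p (f (ix (ww i))) p (f (ix (ww j))) = if i = j then 1 else 0) :
    0 ≤ - gbc e S := by
  obtain ⟨κ, hκ, h⟩ := gbc_G6 e f
  rw [h S hS]
  have h1 := rot_of_rel hS hr f hp hq hw ho
  have h2 := G6_rot h1
  have h3 := main_ineq hk h1.sc h1.bn (fun u v hu hv _ D =>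
    sec_H hS hs hr (fun i => f (ix (ww i))) hw ho u v hu hv D)
  have h4 : G6 (fun i j k l => - S (f (ix i)) (f (ix j)) (f (ix k)) (f (ix l))) =
      G6 (cmp S f) := rfl
  rw [h4, h2]
  positivity

end Pool.Agent.H70PR
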