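import Pool.Agent.H70PR.Geo

/-!
# Curvature tensors invariant under a rotation of a plane: the sign of the integrand
-/

set_option autoImplicit false

namespace Pool.Agent.H70PR

open Finset Module Pool.Agent.W666.GB Pool.Agent.W669.HD Pool.Agent.TH598.GV
open Pool.Agent.H31HS (I6 cpt add_curv' hopf_small finrank_ob)
open Pool.Agent.Y519.HB (HopfOn restrict_curv)

variable {V : Type} [NormedAddCommGroup V] [InnerProductSpace ℝ V]

/-- a family of six vectors -/
def fam (p q : V) (w : Fin 4 → V) : I6 → V := fun i => (![p, q, w 0, w 1, w 2, w 3] : Fin 6 → V)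
  (ix.symm i)

theorem fam_p (p q : V) (w : Fin 4 → V) : fam p q w (0, false) = p := rfl

theorem fam_q (p q : V) (w : Fin 4 → V) : fam p q w (0, true) = q := rfl

theorem fam_w (p q : V) (w : Fin 4 → V) (i : Fin 4) : fam p q w (ix (ww i)) = w i := by
  fin_cases i <;> rfl

/-- the vectors `p`, `q` and the space `W` span -/
def Spans (p q : V) (W : Submodule ℝ V) : Prop :=
  ∀ x : V, ∃ α β : ℝ, ∃ w ∈ W, x = α • p + β • q + w

theorem fam_span {p q : V} {W : Submodule ℝ V} (hsp : Spans p q W) (w : Fin 4 → V)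
    (hw : ∀ x ∈ W, x ∈ Submodule.span ℝ (Set.range w)) :
    ⊤ ≤ Submodule.span ℝ (Set.range (fam p q w)) := by
  intro x _
  obtain ⟨α, β, y, hy, rfl⟩ := hsp x
  refine add_mem (add_mem (Submodule.smul_mem _ _ (Submodule.subset_span ⟨(0, false), rfl⟩))
    (Submodule.smul_mem _ _ (Submodule.subset_span ⟨(0, true), rfl⟩))) ?_
  refine (Submodule.span_mono ?_) (hw y hy)
  rintro _ ⟨i, rfl⟩
  exact ⟨ix (ww i), fam_w p q w i⟩

theorem finrank_W {p q : V} {W : Submodule ℝ V} [FiniteDimensional ℝ V] (hsp : Spans p q W)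
    (hd : finrank ℝ V = 6) : 4 ≤ finrank ℝ W := by
  have h1 : (⊤ : Submodule ℝ V) ≤ Submodule.span ℝ (Set.range ![p, q]) ⊔ W := by
    intro x _
    obtain ⟨α, β, y, hy, rfl⟩ := hsp x
    refine add_mem (add_mem ?_ ?_) (Submodule.mem_sup_right hy)
    · exact Submodule.smul_mem _ _ (Submodule.mem_sup_left (Submodule.subset_span ⟨0, rfl⟩))
    · exact Submodule.smul_mem _ _ (Submodule.mem_sup_left (Submodule.subset_span ⟨1, rfl⟩))
  have h2 := Submodule.finrank_mono h1
  rw [finrank_top, hd] at h2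
  have h3 := Submodule.finrank_add_le_finrank_add_finrank (Submodule.span ℝ (Set.range ![p, q])) W
  have h4 : finrank ℝ (Submodule.span ℝ (Set.range ![p, q])) ≤ 2 := by
    have := finrank_range_le_card (R := ℝ) ![p, q]
    rw [Fintype.card_fin] at this
    exact this
  omega

/-- **The definite case.** -/
theorem rot_def (e : OrthonormalBasis (Fin 3 × Bool) ℝ V) {S : V → V → V → V → ℝ}
    (hS : AlgCurv S) (hs : ∀ a b, S a b a b ≤ 0) {p q : V} {W : Submodule ℝ V}
    (hr : PlaneRel S p q W) (hsp : Spans p q W) (hW : finrank ℝ W = 4) (hk : 0 < - S p q p q)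
    (hpos : ∀ w ∈ W, w ≠ 0 → 0 < - S p w p w) : 0 ≤ - gbc e S := by
  classical
  have hfin : FiniteDimensional ℝ V := Module.Finite.of_basis e.toBasis
  have hV := finrank_ob e
  obtain ⟨B, hB⟩ : ∃ B : LinearMap.BilinForm ℝ W, ∀ x y : W, B x y = - S p x p y := by
    refine ⟨LinearMap.mk₂ ℝ (fun x y : W => - S p x p y) ?_ ?_ ?_ ?_, fun x y => rfl⟩
    · intro x x' y
      rw [Submodule.coe_add, add2 hS]; ring
    · intro t x y
      rw [Submodule.coe_smul, smul2 hS, smul_eq_mul]; ring
    · intro x y y'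
      rw [Submodule.coe_add, add4 hS]; ring
    · intro t x y
      rw [Submodule.coe_smul, smul4 hS, smul_eq_mul]; ring
  have hBs : LinearMap.IsSymm B := by
    constructor
    intro x y
    rw [hB, hB, RingHom.id_apply, hS.pair]
  obtain ⟨v, hv⟩ := LinearMap.BilinForm.exists_orthogonal_basis hBs
  have hc : Fintype.card (Fin (finrank ℝ W)) = Fintype.card (Fin 4) := by
    rw [Fintype.card_fin, Fintype.card_fin, hW]
  obtain ⟨u, hu⟩ : ∃ u : Basis (Fin 4) ℝ W, ∀ i j, i ≠ j → B (u i) (u j) = 0 := by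
    refine ⟨v.reindex (Fintype.equivOfCardEq hc), fun i j hij => ?_⟩
    rw [Basis.reindex_apply, Basis.reindex_apply]
    exact hv (fun h => hij ((Fintype.equivOfCardEq hc).symm.injective h))
  have hup : ∀ i, 0 < B (u i) (u i) := by
    intro i
    rw [hB]
    exact hpos _ (u i).2 (fun h => u.ne_zero i (Subtype.ext h))
  obtain ⟨w, hw⟩ : ∃ w : Fin 4 → V, w = fun i => (Real.sqrt (B (u i) (u i)))⁻¹ • (u i : V) :=
    ⟨_, rfl⟩
  have hwW : ∀ i, w i ∈ W := fun i => by
    rw [hw]
    exact W.smul_mem _ (u i).2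
  have hspan : ∀ x ∈ W, x ∈ Submodule.span ℝ (Set.range w) := by
    intro x hx
    have h1 := u.sum_repr ⟨x, hx⟩
    have h2 : x = ∑ i, u.repr ⟨x, hx⟩ i • (u i : V) := by
      have := congrArg Subtype.val h1
      simp only [Submodule.coe_sum, Submodule.coe_smul] at this
      exact this.symm
    rw [h2]
    refine Submodule.sum_mem _ fun i _ => Submodule.smul_mem _ _ ?_
    have h3 : (u i : V) = Real.sqrt (B (u i) (u i)) • w i := by
      rw [hw, smul_smul, mul_inv_cancel₀ (Real.sqrt_pos.2 (hup i)).ne', one_smul]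
    rw [h3]
    exact Submodule.smul_mem _ _ (Submodule.subset_span ⟨i, rfl⟩)
  have hcard : Fintype.card I6 = finrank ℝ V := by
    rw [hV]
    rfl
  obtain ⟨f, hf⟩ : ∃ f : Basis I6 ℝ V, (f : I6 → V) = fam p q w :=
    ⟨basisOfTopLeSpanOfCardEqFinrank (fam p q w) (fam_span hsp w hspan) hcard, by
      rw [coe_basisOfTopLeSpanOfCardEqFinrank]⟩
  refine rot_strict e hS hs hr hk f ?_ ?_ ?_ ?_
  · rw [hf, fam_p]
  · rw [hf, fam_q]
  · intro i
    rw [hf, fam_w]
    exact hwW i
  · intro i j
    rw [hf, fam_w, fam_w, hw, smul2 hS, smul4 hS]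
    by_cases hij : i = j
    · subst hij
      rw [if_pos rfl]
      have h1 := hup i
      have h2 := Real.sq_sqrt h1.le
      have h3 := (Real.sqrt_pos.2 h1).ne'
      have h4 : S p (u i) p (u i) = - (Real.sqrt (B (u i) (u i)) ^ 2) := by
        rw [h2, hB, neg_neg]
      rw [h4]
      field_simp
    · rw [if_neg hij]
      have h1 := hu i j hij
      rw [hB] at h1
      have h2 : S p (u i) p (u j) = 0 := by linarith
      rw [h2]
      ring

/-- the bilinear form for which a basis is orthonormal -/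
noncomputable def hb (f : Basis I6 ℝ V) (x y : V) : ℝ := ∑ i, f.repr x i * f.repr y i

theorem hb_comm (f : Basis I6 ℝ V) (x y : V) : hb f x y = hb f y x :=
  Finset.sum_congr rfl fun _ _ => mul_comm _ _

theorem hb_add (f : Basis I6 ℝ V) (x x' y : V) : hb f (x + x') y = hb f x y + hb f x' y := by
  unfold hb
  rw [← Finset.sum_add_distrib]
  refine Finset.sum_congr rfl fun i _ => ?_
  rw [map_add, Finsupp.add_apply]
  ring

theorem hb_smul (f : Basis I6 ℝ V) (t : ℝ) (x y : V) : hb f (t • x) y = t * hb f x y := by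
  unfold hb
  rw [Finset.mul_sum]
  refine Finset.sum_congr rfl fun i _ => ?_
  rw [map_smul, Finsupp.smul_apply, smul_eq_mul]
  ring

theorem hb_basis (f : Basis I6 ℝ V) (i : I6) (y : V) : hb f (f i) y = f.repr y i := by
  unfold hb
  rw [Finset.sum_eq_single i]
  · rw [Basis.repr_self, Finsupp.single_eq_same, one_mul]
  · intro j _ hj
    rw [Basis.repr_self, Finsupp.single_eq_of_ne hj, zero_mul]
  · intro h
    exact absurd (Finset.mem_univ _) h

theorem hb_pos (f : Basis I6 ℝ V) {x : V} (hx : x ≠ 0) : 0 < hb f x x := by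
  have h0 : 0 ≤ hb f x x := Finset.sum_nonneg fun i _ => mul_self_nonneg _
  refine lt_of_le_of_ne h0 fun h => hx ?_
  have h1 : ∀ i, f.repr x i = 0 := by
    intro i
    have h2 := (Finset.sum_eq_zero_iff_of_nonneg
      (fun i _ => mul_self_nonneg (f.repr x i))).1 h.symm i (Finset.mem_univ i)
    exact mul_self_eq_zero.1 h2
  apply f.repr.injective
  rw [map_zero]
  ext i
  rw [h1]
  rfl

theorem hb_cs (f : Basis I6 ℝ V) (x y : V) : hb f x y ^ 2 ≤ hb f x x * hb f y y := by
  have := Finset.sum_mul_sq_le_sq_mul_sq Finset.univ (fun i => f.repr x i) (fun i => f.repr y i)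
  simpa [hb, sq] using this

/-- the tensor of constant curvature one for which a basis is orthonormal -/
noncomputable def ut (f : Basis I6 ℝ V) (a b c d : V) : ℝ :=
  hb f a c * hb f b d - hb f a d * hb f b c

theorem ut_curv (f : Basis I6 ℝ V) : AlgCurv (ut f) where
  add x x' y z w := by unfold ut; rw [hb_add, hb_add]; ring
  smul t x y z w := by unfold ut; rw [hb_smul, hb_smul]; ring
  anti x y z w := by unfold ut; ring
  pair x y z w := by
    unfold ut
    rw [hb_comm f z x, hb_comm f w y, hb_comm f z y, hb_comm f w x]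
    ring
  bianchi x y z w := by
    unfold ut
    rw [hb_comm f z x, hb_comm f y x, hb_comm f z y]
    ring

theorem gbc_cont (e : OrthonormalBasis (Fin 3 × Bool) ℝ V) (S T : V → V → V → V → ℝ) :
    Continuous fun r : ℝ => gbc e (fun a b c d => S a b c d + r * T a b c d) := by
  unfold gbc
  fun_prop

/-- **The sign in dimension six.** -/
theorem rot_six (e : OrthonormalBasis (Fin 3 × Bool) ℝ V) {S : V → V → V → V → ℝ}
    (hS : AlgCurv S) (hs : ∀ a b, S a b a b ≤ 0) {p q : V} {W : Submodule ℝ V}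
    (hr : PlaneRel S p q W) (hsp : Spans p q W) (hW : finrank ℝ W ≤ 4) : 0 ≤ - gbc e S := by
  classical
  have hfin : FiniteDimensional ℝ V := Module.Finite.of_basis e.toBasis
  have hV := finrank_ob e
  have hW4 : finrank ℝ W = 4 := le_antisymm hW (finrank_W hsp (by omega))
  obtain ⟨u, -⟩ : ∃ u : Basis (Fin 4) ℝ W, True := ⟨Module.finBasisOfFinrankEq ℝ W hW4, trivial⟩
  obtain ⟨w, hw⟩ : ∃ w : Fin 4 → V, w = fun i => (u i : V) := ⟨_, rfl⟩
  have hexp : ∀ x ∈ W, ∃ c : Fin 4 → ℝ, x = ∑ i, c i • w i := by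
    intro x hx
    refine ⟨fun i => u.repr ⟨x, hx⟩ i, ?_⟩
    have := congrArg Subtype.val (u.sum_repr ⟨x, hx⟩)
    rw [hw]
    simp only [Submodule.coe_sum, Submodule.coe_smul] at this
    exact this.symm
  have hspan : ∀ x ∈ W, x ∈ Submodule.span ℝ (Set.range w) := by
    intro x hx
    obtain ⟨c, rfl⟩ := hexp x hx
    exact Submodule.sum_mem _ fun i _ =>
      Submodule.smul_mem _ _ (Submodule.subset_span ⟨i, rfl⟩)
  have hcard : Fintype.card I6 = finrank ℝ V := by
    rw [hV]
    rfl
  obtain ⟨f, hf⟩ : ∃ f : Basis I6 ℝ V, (f : I6 → V) = fam p q w :=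
    ⟨basisOfTopLeSpanOfCardEqFinrank (fam p q w) (fam_span hsp w hspan) hcard, by
      rw [coe_basisOfTopLeSpanOfCardEqFinrank]⟩
  have hfp : f (0, false) = p := by rw [hf, fam_p]
  have hfq : f (0, true) = q := by rw [hf, fam_q]
  have hfw : ∀ i, f (ix (ww i)) = w i := fun i => by rw [hf, fam_w]
  have h0 : ∀ (s : Bool), ∀ x ∈ W, f.repr x (0, s) = 0 := by
    intro s x hx
    obtain ⟨c, rfl⟩ := hexp x hx
    rw [map_sum, Finsupp.finsetSum_apply]
    refine Finset.sum_eq_zero fun i _ => ?_
    rw [map_smul, Finsupp.smul_apply, ← hfw, Basis.repr_self, Finsupp.single_apply, if_neg,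
      smul_zero]
    fin_cases i <;> cases s <;> decide
  have hpp : hb f p p = 1 := by
    conv_lhs => rw [← hfp]
    rw [hb_basis, Basis.repr_self, Finsupp.single_eq_same]
  have hqq : hb f q q = 1 := by
    conv_lhs => rw [← hfq]
    rw [hb_basis, Basis.repr_self, Finsupp.single_eq_same]
  have hpq : hb f p q = 0 := by
    conv_lhs => rw [← hfp, ← hfq]
    rw [hb_basis, Basis.repr_self, Finsupp.single_eq_of_ne]
    decide
  have hpw : ∀ x ∈ W, hb f p x = 0 := by
    intro x hx
    conv_lhs => rw [← hfp]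
    rw [hb_basis, h0 _ _ hx]
  have hqw : ∀ x ∈ W, hb f q x = 0 := by
    intro x hx
    conv_lhs => rw [← hfq]
    rw [hb_basis, h0 _ _ hx]
  have key : ∀ ε : ℝ, 0 < ε → 0 ≤ - gbc e (fun a b c d => S a b c d + (-ε) * ut f a b c d) := by
    intro ε hε
    refine rot_def e (add_curv' hS (ut_curv f) (-ε)) ?_ (p := p) (q := q) (W := W) ?_ hsp hW4 ?_ ?_
    · intro a b
      have h1 := hs a b
      have h2 := hb_cs f a b
      have h3 : 0 ≤ ut f a b a b := by
        unfold ut
        rw [hb_comm f b a]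
        nlinarith
      have : 0 ≤ ε * ut f a b a b := mul_nonneg hε.le h3
      linarith
    · refine ⟨fun x hx => ?_, fun x hx => ?_, fun x hx y hy z hz => ?_,
        fun x hx y hy z hz => ?_, fun x hx y hy => ?_, fun x hx y hy => ?_⟩
      · rw [hr.r1 x hx]
        unfold ut
        rw [hpw x hx, hqw x hx]
        ring
      · rw [hr.r1' x hx]
        unfold ut
        rw [hpw x hx, hqw x hx]
        ring
      · rw [hr.r2 x hx y hy z hz]
        unfold ut
        rw [hpw y hy, hpw z hz]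
        ring
      · rw [hr.r2' x hx y hy z hz]
        unfold ut
        rw [hqw y hy, hqw z hz]
        ring
      · rw [hr.r3 x hx y hy]
        unfold ut
        rw [hpp, hqq, hpw y hy, hqw y hy]
        ring
      · have h1 := hr.r4 x hx y hy
        unfold ut
        rw [hpq, hpw y hy, hpw x hx, hqw y hy]
        linarith
    · have h1 := hs p q
      have h2 : ut f p q p q = 1 := by
        unfold ut
        rw [hpp, hqq, hpq]
        ring
      rw [h2]
      linarith
    · intro x hx hx0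
      have h1 := hs p x
      have h2 : ut f p x p x = hb f x x := by
        unfold ut
        rw [hpp, hpw x hx]
        ring
      rw [h2]
      have h3 := mul_pos hε (hb_pos f hx0)
      linarith
  have hc := (gbc_cont e S (ut f)).neg
  have ht : Filter.Tendsto (fun n : ℕ => -((1 : ℝ) / ((n : ℝ) + 1))) Filter.atTop (nhds 0) := by
    have := (tendsto_one_div_add_atTop_nhds_zero_nat (𝕜 := ℝ)).neg
    simpa using this
  have h1 := (hc.tendsto 0).comp ht
  have h2 : 0 ≤ - gbc e (fun a b c d => S a b c d + (0 : ℝ) * ut f a b c d) :=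
    ge_of_tendsto' h1 fun n => key (1 / ((n : ℝ) + 1)) (by positivity)
  have h3 : (fun a b c d => S a b c d + (0 : ℝ) * ut f a b c d) = S := by
    funext a b c d
    ring
  rwa [h3] at h2

/-- **Blocks.** -/
theorem hopf_rot [FiniteDimensional ℝ V] {S : V → V → V → V → ℝ} (hS : AlgCurv S)
    (hs : ∀ a b, S a b a b ≤ 0) {U W : Submodule ℝ V} {p q : V} (hp : p ∈ U) (hq : q ∈ U)
    (hWU : W ≤ U) (hW : finrank ℝ W ≤ 4)
    (hsp : ∀ x ∈ U, ∃ α β : ℝ, ∃ w ∈ W, x = α • p + β • q + w)
    (hr : PlaneRel S p q W) : HopfOn U S := by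
  intro k G hG ε
  rcases Nat.lt_or_ge k 3 with hk | hk
  · exact hopf_small hS hs hk G ε
  have hG2 := finrank_ob ε
  have h2 := Submodule.finrank_mono hG
  have hU : finrank ℝ U ≤ 6 := by
    have h1 : U ≤ Submodule.span ℝ (Set.range ![p, q]) ⊔ W := by
      intro x hx
      obtain ⟨α, β, y, hy, rfl⟩ := hsp x hx
      refine add_mem (add_mem ?_ ?_) (Submodule.mem_sup_right hy)
      · exact Submodule.smul_mem _ _ (Submodule.mem_sup_left (Submodule.subset_span ⟨0, rfl⟩))
      · exact Submodule.smul_mem _ _ (Submodule.mem_sup_left (Submodule.subset_span ⟨1, rfl⟩))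
    have h3 := Submodule.finrank_mono h1
    have h4 := Submodule.finrank_add_le_finrank_add_finrank
      (Submodule.span ℝ (Set.range ![p, q])) W
    have h5 : finrank ℝ (Submodule.span ℝ (Set.range ![p, q])) ≤ 2 := by
      have := finrank_range_le_card (R := ℝ) ![p, q]
      rw [Fintype.card_fin] at this
      exact this
    omega
  obtain rfl : k = 3 := by omega
  have hGU : G = U := Submodule.eq_of_le_of_finrank_eq hG (by omega)
  subst hGU
  have h6 := rot_six ε (restrict_curv hS G) (fun a b => hs a b) (p := ⟨p, hp⟩) (q := ⟨q, hq⟩)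
    (W := W.comap G.subtype) ?_ ?_ ?_
  · linarith
  · exact ⟨fun x hx => hr.r1 x hx, fun x hx => hr.r1' x hx,
      fun x hx y hy z hz => hr.r2 x hx y hy z hz, fun x hx y hy z hz => hr.r2' x hx y hy z hz,
      fun x hx y hy => hr.r3 x hx y hy, fun x hx y hy => hr.r4 x hx y hy⟩
  · intro x
    obtain ⟨α, β, w, hw, hx⟩ := hsp x x.2
    refine ⟨α, β, ⟨w, hWU hw⟩, hw, Subtype.ext ?_⟩
    rw [hx]
    rfl
  · rw [Pool.Agent.H31HS.finrank_comap, inf_eq_left.2 hWU]
    exact hW

end Pool.Agent.H70PR
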