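import Pool.Agent.H70PR.Mat
import Pool.Agent.W155.HD.K4

/-!
# The Gauss–Bonnet–Chern sum of a tensor invariant under the rotations of a plane
-/

set_option autoImplicit false
set_option linter.unusedSimpArgs false

namespace Pool.Agent.H70PR

open Finset Pool.Agent.W666.GB Pool.Agent.W669.HD Pool.Agent.W976.HD

/-- tensors with indices in `Fin 6` -/
abbrev T6 := Fin 6 → Fin 6 → Fin 6 → Fin 6 → ℝ

/-- the last four indices -/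
def ww : Fin 4 → Fin 6 := ![2, 3, 4, 5]

/-- The components of a curvature tensor invariant under the rotations of the plane of the first
two vectors: `k` is the value on this plane, `b` the mixed part, `s` the restriction to the other
four vectors; the form `w, w' ↦ K (p, w; p, w')` is the unit form. -/
structure Rot (K : T6) (k : ℝ) (b : Fin 4 → Fin 4 → ℝ) (s : Q4) : Prop where
  a12 : ∀ i j l m, K j i l m = - K i j l m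
  pair : ∀ i j l m, K l m i j = K i j l m
  pp : K 0 1 0 1 = k
  pw : ∀ i j, K 0 1 (ww i) (ww j) = b i j
  p0d : ∀ i, K 0 (ww i) 0 (ww i) = 1
  p0o : ∀ i j, i ≠ j → K 0 (ww i) 0 (ww j) = 0
  p1d : ∀ i, K 1 (ww i) 1 (ww i) = 1
  p1o : ∀ i j, i ≠ j → K 1 (ww i) 1 (ww j) = 0
  p01 : ∀ i j, K 0 (ww i) 1 (ww j) = b i j / 2
  z0 : ∀ i, K 0 1 0 (ww i) = 0
  z1 : ∀ i, K 0 1 1 (ww i) = 0
  y0 : ∀ i j l, K 0 (ww i) (ww j) (ww l) = 0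
  y1 : ∀ i j l, K 1 (ww i) (ww j) (ww l) = 0
  ss : ∀ i j l m, K (ww i) (ww j) (ww l) (ww m) = s i j l m
  bn : ∀ i j, b j i = - b i j
  sc : Cur4 s

theorem A6_sum {ι : Type} [Fintype ι] (c : ι → ℝ)
    (F : ι → Fin 6 → Fin 6 → Fin 6 → Fin 6 → Fin 6 → Fin 6 → ℝ) :
    ∑ σ, c σ * A6 (F σ) = A6 fun a b c' d e f => ∑ σ, c σ * F σ a b c' d e f := by
  simp only [A6, mul_add, mul_sub, Finset.sum_add_distrib, Finset.sum_sub_distrib]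

theorem A6_mul (c : ℝ) (F : Fin 6 → Fin 6 → Fin 6 → Fin 6 → Fin 6 → Fin 6 → ℝ) :
    (A6 fun a b c' d e f => c * F a b c' d e f) = c * A6 F := by
  simp only [A6, mul_add, mul_sub]

/-- the double sum over the permutations -/
def G6 (K : T6) : ℝ :=
  ∑ σ : Equiv.Perm (Fin 6), ∑ τ : Equiv.Perm (Fin 6), sn σ * sn τ *
    (K (σ 0) (σ 1) (τ 0) (τ 1) * (K (σ 2) (σ 3) (τ 2) (τ 3) * K (σ 4) (σ 5) (τ 4) (τ 5)))

theorem G6_eq {K : T6} (h12 : ∀ i j k l, K j i k l = - K i j k l)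
    (h34 : ∀ i j k l, K i j l k = - K i j k l) :
    G6 K = 64 * A6 fun a b c d e f =>
      N6 (fun x y => K x y a b) (fun x y => K x y c d) (fun x y => K x y e f) := by
  have h1 : G6 K = ∑ σ : Equiv.Perm (Fin 6), sn σ *
      P6 (K (σ 0) (σ 1)) (K (σ 2) (σ 3)) (K (σ 4) (σ 5)) := by
    unfold G6 P6
    refine Finset.sum_congr rfl fun σ _ => ?_
    rw [Finset.mul_sum]
    refine Finset.sum_congr rfl fun τ _ => ?_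
    ring
  have h2 : ∀ σ : Equiv.Perm (Fin 6), sn σ *
      P6 (K (σ 0) (σ 1)) (K (σ 2) (σ 3)) (K (σ 4) (σ 5)) = 8 * (sn σ * A6 fun a b c d e f =>
        K (σ 0) (σ 1) a b * (K (σ 2) (σ 3) c d * K (σ 4) (σ 5) e f)) := by
    intro σ
    rw [P6_eq _ _ _ (fun i j => h34 _ _ _ _) (fun i j => h34 _ _ _ _) (fun i j => h34 _ _ _ _), N6]
    ring
  rw [h1, Finset.sum_congr rfl fun σ _ => h2 σ, ← Finset.mul_sum, A6_sum]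
  have h3 : (fun a b c d e f => ∑ σ : Equiv.Perm (Fin 6), sn σ *
      (K (σ 0) (σ 1) a b * (K (σ 2) (σ 3) c d * K (σ 4) (σ 5) e f))) =
      fun a b c d e f => 8 * N6 (fun x y => K x y a b) (fun x y => K x y c d)
        (fun x y => K x y e f) := by
    funext a b c d e f
    rw [← P6_eq _ _ _ (fun i j => h12 _ _ _ _) (fun i j => h12 _ _ _ _) (fun i j => h12 _ _ _ _)]
    rfl
  rw [h3, A6_mul]
  ring

theorem N6_12 (f g h : Fin 6 → Fin 6 → ℝ) : N6 g f h = N6 f g h := by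
  simp only [N6, A6]
  ring

theorem N6_23 (f g h : Fin 6 → Fin 6 → ℝ) : N6 f h g = N6 f g h := by
  simp only [N6, A6]
  ring

/-- the sum over the unordered matchings -/
theorem A6_symm (F : Fin 6 → Fin 6 → Fin 6 → Fin 6 → Fin 6 → Fin 6 → ℝ)
    (h1 : ∀ a b c d e f, F c d a b e f = F a b c d e f)
    (h2 : ∀ a b c d e f, F a b e f c d = F a b c d e f) :
    A6 F = 6 * (F 0 1 2 3 4 5 - F 0 1 2 4 3 5 + F 0 1 2 5 3 4 - F 0 2 1 3 4 5 + F 0 2 1 4 3 5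
      - F 0 2 1 5 3 4 + F 0 3 1 2 4 5 - F 0 3 1 4 2 5 + F 0 3 1 5 2 4 - F 0 4 1 2 3 5
      + F 0 4 1 3 2 5 - F 0 4 1 5 2 3 + F 0 5 1 2 3 4 - F 0 5 1 3 2 4 + F 0 5 1 4 2 3) := by
  have e013425 : F 0 1 3 4 2 5 = F 0 1 2 5 3 4 := (h2 0 1 2 5 3 4)
  have e013524 : F 0 1 3 5 2 4 = F 0 1 2 4 3 5 := (h2 0 1 2 4 3 5)
  have e014523 : F 0 1 4 5 2 3 = F 0 1 2 3 4 5 := (h2 0 1 2 3 4 5)
  have e023415 : F 0 2 3 4 1 5 = F 0 2 1 5 3 4 := (h2 0 2 1 5 3 4)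
  have e023514 : F 0 2 3 5 1 4 = F 0 2 1 4 3 5 := (h2 0 2 1 4 3 5)
  have e024513 : F 0 2 4 5 1 3 = F 0 2 1 3 4 5 := (h2 0 2 1 3 4 5)
  have e032415 : F 0 3 2 4 1 5 = F 0 3 1 5 2 4 := (h2 0 3 1 5 2 4)
  have e032514 : F 0 3 2 5 1 4 = F 0 3 1 4 2 5 := (h2 0 3 1 4 2 5)
  have e034512 : F 0 3 4 5 1 2 = F 0 3 1 2 4 5 := (h2 0 3 1 2 4 5)
  have e042315 : F 0 4 2 3 1 5 = F 0 4 1 5 2 3 := (h2 0 4 1 5 2 3)
  have e042513 : F 0 4 2 5 1 3 = F 0 4 1 3 2 5 := (h2 0 4 1 3 2 5)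
  have e043512 : F 0 4 3 5 1 2 = F 0 4 1 2 3 5 := (h2 0 4 1 2 3 5)
  have e052314 : F 0 5 2 3 1 4 = F 0 5 1 4 2 3 := (h2 0 5 1 4 2 3)
  have e052413 : F 0 5 2 4 1 3 = F 0 5 1 3 2 4 := (h2 0 5 1 3 2 4)
  have e053412 : F 0 5 3 4 1 2 = F 0 5 1 2 3 4 := (h2 0 5 1 2 3 4)
  have e120345 : F 1 2 0 3 4 5 = F 0 3 1 2 4 5 := (h1 0 3 1 2 4 5)
  have e120435 : F 1 2 0 4 3 5 = F 0 4 1 2 3 5 := (h1 0 4 1 2 3 5)
  have e120534 : F 1 2 0 5 3 4 = F 0 5 1 2 3 4 := (h1 0 5 1 2 3 4)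
  have e123405 : F 1 2 3 4 0 5 = F 0 5 1 2 3 4 := ((h2 1 2 0 5 3 4).trans (h1 0 5 1 2 3 4))
  have e123504 : F 1 2 3 5 0 4 = F 0 4 1 2 3 5 := ((h2 1 2 0 4 3 5).trans (h1 0 4 1 2 3 5))
  have e124503 : F 1 2 4 5 0 3 = F 0 3 1 2 4 5 := ((h2 1 2 0 3 4 5).trans (h1 0 3 1 2 4 5))
  have e130245 : F 1 3 0 2 4 5 = F 0 2 1 3 4 5 := (h1 0 2 1 3 4 5)
  have e130425 : F 1 3 0 4 2 5 = F 0 4 1 3 2 5 := (h1 0 4 1 3 2 5)
  have e130524 : F 1 3 0 5 2 4 = F 0 5 1 3 2 4 := (h1 0 5 1 3 2 4)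
  have e132405 : F 1 3 2 4 0 5 = F 0 5 1 3 2 4 := ((h2 1 3 0 5 2 4).trans (h1 0 5 1 3 2 4))
  have e132504 : F 1 3 2 5 0 4 = F 0 4 1 3 2 5 := ((h2 1 3 0 4 2 5).trans (h1 0 4 1 3 2 5))
  have e134502 : F 1 3 4 5 0 2 = F 0 2 1 3 4 5 := ((h2 1 3 0 2 4 5).trans (h1 0 2 1 3 4 5))
  have e140235 : F 1 4 0 2 3 5 = F 0 2 1 4 3 5 := (h1 0 2 1 4 3 5)
  have e140325 : F 1 4 0 3 2 5 = F 0 3 1 4 2 5 := (h1 0 3 1 4 2 5)
  have e140523 : F 1 4 0 5 2 3 = F 0 5 1 4 2 3 := (h1 0 5 1 4 2 3)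
  have e142305 : F 1 4 2 3 0 5 = F 0 5 1 4 2 3 := ((h2 1 4 0 5 2 3).trans (h1 0 5 1 4 2 3))
  have e142503 : F 1 4 2 5 0 3 = F 0 3 1 4 2 5 := ((h2 1 4 0 3 2 5).trans (h1 0 3 1 4 2 5))
  have e143502 : F 1 4 3 5 0 2 = F 0 2 1 4 3 5 := ((h2 1 4 0 2 3 5).trans (h1 0 2 1 4 3 5))
  have e150234 : F 1 5 0 2 3 4 = F 0 2 1 5 3 4 := (h1 0 2 1 5 3 4)
  have e150324 : F 1 5 0 3 2 4 = F 0 3 1 5 2 4 := (h1 0 3 1 5 2 4)
  have e150423 : F 1 5 0 4 2 3 = F 0 4 1 5 2 3 := (h1 0 4 1 5 2 3)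
  have e152304 : F 1 5 2 3 0 4 = F 0 4 1 5 2 3 := ((h2 1 5 0 4 2 3).trans (h1 0 4 1 5 2 3))
  have e152403 : F 1 5 2 4 0 3 = F 0 3 1 5 2 4 := ((h2 1 5 0 3 2 4).trans (h1 0 3 1 5 2 4))
  have e153402 : F 1 5 3 4 0 2 = F 0 2 1 5 3 4 := ((h2 1 5 0 2 3 4).trans (h1 0 2 1 5 3 4))
  have e230145 : F 2 3 0 1 4 5 = F 0 1 2 3 4 5 := (h1 0 1 2 3 4 5)
  have e230415 : F 2 3 0 4 1 5 = F 0 4 1 5 2 3 := ((h1 0 4 2 3 1 5).trans (h2 0 4 1 5 2 3))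
  have e230514 : F 2 3 0 5 1 4 = F 0 5 1 4 2 3 := ((h1 0 5 2 3 1 4).trans (h2 0 5 1 4 2 3))
  have e231405 : F 2 3 1 4 0 5 = F 0 5 1 4 2 3 := (((h1 1 4 2 3 0 5).trans (h2 1 4 0 5 2 3)).trans (h1 0 5 1 4 2 3))
  have e231504 : F 2 3 1 5 0 4 = F 0 4 1 5 2 3 := (((h1 1 5 2 3 0 4).trans (h2 1 5 0 4 2 3)).trans (h1 0 4 1 5 2 3))
  have e234501 : F 2 3 4 5 0 1 = F 0 1 2 3 4 5 := ((h2 2 3 0 1 4 5).trans (h1 0 1 2 3 4 5))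
  have e240135 : F 2 4 0 1 3 5 = F 0 1 2 4 3 5 := (h1 0 1 2 4 3 5)
  have e240315 : F 2 4 0 3 1 5 = F 0 3 1 5 2 4 := ((h1 0 3 2 4 1 5).trans (h2 0 3 1 5 2 4))
  have e240513 : F 2 4 0 5 1 3 = F 0 5 1 3 2 4 := ((h1 0 5 2 4 1 3).trans (h2 0 5 1 3 2 4))
  have e241305 : F 2 4 1 3 0 5 = F 0 5 1 3 2 4 := (((h1 1 3 2 4 0 5).trans (h2 1 3 0 5 2 4)).trans (h1 0 5 1 3 2 4))
  have e241503 : F 2 4 1 5 0 3 = F 0 3 1 5 2 4 := (((h1 1 5 2 4 0 3).trans (h2 1 5 0 3 2 4)).trans (h1 0 3 1 5 2 4))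
  have e243501 : F 2 4 3 5 0 1 = F 0 1 2 4 3 5 := ((h2 2 4 0 1 3 5).trans (h1 0 1 2 4 3 5))
  have e250134 : F 2 5 0 1 3 4 = F 0 1 2 5 3 4 := (h1 0 1 2 5 3 4)
  have e250314 : F 2 5 0 3 1 4 = F 0 3 1 4 2 5 := ((h1 0 3 2 5 1 4).trans (h2 0 3 1 4 2 5))
  have e250413 : F 2 5 0 4 1 3 = F 0 4 1 3 2 5 := ((h1 0 4 2 5 1 3).trans (h2 0 4 1 3 2 5))
  have e251304 : F 2 5 1 3 0 4 = F 0 4 1 3 2 5 := (((h1 1 3 2 5 0 4).trans (h2 1 3 0 4 2 5)).trans (h1 0 4 1 3 2 5))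
  have e251403 : F 2 5 1 4 0 3 = F 0 3 1 4 2 5 := (((h1 1 4 2 5 0 3).trans (h2 1 4 0 3 2 5)).trans (h1 0 3 1 4 2 5))
  have e253401 : F 2 5 3 4 0 1 = F 0 1 2 5 3 4 := ((h2 2 5 0 1 3 4).trans (h1 0 1 2 5 3 4))
  have e340125 : F 3 4 0 1 2 5 = F 0 1 2 5 3 4 := ((h1 0 1 3 4 2 5).trans (h2 0 1 2 5 3 4))
  have e340215 : F 3 4 0 2 1 5 = F 0 2 1 5 3 4 := ((h1 0 2 3 4 1 5).trans (h2 0 2 1 5 3 4))
  have e340512 : F 3 4 0 5 1 2 = F 0 5 1 2 3 4 := ((h1 0 5 3 4 1 2).trans (h2 0 5 1 2 3 4))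
  have e341205 : F 3 4 1 2 0 5 = F 0 5 1 2 3 4 := (((h1 1 2 3 4 0 5).trans (h2 1 2 0 5 3 4)).trans (h1 0 5 1 2 3 4))
  have e341502 : F 3 4 1 5 0 2 = F 0 2 1 5 3 4 := (((h1 1 5 3 4 0 2).trans (h2 1 5 0 2 3 4)).trans (h1 0 2 1 5 3 4))
  have e342501 : F 3 4 2 5 0 1 = F 0 1 2 5 3 4 := (((h1 2 5 3 4 0 1).trans (h2 2 5 0 1 3 4)).trans (h1 0 1 2 5 3 4))
  have e350124 : F 3 5 0 1 2 4 = F 0 1 2 4 3 5 := ((h1 0 1 3 5 2 4).trans (h2 0 1 2 4 3 5))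
  have e350214 : F 3 5 0 2 1 4 = F 0 2 1 4 3 5 := ((h1 0 2 3 5 1 4).trans (h2 0 2 1 4 3 5))
  have e350412 : F 3 5 0 4 1 2 = F 0 4 1 2 3 5 := ((h1 0 4 3 5 1 2).trans (h2 0 4 1 2 3 5))
  have e351204 : F 3 5 1 2 0 4 = F 0 4 1 2 3 5 := (((h1 1 2 3 5 0 4).trans (h2 1 2 0 4 3 5)).trans (h1 0 4 1 2 3 5))
  have e351402 : F 3 5 1 4 0 2 = F 0 2 1 4 3 5 := (((h1 1 4 3 5 0 2).trans (h2 1 4 0 2 3 5)).trans (h1 0 2 1 4 3 5))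
  have e352401 : F 3 5 2 4 0 1 = F 0 1 2 4 3 5 := (((h1 2 4 3 5 0 1).trans (h2 2 4 0 1 3 5)).trans (h1 0 1 2 4 3 5))
  have e450123 : F 4 5 0 1 2 3 = F 0 1 2 3 4 5 := ((h1 0 1 4 5 2 3).trans (h2 0 1 2 3 4 5))
  have e450213 : F 4 5 0 2 1 3 = F 0 2 1 3 4 5 := ((h1 0 2 4 5 1 3).trans (h2 0 2 1 3 4 5))
  have e450312 : F 4 5 0 3 1 2 = F 0 3 1 2 4 5 := ((h1 0 3 4 5 1 2).trans (h2 0 3 1 2 4 5))
  have e451203 : F 4 5 1 2 0 3 = F 0 3 1 2 4 5 := (((h1 1 2 4 5 0 3).trans (h2 1 2 0 3 4 5)).trans (h1 0 3 1 2 4 5))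
  have e451302 : F 4 5 1 3 0 2 = F 0 2 1 3 4 5 := (((h1 1 3 4 5 0 2).trans (h2 1 3 0 2 4 5)).trans (h1 0 2 1 3 4 5))
  have e452301 : F 4 5 2 3 0 1 = F 0 1 2 3 4 5 := (((h1 2 3 4 5 0 1).trans (h2 2 3 0 1 4 5)).trans (h1 0 1 2 3 4 5))
  simp only [A6, e013425, e013524, e014523, e023415, e023514, e024513, e032415, e032514,
    e034512, e042315, e042513, e043512, e052314, e052413, e053412, e120345,
    e120435, e120534, e123405, e123504, e124503, e130245, e130425, e130524,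
    e132405, e132504, e134502, e140235, e140325, e140523, e142305, e142503,
    e143502, e150234, e150324, e150423, e152304, e152403, e153402, e230145,
    e230415, e230514, e231405, e231504, e234501, e240135, e240315, e240513,
    e241305, e241503, e243501, e250134, e250314, e250413, e251304, e251403,
    e253401, e340125, e340215, e340512, e341205, e341502, e342501, e350124,
    e350214, e350412, e351204, e351402, e352401, e450123, e450213, e450312,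
    e451203, e451302, e452301]
  ring

section cols

variable {K : T6} {k : ℝ} {b : Fin 4 → Fin 4 → ℝ} {s : Q4}

theorem col0 (h : Rot K k b s) : N6 (fun x y => K x y 0 1) (fun x y => K x y 2 3) (fun x y => K x y 4 5) =
    b 0 1 * b 0 1 * s 2 3 2 3 - b 0 1 * b 0 2 * s 1 3 2 3 + b 0 1 * b 0 3 * s 1 2 2 3 + b 0 1 * b 1 2 * s 0 3 2 3 - b 0 1 * b 1 3 * s 0 2 2 3 + 2 * b 0 1 * b 2 3 * s 0 1 2 3 - b 0 2 * b 2 3 * s 0 1 1 3 + b 0 3 * b 2 3 * s 0 1 1 2 + b 1 2 * b 2 3 * s 0 1 0 3 - b 1 3 * b 2 3 * s 0 1 0 2 + b 2 3 * b 2 3 * s 0 1 0 1 + k * s 0 1 0 1 * s 2 3 2 3 - k * s 0 1 0 2 * s 1 3 2 3 + k * s 0 1 0 3 * s 1 2 2 3 + k * s 0 1 1 2 * s 0 3 2 3 - k * s 0 1 1 3 * s 0 2 2 3 + k * s 0 1 2 3 * s 0 1 2 3 := by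
  have b0 : ∀ i, b i i = 0 := fun i => by linarith [h.bn i i]
  have r0101 : K 0 1 0 1 = k := h.pp
  have r0201 : K 0 2 0 1 = 0 := (h.pair _ _ _ _).trans (h.z0 0)
  have r0301 : K 0 3 0 1 = 0 := (h.pair _ _ _ _).trans (h.z0 1)
  have r0401 : K 0 4 0 1 = 0 := (h.pair _ _ _ _).trans (h.z0 2)
  have r0501 : K 0 5 0 1 = 0 := (h.pair _ _ _ _).trans (h.z0 3)
  have r1201 : K 1 2 0 1 = 0 := (h.pair _ _ _ _).trans (h.z1 0)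
  have r1301 : K 1 3 0 1 = 0 := (h.pair _ _ _ _).trans (h.z1 1)
  have r1401 : K 1 4 0 1 = 0 := (h.pair _ _ _ _).trans (h.z1 2)
  have r1501 : K 1 5 0 1 = 0 := (h.pair _ _ _ _).trans (h.z1 3)
  have r2301 : K 2 3 0 1 = b 0 1 := (h.pair _ _ _ _).trans (h.pw 0 1)
  have r2401 : K 2 4 0 1 = b 0 2 := (h.pair _ _ _ _).trans (h.pw 0 2)
  have r2501 : K 2 5 0 1 = b 0 3 := (h.pair _ _ _ _).trans (h.pw 0 3)
  have r3401 : K 3 4 0 1 = b 1 2 := (h.pair _ _ _ _).trans (h.pw 1 2)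
  have r3501 : K 3 5 0 1 = b 1 3 := (h.pair _ _ _ _).trans (h.pw 1 3)
  have r4501 : K 4 5 0 1 = b 2 3 := (h.pair _ _ _ _).trans (h.pw 2 3)
  have r0123 : K 0 1 2 3 = b 0 1 := h.pw 0 1
  have r0223 : K 0 2 2 3 = 0 := h.y0 0 0 1
  have r0323 : K 0 3 2 3 = 0 := h.y0 1 0 1
  have r0423 : K 0 4 2 3 = 0 := h.y0 2 0 1
  have r0523 : K 0 5 2 3 = 0 := h.y0 3 0 1
  have r1223 : K 1 2 2 3 = 0 := h.y1 0 0 1
  have r1323 : K 1 3 2 3 = 0 := h.y1 1 0 1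
  have r1423 : K 1 4 2 3 = 0 := h.y1 2 0 1
  have r1523 : K 1 5 2 3 = 0 := h.y1 3 0 1
  have r2323 : K 2 3 2 3 = s 0 1 0 1 := h.ss 0 1 0 1
  have r2423 : K 2 4 2 3 = s 0 1 0 2 := (h.ss 0 2 0 1).trans (h.sc.pair _ _ _ _)
  have r2523 : K 2 5 2 3 = s 0 1 0 3 := (h.ss 0 3 0 1).trans (h.sc.pair _ _ _ _)
  have r3423 : K 3 4 2 3 = s 0 1 1 2 := (h.ss 1 2 0 1).trans (h.sc.pair _ _ _ _)
  have r3523 : K 3 5 2 3 = s 0 1 1 3 := (h.ss 1 3 0 1).trans (h.sc.pair _ _ _ _)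
  have r4523 : K 4 5 2 3 = s 0 1 2 3 := (h.ss 2 3 0 1).trans (h.sc.pair _ _ _ _)
  have r0145 : K 0 1 4 5 = b 2 3 := h.pw 2 3
  have r0245 : K 0 2 4 5 = 0 := h.y0 0 2 3
  have r0345 : K 0 3 4 5 = 0 := h.y0 1 2 3
  have r0445 : K 0 4 4 5 = 0 := h.y0 2 2 3
  have r0545 : K 0 5 4 5 = 0 := h.y0 3 2 3
  have r1245 : K 1 2 4 5 = 0 := h.y1 0 2 3
  have r1345 : K 1 3 4 5 = 0 := h.y1 1 2 3
  have r1445 : K 1 4 4 5 = 0 := h.y1 2 2 3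
  have r1545 : K 1 5 4 5 = 0 := h.y1 3 2 3
  have r2345 : K 2 3 4 5 = s 0 1 2 3 := h.ss 0 1 2 3
  have r2445 : K 2 4 4 5 = s 0 2 2 3 := h.ss 0 2 2 3
  have r2545 : K 2 5 4 5 = s 0 3 2 3 := h.ss 0 3 2 3
  have r3445 : K 3 4 4 5 = s 1 2 2 3 := h.ss 1 2 2 3
  have r3545 : K 3 5 4 5 = s 1 3 2 3 := h.ss 1 3 2 3
  have r4545 : K 4 5 4 5 = s 2 3 2 3 := h.ss 2 3 2 3
  simp only [N6, A6, r0101, r0201, r0301, r0401, r0501, r1201, r1301, r1401, r1501,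
    r2301, r2401, r2501, r3401, r3501, r4501, r0123, r0223, r0323,
    r0423, r0523, r1223, r1323, r1423, r1523, r2323, r2423, r2523,
    r3423, r3523, r4523, r0145, r0245, r0345, r0445, r0545, r1245,
    r1345, r1445, r1545, r2345, r2445, r2545, r3445, r3545, r4545,
    mul_zero, zero_mul, add_zero, zero_add, sub_zero, zero_sub]
  ring

theorem col1 (h : Rot K k b s) : N6 (fun x y => K x y 0 1) (fun x y => K x y 2 4) (fun x y => K x y 3 5) =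
    b 0 1 * b 0 2 * s 1 3 2 3 + b 0 1 * b 1 3 * s 0 2 2 3 - b 0 2 * b 0 2 * s 1 3 1 3 + b 0 2 * b 0 3 * s 1 2 1 3 + b 0 2 * b 1 2 * s 0 3 1 3 - 2 * b 0 2 * b 1 3 * s 0 2 1 3 + b 0 2 * b 2 3 * s 0 1 1 3 + b 0 3 * b 1 3 * s 0 2 1 2 + b 1 2 * b 1 3 * s 0 2 0 3 - b 1 3 * b 1 3 * s 0 2 0 2 + b 1 3 * b 2 3 * s 0 1 0 2 + k * s 0 1 0 2 * s 1 3 2 3 + k * s 0 1 1 3 * s 0 2 2 3 - k * s 0 2 0 2 * s 1 3 1 3 + k * s 0 2 0 3 * s 1 2 1 3 + k * s 0 2 1 2 * s 0 3 1 3 - k * s 0 2 1 3 * s 0 2 1 3 := by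
  have b0 : ∀ i, b i i = 0 := fun i => by linarith [h.bn i i]
  have r0101 : K 0 1 0 1 = k := h.pp
  have r0201 : K 0 2 0 1 = 0 := (h.pair _ _ _ _).trans (h.z0 0)
  have r0301 : K 0 3 0 1 = 0 := (h.pair _ _ _ _).trans (h.z0 1)
  have r0401 : K 0 4 0 1 = 0 := (h.pair _ _ _ _).trans (h.z0 2)
  have r0501 : K 0 5 0 1 = 0 := (h.pair _ _ _ _).trans (h.z0 3)
  have r1201 : K 1 2 0 1 = 0 := (h.pair _ _ _ _).trans (h.z1 0)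
  have r1301 : K 1 3 0 1 = 0 := (h.pair _ _ _ _).trans (h.z1 1)
  have r1401 : K 1 4 0 1 = 0 := (h.pair _ _ _ _).trans (h.z1 2)
  have r1501 : K 1 5 0 1 = 0 := (h.pair _ _ _ _).trans (h.z1 3)
  have r2301 : K 2 3 0 1 = b 0 1 := (h.pair _ _ _ _).trans (h.pw 0 1)
  have r2401 : K 2 4 0 1 = b 0 2 := (h.pair _ _ _ _).trans (h.pw 0 2)
  have r2501 : K 2 5 0 1 = b 0 3 := (h.pair _ _ _ _).trans (h.pw 0 3)
  have r3401 : K 3 4 0 1 = b 1 2 := (h.pair _ _ _ _).trans (h.pw 1 2)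
  have r3501 : K 3 5 0 1 = b 1 3 := (h.pair _ _ _ _).trans (h.pw 1 3)
  have r4501 : K 4 5 0 1 = b 2 3 := (h.pair _ _ _ _).trans (h.pw 2 3)
  have r0124 : K 0 1 2 4 = b 0 2 := h.pw 0 2
  have r0224 : K 0 2 2 4 = 0 := h.y0 0 0 2
  have r0324 : K 0 3 2 4 = 0 := h.y0 1 0 2
  have r0424 : K 0 4 2 4 = 0 := h.y0 2 0 2
  have r0524 : K 0 5 2 4 = 0 := h.y0 3 0 2
  have r1224 : K 1 2 2 4 = 0 := h.y1 0 0 2
  have r1324 : K 1 3 2 4 = 0 := h.y1 1 0 2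
  have r1424 : K 1 4 2 4 = 0 := h.y1 2 0 2
  have r1524 : K 1 5 2 4 = 0 := h.y1 3 0 2
  have r2324 : K 2 3 2 4 = s 0 1 0 2 := h.ss 0 1 0 2
  have r2424 : K 2 4 2 4 = s 0 2 0 2 := h.ss 0 2 0 2
  have r2524 : K 2 5 2 4 = s 0 2 0 3 := (h.ss 0 3 0 2).trans (h.sc.pair _ _ _ _)
  have r3424 : K 3 4 2 4 = s 0 2 1 2 := (h.ss 1 2 0 2).trans (h.sc.pair _ _ _ _)
  have r3524 : K 3 5 2 4 = s 0 2 1 3 := (h.ss 1 3 0 2).trans (h.sc.pair _ _ _ _)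
  have r4524 : K 4 5 2 4 = s 0 2 2 3 := (h.ss 2 3 0 2).trans (h.sc.pair _ _ _ _)
  have r0135 : K 0 1 3 5 = b 1 3 := h.pw 1 3
  have r0235 : K 0 2 3 5 = 0 := h.y0 0 1 3
  have r0335 : K 0 3 3 5 = 0 := h.y0 1 1 3
  have r0435 : K 0 4 3 5 = 0 := h.y0 2 1 3
  have r0535 : K 0 5 3 5 = 0 := h.y0 3 1 3
  have r1235 : K 1 2 3 5 = 0 := h.y1 0 1 3
  have r1335 : K 1 3 3 5 = 0 := h.y1 1 1 3
  have r1435 : K 1 4 3 5 = 0 := h.y1 2 1 3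
  have r1535 : K 1 5 3 5 = 0 := h.y1 3 1 3
  have r2335 : K 2 3 3 5 = s 0 1 1 3 := h.ss 0 1 1 3
  have r2435 : K 2 4 3 5 = s 0 2 1 3 := h.ss 0 2 1 3
  have r2535 : K 2 5 3 5 = s 0 3 1 3 := h.ss 0 3 1 3
  have r3435 : K 3 4 3 5 = s 1 2 1 3 := h.ss 1 2 1 3
  have r3535 : K 3 5 3 5 = s 1 3 1 3 := h.ss 1 3 1 3
  have r4535 : K 4 5 3 5 = s 1 3 2 3 := (h.ss 2 3 1 3).trans (h.sc.pair _ _ _ _)
  simp only [N6, A6, r0101, r0201, r0301, r0401, r0501, r1201, r1301, r1401, r1501,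
    r2301, r2401, r2501, r3401, r3501, r4501, r0124, r0224, r0324,
    r0424, r0524, r1224, r1324, r1424, r1524, r2324, r2424, r2524,
    r3424, r3524, r4524, r0135, r0235, r0335, r0435, r0535, r1235,
    r1335, r1435, r1535, r2335, r2435, r2535, r3435, r3535, r4535,
    mul_zero, zero_mul, add_zero, zero_add, sub_zero, zero_sub]
  ring

theorem col2 (h : Rot K k b s) : N6 (fun x y => K x y 0 1) (fun x y => K x y 2 5) (fun x y => K x y 3 4) =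
    b 0 1 * b 0 3 * s 1 2 2 3 + b 0 1 * b 1 2 * s 0 3 2 3 - b 0 2 * b 0 3 * s 1 2 1 3 - b 0 2 * b 1 2 * s 0 3 1 3 + b 0 3 * b 0 3 * s 1 2 1 2 + 2 * b 0 3 * b 1 2 * s 0 3 1 2 - b 0 3 * b 1 3 * s 0 2 1 2 + b 0 3 * b 2 3 * s 0 1 1 2 + b 1 2 * b 1 2 * s 0 3 0 3 - b 1 2 * b 1 3 * s 0 2 0 3 + b 1 2 * b 2 3 * s 0 1 0 3 + k * s 0 1 0 3 * s 1 2 2 3 + k * s 0 1 1 2 * s 0 3 2 3 - k * s 0 2 0 3 * s 1 2 1 3 - k * s 0 2 1 2 * s 0 3 1 3 + k * s 0 3 0 3 * s 1 2 1 2 + k * s 0 3 1 2 * s 0 3 1 2 := by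
  have b0 : ∀ i, b i i = 0 := fun i => by linarith [h.bn i i]
  have r0101 : K 0 1 0 1 = k := h.pp
  have r0201 : K 0 2 0 1 = 0 := (h.pair _ _ _ _).trans (h.z0 0)
  have r0301 : K 0 3 0 1 = 0 := (h.pair _ _ _ _).trans (h.z0 1)
  have r0401 : K 0 4 0 1 = 0 := (h.pair _ _ _ _).trans (h.z0 2)
  have r0501 : K 0 5 0 1 = 0 := (h.pair _ _ _ _).trans (h.z0 3)
  have r1201 : K 1 2 0 1 = 0 := (h.pair _ _ _ _).trans (h.z1 0)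
  have r1301 : K 1 3 0 1 = 0 := (h.pair _ _ _ _).trans (h.z1 1)
  have r1401 : K 1 4 0 1 = 0 := (h.pair _ _ _ _).trans (h.z1 2)
  have r1501 : K 1 5 0 1 = 0 := (h.pair _ _ _ _).trans (h.z1 3)
  have r2301 : K 2 3 0 1 = b 0 1 := (h.pair _ _ _ _).trans (h.pw 0 1)
  have r2401 : K 2 4 0 1 = b 0 2 := (h.pair _ _ _ _).trans (h.pw 0 2)
  have r2501 : K 2 5 0 1 = b 0 3 := (h.pair _ _ _ _).trans (h.pw 0 3)
  have r3401 : K 3 4 0 1 = b 1 2 := (h.pair _ _ _ _).trans (h.pw 1 2)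
  have r3501 : K 3 5 0 1 = b 1 3 := (h.pair _ _ _ _).trans (h.pw 1 3)
  have r4501 : K 4 5 0 1 = b 2 3 := (h.pair _ _ _ _).trans (h.pw 2 3)
  have r0125 : K 0 1 2 5 = b 0 3 := h.pw 0 3
  have r0225 : K 0 2 2 5 = 0 := h.y0 0 0 3
  have r0325 : K 0 3 2 5 = 0 := h.y0 1 0 3
  have r0425 : K 0 4 2 5 = 0 := h.y0 2 0 3
  have r0525 : K 0 5 2 5 = 0 := h.y0 3 0 3
  have r1225 : K 1 2 2 5 = 0 := h.y1 0 0 3
  have r1325 : K 1 3 2 5 = 0 := h.y1 1 0 3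
  have r1425 : K 1 4 2 5 = 0 := h.y1 2 0 3
  have r1525 : K 1 5 2 5 = 0 := h.y1 3 0 3
  have r2325 : K 2 3 2 5 = s 0 1 0 3 := h.ss 0 1 0 3
  have r2425 : K 2 4 2 5 = s 0 2 0 3 := h.ss 0 2 0 3
  have r2525 : K 2 5 2 5 = s 0 3 0 3 := h.ss 0 3 0 3
  have r3425 : K 3 4 2 5 = s 0 3 1 2 := (h.ss 1 2 0 3).trans (h.sc.pair _ _ _ _)
  have r3525 : K 3 5 2 5 = s 0 3 1 3 := (h.ss 1 3 0 3).trans (h.sc.pair _ _ _ _)
  have r4525 : K 4 5 2 5 = s 0 3 2 3 := (h.ss 2 3 0 3).trans (h.sc.pair _ _ _ _)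
  have r0134 : K 0 1 3 4 = b 1 2 := h.pw 1 2
  have r0234 : K 0 2 3 4 = 0 := h.y0 0 1 2
  have r0334 : K 0 3 3 4 = 0 := h.y0 1 1 2
  have r0434 : K 0 4 3 4 = 0 := h.y0 2 1 2
  have r0534 : K 0 5 3 4 = 0 := h.y0 3 1 2
  have r1234 : K 1 2 3 4 = 0 := h.y1 0 1 2
  have r1334 : K 1 3 3 4 = 0 := h.y1 1 1 2
  have r1434 : K 1 4 3 4 = 0 := h.y1 2 1 2
  have r1534 : K 1 5 3 4 = 0 := h.y1 3 1 2
  have r2334 : K 2 3 3 4 = s 0 1 1 2 := h.ss 0 1 1 2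
  have r2434 : K 2 4 3 4 = s 0 2 1 2 := h.ss 0 2 1 2
  have r2534 : K 2 5 3 4 = s 0 3 1 2 := h.ss 0 3 1 2
  have r3434 : K 3 4 3 4 = s 1 2 1 2 := h.ss 1 2 1 2
  have r3534 : K 3 5 3 4 = s 1 2 1 3 := (h.ss 1 3 1 2).trans (h.sc.pair _ _ _ _)
  have r4534 : K 4 5 3 4 = s 1 2 2 3 := (h.ss 2 3 1 2).trans (h.sc.pair _ _ _ _)
  simp only [N6, A6, r0101, r0201, r0301, r0401, r0501, r1201, r1301, r1401, r1501,
    r2301, r2401, r2501, r3401, r3501, r4501, r0125, r0225, r0325,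
    r0425, r0525, r1225, r1325, r1425, r1525, r2325, r2425, r2525,
    r3425, r3525, r4525, r0134, r0234, r0334, r0434, r0534, r1234,
    r1334, r1434, r1534, r2334, r2434, r2534, r3434, r3534, r4534,
    mul_zero, zero_mul, add_zero, zero_add, sub_zero, zero_sub]
  ring

theorem col3 (h : Rot K k b s) : N6 (fun x y => K x y 0 2) (fun x y => K x y 1 3) (fun x y => K x y 4 5) =
    -(1 / 4 * b 0 1 * b 0 1 * s 2 3 2 3) + 1 / 4 * b 0 1 * b 0 2 * s 1 3 2 3 - 1 / 4 * b 0 1 * b 0 3 * s 1 2 2 3 - 1 / 4 * b 0 1 * b 1 2 * s 0 3 2 3 + 1 / 4 * b 0 1 * b 1 3 * s 0 2 2 3 - 1 / 4 * b 0 2 * b 1 3 * s 0 1 2 3 + 1 / 4 * b 0 3 * b 1 2 * s 0 1 2 3 - s 2 3 2 3 := by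
  have b0 : ∀ i, b i i = 0 := fun i => by linarith [h.bn i i]
  have r0102 : K 0 1 0 2 = 0 := h.z0 0
  have r0202 : K 0 2 0 2 = 1 := h.p0d 0
  have r0302 : K 0 3 0 2 = 0 := h.p0o 1 0 (by decide)
  have r0402 : K 0 4 0 2 = 0 := h.p0o 2 0 (by decide)
  have r0502 : K 0 5 0 2 = 0 := h.p0o 3 0 (by decide)
  have r1202 : K 1 2 0 2 = 0 := ((h.pair _ _ _ _).trans (h.p01 0 0)).trans (by rw [b0 0, zero_div])
  have r1302 : K 1 3 0 2 = b 0 1 / 2 := (h.pair _ _ _ _).trans (h.p01 0 1)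
  have r1402 : K 1 4 0 2 = b 0 2 / 2 := (h.pair _ _ _ _).trans (h.p01 0 2)
  have r1502 : K 1 5 0 2 = b 0 3 / 2 := (h.pair _ _ _ _).trans (h.p01 0 3)
  have r2302 : K 2 3 0 2 = 0 := (h.pair _ _ _ _).trans (h.y0 0 0 1)
  have r2402 : K 2 4 0 2 = 0 := (h.pair _ _ _ _).trans (h.y0 0 0 2)
  have r2502 : K 2 5 0 2 = 0 := (h.pair _ _ _ _).trans (h.y0 0 0 3)
  have r3402 : K 3 4 0 2 = 0 := (h.pair _ _ _ _).trans (h.y0 0 1 2)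
  have r3502 : K 3 5 0 2 = 0 := (h.pair _ _ _ _).trans (h.y0 0 1 3)
  have r4502 : K 4 5 0 2 = 0 := (h.pair _ _ _ _).trans (h.y0 0 2 3)
  have r0113 : K 0 1 1 3 = 0 := h.z1 1
  have r0213 : K 0 2 1 3 = b 0 1 / 2 := h.p01 0 1
  have r0313 : K 0 3 1 3 = 0 := (h.p01 1 1).trans (by rw [b0 1, zero_div])
  have r0413 : K 0 4 1 3 = -(b 1 2 / 2) := (h.p01 2 1).trans (by rw [h.bn 1 2, neg_div])
  have r0513 : K 0 5 1 3 = -(b 1 3 / 2) := (h.p01 3 1).trans (by rw [h.bn 1 3, neg_div])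
  have r1213 : K 1 2 1 3 = 0 := h.p1o 0 1 (by decide)
  have r1313 : K 1 3 1 3 = 1 := h.p1d 1
  have r1413 : K 1 4 1 3 = 0 := h.p1o 2 1 (by decide)
  have r1513 : K 1 5 1 3 = 0 := h.p1o 3 1 (by decide)
  have r2313 : K 2 3 1 3 = 0 := (h.pair _ _ _ _).trans (h.y1 1 0 1)
  have r2413 : K 2 4 1 3 = 0 := (h.pair _ _ _ _).trans (h.y1 1 0 2)
  have r2513 : K 2 5 1 3 = 0 := (h.pair _ _ _ _).trans (h.y1 1 0 3)
  have r3413 : K 3 4 1 3 = 0 := (h.pair _ _ _ _).trans (h.y1 1 1 2)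
  have r3513 : K 3 5 1 3 = 0 := (h.pair _ _ _ _).trans (h.y1 1 1 3)
  have r4513 : K 4 5 1 3 = 0 := (h.pair _ _ _ _).trans (h.y1 1 2 3)
  have r0145 : K 0 1 4 5 = b 2 3 := h.pw 2 3
  have r0245 : K 0 2 4 5 = 0 := h.y0 0 2 3
  have r0345 : K 0 3 4 5 = 0 := h.y0 1 2 3
  have r0445 : K 0 4 4 5 = 0 := h.y0 2 2 3
  have r0545 : K 0 5 4 5 = 0 := h.y0 3 2 3
  have r1245 : K 1 2 4 5 = 0 := h.y1 0 2 3
  have r1345 : K 1 3 4 5 = 0 := h.y1 1 2 3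
  have r1445 : K 1 4 4 5 = 0 := h.y1 2 2 3
  have r1545 : K 1 5 4 5 = 0 := h.y1 3 2 3
  have r2345 : K 2 3 4 5 = s 0 1 2 3 := h.ss 0 1 2 3
  have r2445 : K 2 4 4 5 = s 0 2 2 3 := h.ss 0 2 2 3
  have r2545 : K 2 5 4 5 = s 0 3 2 3 := h.ss 0 3 2 3
  have r3445 : K 3 4 4 5 = s 1 2 2 3 := h.ss 1 2 2 3
  have r3545 : K 3 5 4 5 = s 1 3 2 3 := h.ss 1 3 2 3
  have r4545 : K 4 5 4 5 = s 2 3 2 3 := h.ss 2 3 2 3
  simp only [N6, A6, r0102, r0202, r0302, r0402, r0502, r1202, r1302, r1402, r1502,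
    r2302, r2402, r2502, r3402, r3502, r4502, r0113, r0213, r0313,
    r0413, r0513, r1213, r1313, r1413, r1513, r2313, r2413, r2513,
    r3413, r3513, r4513, r0145, r0245, r0345, r0445, r0545, r1245,
    r1345, r1445, r1545, r2345, r2445, r2545, r3445, r3545, r4545,
    mul_zero, zero_mul, add_zero, zero_add, sub_zero, zero_sub]
  ring

theorem col4 (h : Rot K k b s) : N6 (fun x y => K x y 0 2) (fun x y => K x y 1 4) (fun x y => K x y 3 5) =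
    -(1 / 4 * b 0 1 * b 0 2 * s 1 3 2 3) + 1 / 4 * b 0 1 * b 2 3 * s 0 2 1 3 + 1 / 4 * b 0 2 * b 0 2 * s 1 3 1 3 - 1 / 4 * b 0 2 * b 0 3 * s 1 2 1 3 - 1 / 4 * b 0 2 * b 1 2 * s 0 3 1 3 - 1 / 4 * b 0 2 * b 2 3 * s 0 1 1 3 + 1 / 4 * b 0 3 * b 1 2 * s 0 2 1 3 + s 1 3 1 3 := by
  have b0 : ∀ i, b i i = 0 := fun i => by linarith [h.bn i i]
  have r0102 : K 0 1 0 2 = 0 := h.z0 0
  have r0202 : K 0 2 0 2 = 1 := h.p0d 0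
  have r0302 : K 0 3 0 2 = 0 := h.p0o 1 0 (by decide)
  have r0402 : K 0 4 0 2 = 0 := h.p0o 2 0 (by decide)
  have r0502 : K 0 5 0 2 = 0 := h.p0o 3 0 (by decide)
  have r1202 : K 1 2 0 2 = 0 := ((h.pair _ _ _ _).trans (h.p01 0 0)).trans (by rw [b0 0, zero_div])
  have r1302 : K 1 3 0 2 = b 0 1 / 2 := (h.pair _ _ _ _).trans (h.p01 0 1)
  have r1402 : K 1 4 0 2 = b 0 2 / 2 := (h.pair _ _ _ _).trans (h.p01 0 2)
  have r1502 : K 1 5 0 2 = b 0 3 / 2 := (h.pair _ _ _ _).trans (h.p01 0 3)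
  have r2302 : K 2 3 0 2 = 0 := (h.pair _ _ _ _).trans (h.y0 0 0 1)
  have r2402 : K 2 4 0 2 = 0 := (h.pair _ _ _ _).trans (h.y0 0 0 2)
  have r2502 : K 2 5 0 2 = 0 := (h.pair _ _ _ _).trans (h.y0 0 0 3)
  have r3402 : K 3 4 0 2 = 0 := (h.pair _ _ _ _).trans (h.y0 0 1 2)
  have r3502 : K 3 5 0 2 = 0 := (h.pair _ _ _ _).trans (h.y0 0 1 3)
  have r4502 : K 4 5 0 2 = 0 := (h.pair _ _ _ _).trans (h.y0 0 2 3)
  have r0114 : K 0 1 1 4 = 0 := h.z1 2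
  have r0214 : K 0 2 1 4 = b 0 2 / 2 := h.p01 0 2
  have r0314 : K 0 3 1 4 = b 1 2 / 2 := h.p01 1 2
  have r0414 : K 0 4 1 4 = 0 := (h.p01 2 2).trans (by rw [b0 2, zero_div])
  have r0514 : K 0 5 1 4 = -(b 2 3 / 2) := (h.p01 3 2).trans (by rw [h.bn 2 3, neg_div])
  have r1214 : K 1 2 1 4 = 0 := h.p1o 0 2 (by decide)
  have r1314 : K 1 3 1 4 = 0 := h.p1o 1 2 (by decide)
  have r1414 : K 1 4 1 4 = 1 := h.p1d 2
  have r1514 : K 1 5 1 4 = 0 := h.p1o 3 2 (by decide)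
  have r2314 : K 2 3 1 4 = 0 := (h.pair _ _ _ _).trans (h.y1 2 0 1)
  have r2414 : K 2 4 1 4 = 0 := (h.pair _ _ _ _).trans (h.y1 2 0 2)
  have r2514 : K 2 5 1 4 = 0 := (h.pair _ _ _ _).trans (h.y1 2 0 3)
  have r3414 : K 3 4 1 4 = 0 := (h.pair _ _ _ _).trans (h.y1 2 1 2)
  have r3514 : K 3 5 1 4 = 0 := (h.pair _ _ _ _).trans (h.y1 2 1 3)
  have r4514 : K 4 5 1 4 = 0 := (h.pair _ _ _ _).trans (h.y1 2 2 3)
  have r0135 : K 0 1 3 5 = b 1 3 := h.pw 1 3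
  have r0235 : K 0 2 3 5 = 0 := h.y0 0 1 3
  have r0335 : K 0 3 3 5 = 0 := h.y0 1 1 3
  have r0435 : K 0 4 3 5 = 0 := h.y0 2 1 3
  have r0535 : K 0 5 3 5 = 0 := h.y0 3 1 3
  have r1235 : K 1 2 3 5 = 0 := h.y1 0 1 3
  have r1335 : K 1 3 3 5 = 0 := h.y1 1 1 3
  have r1435 : K 1 4 3 5 = 0 := h.y1 2 1 3
  have r1535 : K 1 5 3 5 = 0 := h.y1 3 1 3
  have r2335 : K 2 3 3 5 = s 0 1 1 3 := h.ss 0 1 1 3
  have r2435 : K 2 4 3 5 = s 0 2 1 3 := h.ss 0 2 1 3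
  have r2535 : K 2 5 3 5 = s 0 3 1 3 := h.ss 0 3 1 3
  have r3435 : K 3 4 3 5 = s 1 2 1 3 := h.ss 1 2 1 3
  have r3535 : K 3 5 3 5 = s 1 3 1 3 := h.ss 1 3 1 3
  have r4535 : K 4 5 3 5 = s 1 3 2 3 := (h.ss 2 3 1 3).trans (h.sc.pair _ _ _ _)
  simp only [N6, A6, r0102, r0202, r0302, r0402, r0502, r1202, r1302, r1402, r1502,
    r2302, r2402, r2502, r3402, r3502, r4502, r0114, r0214, r0314,
    r0414, r0514, r1214, r1314, r1414, r1514, r2314, r2414, r2514,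
    r3414, r3514, r4514, r0135, r0235, r0335, r0435, r0535, r1235,
    r1335, r1435, r1535, r2335, r2435, r2535, r3435, r3535, r4535,
    mul_zero, zero_mul, add_zero, zero_add, sub_zero, zero_sub]
  ring

theorem col5 (h : Rot K k b s) : N6 (fun x y => K x y 0 2) (fun x y => K x y 1 5) (fun x y => K x y 3 4) =
    -(1 / 4 * b 0 1 * b 0 3 * s 1 2 2 3) + 1 / 4 * b 0 1 * b 2 3 * s 0 3 1 2 + 1 / 4 * b 0 2 * b 0 3 * s 1 2 1 3 - 1 / 4 * b 0 2 * b 1 3 * s 0 3 1 2 - 1 / 4 * b 0 3 * b 0 3 * s 1 2 1 2 + 1 / 4 * b 0 3 * b 1 3 * s 0 2 1 2 - 1 / 4 * b 0 3 * b 2 3 * s 0 1 1 2 - s 1 2 1 2 := by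
  have b0 : ∀ i, b i i = 0 := fun i => by linarith [h.bn i i]
  have r0102 : K 0 1 0 2 = 0 := h.z0 0
  have r0202 : K 0 2 0 2 = 1 := h.p0d 0
  have r0302 : K 0 3 0 2 = 0 := h.p0o 1 0 (by decide)
  have r0402 : K 0 4 0 2 = 0 := h.p0o 2 0 (by decide)
  have r0502 : K 0 5 0 2 = 0 := h.p0o 3 0 (by decide)
  have r1202 : K 1 2 0 2 = 0 := ((h.pair _ _ _ _).trans (h.p01 0 0)).trans (by rw [b0 0, zero_div])
  have r1302 : K 1 3 0 2 = b 0 1 / 2 := (h.pair _ _ _ _).trans (h.p01 0 1)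
  have r1402 : K 1 4 0 2 = b 0 2 / 2 := (h.pair _ _ _ _).trans (h.p01 0 2)
  have r1502 : K 1 5 0 2 = b 0 3 / 2 := (h.pair _ _ _ _).trans (h.p01 0 3)
  have r2302 : K 2 3 0 2 = 0 := (h.pair _ _ _ _).trans (h.y0 0 0 1)
  have r2402 : K 2 4 0 2 = 0 := (h.pair _ _ _ _).trans (h.y0 0 0 2)
  have r2502 : K 2 5 0 2 = 0 := (h.pair _ _ _ _).trans (h.y0 0 0 3)
  have r3402 : K 3 4 0 2 = 0 := (h.pair _ _ _ _).trans (h.y0 0 1 2)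
  have r3502 : K 3 5 0 2 = 0 := (h.pair _ _ _ _).trans (h.y0 0 1 3)
  have r4502 : K 4 5 0 2 = 0 := (h.pair _ _ _ _).trans (h.y0 0 2 3)
  have r0115 : K 0 1 1 5 = 0 := h.z1 3
  have r0215 : K 0 2 1 5 = b 0 3 / 2 := h.p01 0 3
  have r0315 : K 0 3 1 5 = b 1 3 / 2 := h.p01 1 3
  have r0415 : K 0 4 1 5 = b 2 3 / 2 := h.p01 2 3
  have r0515 : K 0 5 1 5 = 0 := (h.p01 3 3).trans (by rw [b0 3, zero_div])
  have r1215 : K 1 2 1 5 = 0 := h.p1o 0 3 (by decide)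
  have r1315 : K 1 3 1 5 = 0 := h.p1o 1 3 (by decide)
  have r1415 : K 1 4 1 5 = 0 := h.p1o 2 3 (by decide)
  have r1515 : K 1 5 1 5 = 1 := h.p1d 3
  have r2315 : K 2 3 1 5 = 0 := (h.pair _ _ _ _).trans (h.y1 3 0 1)
  have r2415 : K 2 4 1 5 = 0 := (h.pair _ _ _ _).trans (h.y1 3 0 2)
  have r2515 : K 2 5 1 5 = 0 := (h.pair _ _ _ _).trans (h.y1 3 0 3)
  have r3415 : K 3 4 1 5 = 0 := (h.pair _ _ _ _).trans (h.y1 3 1 2)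
  have r3515 : K 3 5 1 5 = 0 := (h.pair _ _ _ _).trans (h.y1 3 1 3)
  have r4515 : K 4 5 1 5 = 0 := (h.pair _ _ _ _).trans (h.y1 3 2 3)
  have r0134 : K 0 1 3 4 = b 1 2 := h.pw 1 2
  have r0234 : K 0 2 3 4 = 0 := h.y0 0 1 2
  have r0334 : K 0 3 3 4 = 0 := h.y0 1 1 2
  have r0434 : K 0 4 3 4 = 0 := h.y0 2 1 2
  have r0534 : K 0 5 3 4 = 0 := h.y0 3 1 2
  have r1234 : K 1 2 3 4 = 0 := h.y1 0 1 2
  have r1334 : K 1 3 3 4 = 0 := h.y1 1 1 2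
  have r1434 : K 1 4 3 4 = 0 := h.y1 2 1 2
  have r1534 : K 1 5 3 4 = 0 := h.y1 3 1 2
  have r2334 : K 2 3 3 4 = s 0 1 1 2 := h.ss 0 1 1 2
  have r2434 : K 2 4 3 4 = s 0 2 1 2 := h.ss 0 2 1 2
  have r2534 : K 2 5 3 4 = s 0 3 1 2 := h.ss 0 3 1 2
  have r3434 : K 3 4 3 4 = s 1 2 1 2 := h.ss 1 2 1 2
  have r3534 : K 3 5 3 4 = s 1 2 1 3 := (h.ss 1 3 1 2).trans (h.sc.pair _ _ _ _)
  have r4534 : K 4 5 3 4 = s 1 2 2 3 := (h.ss 2 3 1 2).trans (h.sc.pair _ _ _ _)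
  simp only [N6, A6, r0102, r0202, r0302, r0402, r0502, r1202, r1302, r1402, r1502,
    r2302, r2402, r2502, r3402, r3502, r4502, r0115, r0215, r0315,
    r0415, r0515, r1215, r1315, r1415, r1515, r2315, r2415, r2515,
    r3415, r3515, r4515, r0134, r0234, r0334, r0434, r0534, r1234,
    r1334, r1434, r1534, r2334, r2434, r2534, r3434, r3534, r4534,
    mul_zero, zero_mul, add_zero, zero_add, sub_zero, zero_sub]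
  ring

theorem col6 (h : Rot K k b s) : N6 (fun x y => K x y 0 3) (fun x y => K x y 1 2) (fun x y => K x y 4 5) =
    1 / 4 * b 0 1 * b 0 1 * s 2 3 2 3 - 1 / 4 * b 0 1 * b 0 2 * s 1 3 2 3 + 1 / 4 * b 0 1 * b 0 3 * s 1 2 2 3 + 1 / 4 * b 0 1 * b 1 2 * s 0 3 2 3 - 1 / 4 * b 0 1 * b 1 3 * s 0 2 2 3 + 1 / 4 * b 0 2 * b 1 3 * s 0 1 2 3 - 1 / 4 * b 0 3 * b 1 2 * s 0 1 2 3 + s 2 3 2 3 := by
  have b0 : ∀ i, b i i = 0 := fun i => by linarith [h.bn i i]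
  have r0103 : K 0 1 0 3 = 0 := h.z0 1
  have r0203 : K 0 2 0 3 = 0 := h.p0o 0 1 (by decide)
  have r0303 : K 0 3 0 3 = 1 := h.p0d 1
  have r0403 : K 0 4 0 3 = 0 := h.p0o 2 1 (by decide)
  have r0503 : K 0 5 0 3 = 0 := h.p0o 3 1 (by decide)
  have r1203 : K 1 2 0 3 = -(b 0 1 / 2) := ((h.pair _ _ _ _).trans (h.p01 1 0)).trans (by rw [h.bn 0 1, neg_div])
  have r1303 : K 1 3 0 3 = 0 := ((h.pair _ _ _ _).trans (h.p01 1 1)).trans (by rw [b0 1, zero_div])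
  have r1403 : K 1 4 0 3 = b 1 2 / 2 := (h.pair _ _ _ _).trans (h.p01 1 2)
  have r1503 : K 1 5 0 3 = b 1 3 / 2 := (h.pair _ _ _ _).trans (h.p01 1 3)
  have r2303 : K 2 3 0 3 = 0 := (h.pair _ _ _ _).trans (h.y0 1 0 1)
  have r2403 : K 2 4 0 3 = 0 := (h.pair _ _ _ _).trans (h.y0 1 0 2)
  have r2503 : K 2 5 0 3 = 0 := (h.pair _ _ _ _).trans (h.y0 1 0 3)
  have r3403 : K 3 4 0 3 = 0 := (h.pair _ _ _ _).trans (h.y0 1 1 2)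
  have r3503 : K 3 5 0 3 = 0 := (h.pair _ _ _ _).trans (h.y0 1 1 3)
  have r4503 : K 4 5 0 3 = 0 := (h.pair _ _ _ _).trans (h.y0 1 2 3)
  have r0112 : K 0 1 1 2 = 0 := h.z1 0
  have r0212 : K 0 2 1 2 = 0 := (h.p01 0 0).trans (by rw [b0 0, zero_div])
  have r0312 : K 0 3 1 2 = -(b 0 1 / 2) := (h.p01 1 0).trans (by rw [h.bn 0 1, neg_div])
  have r0412 : K 0 4 1 2 = -(b 0 2 / 2) := (h.p01 2 0).trans (by rw [h.bn 0 2, neg_div])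
  have r0512 : K 0 5 1 2 = -(b 0 3 / 2) := (h.p01 3 0).trans (by rw [h.bn 0 3, neg_div])
  have r1212 : K 1 2 1 2 = 1 := h.p1d 0
  have r1312 : K 1 3 1 2 = 0 := h.p1o 1 0 (by decide)
  have r1412 : K 1 4 1 2 = 0 := h.p1o 2 0 (by decide)
  have r1512 : K 1 5 1 2 = 0 := h.p1o 3 0 (by decide)
  have r2312 : K 2 3 1 2 = 0 := (h.pair _ _ _ _).trans (h.y1 0 0 1)
  have r2412 : K 2 4 1 2 = 0 := (h.pair _ _ _ _).trans (h.y1 0 0 2)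
  have r2512 : K 2 5 1 2 = 0 := (h.pair _ _ _ _).trans (h.y1 0 0 3)
  have r3412 : K 3 4 1 2 = 0 := (h.pair _ _ _ _).trans (h.y1 0 1 2)
  have r3512 : K 3 5 1 2 = 0 := (h.pair _ _ _ _).trans (h.y1 0 1 3)
  have r4512 : K 4 5 1 2 = 0 := (h.pair _ _ _ _).trans (h.y1 0 2 3)
  have r0145 : K 0 1 4 5 = b 2 3 := h.pw 2 3
  have r0245 : K 0 2 4 5 = 0 := h.y0 0 2 3
  have r0345 : K 0 3 4 5 = 0 := h.y0 1 2 3
  have r0445 : K 0 4 4 5 = 0 := h.y0 2 2 3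
  have r0545 : K 0 5 4 5 = 0 := h.y0 3 2 3
  have r1245 : K 1 2 4 5 = 0 := h.y1 0 2 3
  have r1345 : K 1 3 4 5 = 0 := h.y1 1 2 3
  have r1445 : K 1 4 4 5 = 0 := h.y1 2 2 3
  have r1545 : K 1 5 4 5 = 0 := h.y1 3 2 3
  have r2345 : K 2 3 4 5 = s 0 1 2 3 := h.ss 0 1 2 3
  have r2445 : K 2 4 4 5 = s 0 2 2 3 := h.ss 0 2 2 3
  have r2545 : K 2 5 4 5 = s 0 3 2 3 := h.ss 0 3 2 3
  have r3445 : K 3 4 4 5 = s 1 2 2 3 := h.ss 1 2 2 3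
  have r3545 : K 3 5 4 5 = s 1 3 2 3 := h.ss 1 3 2 3
  have r4545 : K 4 5 4 5 = s 2 3 2 3 := h.ss 2 3 2 3
  simp only [N6, A6, r0103, r0203, r0303, r0403, r0503, r1203, r1303, r1403, r1503,
    r2303, r2403, r2503, r3403, r3503, r4503, r0112, r0212, r0312,
    r0412, r0512, r1212, r1312, r1412, r1512, r2312, r2412, r2512,
    r3412, r3512, r4512, r0145, r0245, r0345, r0445, r0545, r1245,
    r1345, r1445, r1545, r2345, r2445, r2545, r3445, r3545, r4545,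
    mul_zero, zero_mul, add_zero, zero_add, sub_zero, zero_sub]
  ring

theorem col7 (h : Rot K k b s) : N6 (fun x y => K x y 0 3) (fun x y => K x y 1 4) (fun x y => K x y 2 5) =
    -(1 / 4 * b 0 1 * b 1 2 * s 0 3 2 3) + 1 / 4 * b 0 1 * b 2 3 * s 0 3 1 2 + 1 / 4 * b 0 2 * b 1 2 * s 0 3 1 3 - 1 / 4 * b 0 2 * b 1 3 * s 0 3 1 2 - 1 / 4 * b 1 2 * b 1 2 * s 0 3 0 3 + 1 / 4 * b 1 2 * b 1 3 * s 0 2 0 3 - 1 / 4 * b 1 2 * b 2 3 * s 0 1 0 3 - s 0 3 0 3 := by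
  have b0 : ∀ i, b i i = 0 := fun i => by linarith [h.bn i i]
  have r0103 : K 0 1 0 3 = 0 := h.z0 1
  have r0203 : K 0 2 0 3 = 0 := h.p0o 0 1 (by decide)
  have r0303 : K 0 3 0 3 = 1 := h.p0d 1
  have r0403 : K 0 4 0 3 = 0 := h.p0o 2 1 (by decide)
  have r0503 : K 0 5 0 3 = 0 := h.p0o 3 1 (by decide)
  have r1203 : K 1 2 0 3 = -(b 0 1 / 2) := ((h.pair _ _ _ _).trans (h.p01 1 0)).trans (by rw [h.bn 0 1, neg_div])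
  have r1303 : K 1 3 0 3 = 0 := ((h.pair _ _ _ _).trans (h.p01 1 1)).trans (by rw [b0 1, zero_div])
  have r1403 : K 1 4 0 3 = b 1 2 / 2 := (h.pair _ _ _ _).trans (h.p01 1 2)
  have r1503 : K 1 5 0 3 = b 1 3 / 2 := (h.pair _ _ _ _).trans (h.p01 1 3)
  have r2303 : K 2 3 0 3 = 0 := (h.pair _ _ _ _).trans (h.y0 1 0 1)
  have r2403 : K 2 4 0 3 = 0 := (h.pair _ _ _ _).trans (h.y0 1 0 2)
  have r2503 : K 2 5 0 3 = 0 := (h.pair _ _ _ _).trans (h.y0 1 0 3)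
  have r3403 : K 3 4 0 3 = 0 := (h.pair _ _ _ _).trans (h.y0 1 1 2)
  have r3503 : K 3 5 0 3 = 0 := (h.pair _ _ _ _).trans (h.y0 1 1 3)
  have r4503 : K 4 5 0 3 = 0 := (h.pair _ _ _ _).trans (h.y0 1 2 3)
  have r0114 : K 0 1 1 4 = 0 := h.z1 2
  have r0214 : K 0 2 1 4 = b 0 2 / 2 := h.p01 0 2
  have r0314 : K 0 3 1 4 = b 1 2 / 2 := h.p01 1 2
  have r0414 : K 0 4 1 4 = 0 := (h.p01 2 2).trans (by rw [b0 2, zero_div])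
  have r0514 : K 0 5 1 4 = -(b 2 3 / 2) := (h.p01 3 2).trans (by rw [h.bn 2 3, neg_div])
  have r1214 : K 1 2 1 4 = 0 := h.p1o 0 2 (by decide)
  have r1314 : K 1 3 1 4 = 0 := h.p1o 1 2 (by decide)
  have r1414 : K 1 4 1 4 = 1 := h.p1d 2
  have r1514 : K 1 5 1 4 = 0 := h.p1o 3 2 (by decide)
  have r2314 : K 2 3 1 4 = 0 := (h.pair _ _ _ _).trans (h.y1 2 0 1)
  have r2414 : K 2 4 1 4 = 0 := (h.pair _ _ _ _).trans (h.y1 2 0 2)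
  have r2514 : K 2 5 1 4 = 0 := (h.pair _ _ _ _).trans (h.y1 2 0 3)
  have r3414 : K 3 4 1 4 = 0 := (h.pair _ _ _ _).trans (h.y1 2 1 2)
  have r3514 : K 3 5 1 4 = 0 := (h.pair _ _ _ _).trans (h.y1 2 1 3)
  have r4514 : K 4 5 1 4 = 0 := (h.pair _ _ _ _).trans (h.y1 2 2 3)
  have r0125 : K 0 1 2 5 = b 0 3 := h.pw 0 3
  have r0225 : K 0 2 2 5 = 0 := h.y0 0 0 3
  have r0325 : K 0 3 2 5 = 0 := h.y0 1 0 3
  have r0425 : K 0 4 2 5 = 0 := h.y0 2 0 3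
  have r0525 : K 0 5 2 5 = 0 := h.y0 3 0 3
  have r1225 : K 1 2 2 5 = 0 := h.y1 0 0 3
  have r1325 : K 1 3 2 5 = 0 := h.y1 1 0 3
  have r1425 : K 1 4 2 5 = 0 := h.y1 2 0 3
  have r1525 : K 1 5 2 5 = 0 := h.y1 3 0 3
  have r2325 : K 2 3 2 5 = s 0 1 0 3 := h.ss 0 1 0 3
  have r2425 : K 2 4 2 5 = s 0 2 0 3 := h.ss 0 2 0 3
  have r2525 : K 2 5 2 5 = s 0 3 0 3 := h.ss 0 3 0 3
  have r3425 : K 3 4 2 5 = s 0 3 1 2 := (h.ss 1 2 0 3).trans (h.sc.pair _ _ _ _)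
  have r3525 : K 3 5 2 5 = s 0 3 1 3 := (h.ss 1 3 0 3).trans (h.sc.pair _ _ _ _)
  have r4525 : K 4 5 2 5 = s 0 3 2 3 := (h.ss 2 3 0 3).trans (h.sc.pair _ _ _ _)
  simp only [N6, A6, r0103, r0203, r0303, r0403, r0503, r1203, r1303, r1403, r1503,
    r2303, r2403, r2503, r3403, r3503, r4503, r0114, r0214, r0314,
    r0414, r0514, r1214, r1314, r1414, r1514, r2314, r2414, r2514,
    r3414, r3514, r4514, r0125, r0225, r0325, r0425, r0525, r1225,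
    r1325, r1425, r1525, r2325, r2425, r2525, r3425, r3525, r4525,
    mul_zero, zero_mul, add_zero, zero_add, sub_zero, zero_sub]
  ring

theorem col8 (h : Rot K k b s) : N6 (fun x y => K x y 0 3) (fun x y => K x y 1 5) (fun x y => K x y 2 4) =
    -(1 / 4 * b 0 1 * b 1 3 * s 0 2 2 3) + 1 / 4 * b 0 1 * b 2 3 * s 0 2 1 3 + 1 / 4 * b 0 3 * b 1 2 * s 0 2 1 3 - 1 / 4 * b 0 3 * b 1 3 * s 0 2 1 2 - 1 / 4 * b 1 2 * b 1 3 * s 0 2 0 3 + 1 / 4 * b 1 3 * b 1 3 * s 0 2 0 2 - 1 / 4 * b 1 3 * b 2 3 * s 0 1 0 2 + s 0 2 0 2 := by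
  have b0 : ∀ i, b i i = 0 := fun i => by linarith [h.bn i i]
  have r0103 : K 0 1 0 3 = 0 := h.z0 1
  have r0203 : K 0 2 0 3 = 0 := h.p0o 0 1 (by decide)
  have r0303 : K 0 3 0 3 = 1 := h.p0d 1
  have r0403 : K 0 4 0 3 = 0 := h.p0o 2 1 (by decide)
  have r0503 : K 0 5 0 3 = 0 := h.p0o 3 1 (by decide)
  have r1203 : K 1 2 0 3 = -(b 0 1 / 2) := ((h.pair _ _ _ _).trans (h.p01 1 0)).trans (by rw [h.bn 0 1, neg_div])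
  have r1303 : K 1 3 0 3 = 0 := ((h.pair _ _ _ _).trans (h.p01 1 1)).trans (by rw [b0 1, zero_div])
  have r1403 : K 1 4 0 3 = b 1 2 / 2 := (h.pair _ _ _ _).trans (h.p01 1 2)
  have r1503 : K 1 5 0 3 = b 1 3 / 2 := (h.pair _ _ _ _).trans (h.p01 1 3)
  have r2303 : K 2 3 0 3 = 0 := (h.pair _ _ _ _).trans (h.y0 1 0 1)
  have r2403 : K 2 4 0 3 = 0 := (h.pair _ _ _ _).trans (h.y0 1 0 2)
  have r2503 : K 2 5 0 3 = 0 := (h.pair _ _ _ _).trans (h.y0 1 0 3)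
  have r3403 : K 3 4 0 3 = 0 := (h.pair _ _ _ _).trans (h.y0 1 1 2)
  have r3503 : K 3 5 0 3 = 0 := (h.pair _ _ _ _).trans (h.y0 1 1 3)
  have r4503 : K 4 5 0 3 = 0 := (h.pair _ _ _ _).trans (h.y0 1 2 3)
  have r0115 : K 0 1 1 5 = 0 := h.z1 3
  have r0215 : K 0 2 1 5 = b 0 3 / 2 := h.p01 0 3
  have r0315 : K 0 3 1 5 = b 1 3 / 2 := h.p01 1 3
  have r0415 : K 0 4 1 5 = b 2 3 / 2 := h.p01 2 3
  have r0515 : K 0 5 1 5 = 0 := (h.p01 3 3).trans (by rw [b0 3, zero_div])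
  have r1215 : K 1 2 1 5 = 0 := h.p1o 0 3 (by decide)
  have r1315 : K 1 3 1 5 = 0 := h.p1o 1 3 (by decide)
  have r1415 : K 1 4 1 5 = 0 := h.p1o 2 3 (by decide)
  have r1515 : K 1 5 1 5 = 1 := h.p1d 3
  have r2315 : K 2 3 1 5 = 0 := (h.pair _ _ _ _).trans (h.y1 3 0 1)
  have r2415 : K 2 4 1 5 = 0 := (h.pair _ _ _ _).trans (h.y1 3 0 2)
  have r2515 : K 2 5 1 5 = 0 := (h.pair _ _ _ _).trans (h.y1 3 0 3)
  have r3415 : K 3 4 1 5 = 0 := (h.pair _ _ _ _).trans (h.y1 3 1 2)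
  have r3515 : K 3 5 1 5 = 0 := (h.pair _ _ _ _).trans (h.y1 3 1 3)
  have r4515 : K 4 5 1 5 = 0 := (h.pair _ _ _ _).trans (h.y1 3 2 3)
  have r0124 : K 0 1 2 4 = b 0 2 := h.pw 0 2
  have r0224 : K 0 2 2 4 = 0 := h.y0 0 0 2
  have r0324 : K 0 3 2 4 = 0 := h.y0 1 0 2
  have r0424 : K 0 4 2 4 = 0 := h.y0 2 0 2
  have r0524 : K 0 5 2 4 = 0 := h.y0 3 0 2
  have r1224 : K 1 2 2 4 = 0 := h.y1 0 0 2
  have r1324 : K 1 3 2 4 = 0 := h.y1 1 0 2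
  have r1424 : K 1 4 2 4 = 0 := h.y1 2 0 2
  have r1524 : K 1 5 2 4 = 0 := h.y1 3 0 2
  have r2324 : K 2 3 2 4 = s 0 1 0 2 := h.ss 0 1 0 2
  have r2424 : K 2 4 2 4 = s 0 2 0 2 := h.ss 0 2 0 2
  have r2524 : K 2 5 2 4 = s 0 2 0 3 := (h.ss 0 3 0 2).trans (h.sc.pair _ _ _ _)
  have r3424 : K 3 4 2 4 = s 0 2 1 2 := (h.ss 1 2 0 2).trans (h.sc.pair _ _ _ _)
  have r3524 : K 3 5 2 4 = s 0 2 1 3 := (h.ss 1 3 0 2).trans (h.sc.pair _ _ _ _)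
  have r4524 : K 4 5 2 4 = s 0 2 2 3 := (h.ss 2 3 0 2).trans (h.sc.pair _ _ _ _)
  simp only [N6, A6, r0103, r0203, r0303, r0403, r0503, r1203, r1303, r1403, r1503,
    r2303, r2403, r2503, r3403, r3503, r4503, r0115, r0215, r0315,
    r0415, r0515, r1215, r1315, r1415, r1515, r2315, r2415, r2515,
    r3415, r3515, r4515, r0124, r0224, r0324, r0424, r0524, r1224,
    r1324, r1424, r1524, r2324, r2424, r2524, r3424, r3524, r4524,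
    mul_zero, zero_mul, add_zero, zero_add, sub_zero, zero_sub]
  ring

theorem col9 (h : Rot K k b s) : N6 (fun x y => K x y 0 4) (fun x y => K x y 1 2) (fun x y => K x y 3 5) =
    1 / 4 * b 0 1 * b 0 2 * s 1 3 2 3 - 1 / 4 * b 0 1 * b 2 3 * s 0 2 1 3 - 1 / 4 * b 0 2 * b 0 2 * s 1 3 1 3 + 1 / 4 * b 0 2 * b 0 3 * s 1 2 1 3 + 1 / 4 * b 0 2 * b 1 2 * s 0 3 1 3 + 1 / 4 * b 0 2 * b 2 3 * s 0 1 1 3 - 1 / 4 * b 0 3 * b 1 2 * s 0 2 1 3 - s 1 3 1 3 := by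
  have b0 : ∀ i, b i i = 0 := fun i => by linarith [h.bn i i]
  have r0104 : K 0 1 0 4 = 0 := h.z0 2
  have r0204 : K 0 2 0 4 = 0 := h.p0o 0 2 (by decide)
  have r0304 : K 0 3 0 4 = 0 := h.p0o 1 2 (by decide)
  have r0404 : K 0 4 0 4 = 1 := h.p0d 2
  have r0504 : K 0 5 0 4 = 0 := h.p0o 3 2 (by decide)
  have r1204 : K 1 2 0 4 = -(b 0 2 / 2) := ((h.pair _ _ _ _).trans (h.p01 2 0)).trans (by rw [h.bn 0 2, neg_div])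
  have r1304 : K 1 3 0 4 = -(b 1 2 / 2) := ((h.pair _ _ _ _).trans (h.p01 2 1)).trans (by rw [h.bn 1 2, neg_div])
  have r1404 : K 1 4 0 4 = 0 := ((h.pair _ _ _ _).trans (h.p01 2 2)).trans (by rw [b0 2, zero_div])
  have r1504 : K 1 5 0 4 = b 2 3 / 2 := (h.pair _ _ _ _).trans (h.p01 2 3)
  have r2304 : K 2 3 0 4 = 0 := (h.pair _ _ _ _).trans (h.y0 2 0 1)
  have r2404 : K 2 4 0 4 = 0 := (h.pair _ _ _ _).trans (h.y0 2 0 2)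
  have r2504 : K 2 5 0 4 = 0 := (h.pair _ _ _ _).trans (h.y0 2 0 3)
  have r3404 : K 3 4 0 4 = 0 := (h.pair _ _ _ _).trans (h.y0 2 1 2)
  have r3504 : K 3 5 0 4 = 0 := (h.pair _ _ _ _).trans (h.y0 2 1 3)
  have r4504 : K 4 5 0 4 = 0 := (h.pair _ _ _ _).trans (h.y0 2 2 3)
  have r0112 : K 0 1 1 2 = 0 := h.z1 0
  have r0212 : K 0 2 1 2 = 0 := (h.p01 0 0).trans (by rw [b0 0, zero_div])
  have r0312 : K 0 3 1 2 = -(b 0 1 / 2) := (h.p01 1 0).trans (by rw [h.bn 0 1, neg_div])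
  have r0412 : K 0 4 1 2 = -(b 0 2 / 2) := (h.p01 2 0).trans (by rw [h.bn 0 2, neg_div])
  have r0512 : K 0 5 1 2 = -(b 0 3 / 2) := (h.p01 3 0).trans (by rw [h.bn 0 3, neg_div])
  have r1212 : K 1 2 1 2 = 1 := h.p1d 0
  have r1312 : K 1 3 1 2 = 0 := h.p1o 1 0 (by decide)
  have r1412 : K 1 4 1 2 = 0 := h.p1o 2 0 (by decide)
  have r1512 : K 1 5 1 2 = 0 := h.p1o 3 0 (by decide)
  have r2312 : K 2 3 1 2 = 0 := (h.pair _ _ _ _).trans (h.y1 0 0 1)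
  have r2412 : K 2 4 1 2 = 0 := (h.pair _ _ _ _).trans (h.y1 0 0 2)
  have r2512 : K 2 5 1 2 = 0 := (h.pair _ _ _ _).trans (h.y1 0 0 3)
  have r3412 : K 3 4 1 2 = 0 := (h.pair _ _ _ _).trans (h.y1 0 1 2)
  have r3512 : K 3 5 1 2 = 0 := (h.pair _ _ _ _).trans (h.y1 0 1 3)
  have r4512 : K 4 5 1 2 = 0 := (h.pair _ _ _ _).trans (h.y1 0 2 3)
  have r0135 : K 0 1 3 5 = b 1 3 := h.pw 1 3
  have r0235 : K 0 2 3 5 = 0 := h.y0 0 1 3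
  have r0335 : K 0 3 3 5 = 0 := h.y0 1 1 3
  have r0435 : K 0 4 3 5 = 0 := h.y0 2 1 3
  have r0535 : K 0 5 3 5 = 0 := h.y0 3 1 3
  have r1235 : K 1 2 3 5 = 0 := h.y1 0 1 3
  have r1335 : K 1 3 3 5 = 0 := h.y1 1 1 3
  have r1435 : K 1 4 3 5 = 0 := h.y1 2 1 3
  have r1535 : K 1 5 3 5 = 0 := h.y1 3 1 3
  have r2335 : K 2 3 3 5 = s 0 1 1 3 := h.ss 0 1 1 3
  have r2435 : K 2 4 3 5 = s 0 2 1 3 := h.ss 0 2 1 3
  have r2535 : K 2 5 3 5 = s 0 3 1 3 := h.ss 0 3 1 3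
  have r3435 : K 3 4 3 5 = s 1 2 1 3 := h.ss 1 2 1 3
  have r3535 : K 3 5 3 5 = s 1 3 1 3 := h.ss 1 3 1 3
  have r4535 : K 4 5 3 5 = s 1 3 2 3 := (h.ss 2 3 1 3).trans (h.sc.pair _ _ _ _)
  simp only [N6, A6, r0104, r0204, r0304, r0404, r0504, r1204, r1304, r1404, r1504,
    r2304, r2404, r2504, r3404, r3504, r4504, r0112, r0212, r0312,
    r0412, r0512, r1212, r1312, r1412, r1512, r2312, r2412, r2512,
    r3412, r3512, r4512, r0135, r0235, r0335, r0435, r0535, r1235,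
    r1335, r1435, r1535, r2335, r2435, r2535, r3435, r3535, r4535,
    mul_zero, zero_mul, add_zero, zero_add, sub_zero, zero_sub]
  ring

theorem col10 (h : Rot K k b s) : N6 (fun x y => K x y 0 4) (fun x y => K x y 1 3) (fun x y => K x y 2 5) =
    1 / 4 * b 0 1 * b 1 2 * s 0 3 2 3 - 1 / 4 * b 0 1 * b 2 3 * s 0 3 1 2 - 1 / 4 * b 0 2 * b 1 2 * s 0 3 1 3 + 1 / 4 * b 0 2 * b 1 3 * s 0 3 1 2 + 1 / 4 * b 1 2 * b 1 2 * s 0 3 0 3 - 1 / 4 * b 1 2 * b 1 3 * s 0 2 0 3 + 1 / 4 * b 1 2 * b 2 3 * s 0 1 0 3 + s 0 3 0 3 := by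
  have b0 : ∀ i, b i i = 0 := fun i => by linarith [h.bn i i]
  have r0104 : K 0 1 0 4 = 0 := h.z0 2
  have r0204 : K 0 2 0 4 = 0 := h.p0o 0 2 (by decide)
  have r0304 : K 0 3 0 4 = 0 := h.p0o 1 2 (by decide)
  have r0404 : K 0 4 0 4 = 1 := h.p0d 2
  have r0504 : K 0 5 0 4 = 0 := h.p0o 3 2 (by decide)
  have r1204 : K 1 2 0 4 = -(b 0 2 / 2) := ((h.pair _ _ _ _).trans (h.p01 2 0)).trans (by rw [h.bn 0 2, neg_div])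
  have r1304 : K 1 3 0 4 = -(b 1 2 / 2) := ((h.pair _ _ _ _).trans (h.p01 2 1)).trans (by rw [h.bn 1 2, neg_div])
  have r1404 : K 1 4 0 4 = 0 := ((h.pair _ _ _ _).trans (h.p01 2 2)).trans (by rw [b0 2, zero_div])
  have r1504 : K 1 5 0 4 = b 2 3 / 2 := (h.pair _ _ _ _).trans (h.p01 2 3)
  have r2304 : K 2 3 0 4 = 0 := (h.pair _ _ _ _).trans (h.y0 2 0 1)
  have r2404 : K 2 4 0 4 = 0 := (h.pair _ _ _ _).trans (h.y0 2 0 2)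
  have r2504 : K 2 5 0 4 = 0 := (h.pair _ _ _ _).trans (h.y0 2 0 3)
  have r3404 : K 3 4 0 4 = 0 := (h.pair _ _ _ _).trans (h.y0 2 1 2)
  have r3504 : K 3 5 0 4 = 0 := (h.pair _ _ _ _).trans (h.y0 2 1 3)
  have r4504 : K 4 5 0 4 = 0 := (h.pair _ _ _ _).trans (h.y0 2 2 3)
  have r0113 : K 0 1 1 3 = 0 := h.z1 1
  have r0213 : K 0 2 1 3 = b 0 1 / 2 := h.p01 0 1
  have r0313 : K 0 3 1 3 = 0 := (h.p01 1 1).trans (by rw [b0 1, zero_div])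
  have r0413 : K 0 4 1 3 = -(b 1 2 / 2) := (h.p01 2 1).trans (by rw [h.bn 1 2, neg_div])
  have r0513 : K 0 5 1 3 = -(b 1 3 / 2) := (h.p01 3 1).trans (by rw [h.bn 1 3, neg_div])
  have r1213 : K 1 2 1 3 = 0 := h.p1o 0 1 (by decide)
  have r1313 : K 1 3 1 3 = 1 := h.p1d 1
  have r1413 : K 1 4 1 3 = 0 := h.p1o 2 1 (by decide)
  have r1513 : K 1 5 1 3 = 0 := h.p1o 3 1 (by decide)
  have r2313 : K 2 3 1 3 = 0 := (h.pair _ _ _ _).trans (h.y1 1 0 1)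
  have r2413 : K 2 4 1 3 = 0 := (h.pair _ _ _ _).trans (h.y1 1 0 2)
  have r2513 : K 2 5 1 3 = 0 := (h.pair _ _ _ _).trans (h.y1 1 0 3)
  have r3413 : K 3 4 1 3 = 0 := (h.pair _ _ _ _).trans (h.y1 1 1 2)
  have r3513 : K 3 5 1 3 = 0 := (h.pair _ _ _ _).trans (h.y1 1 1 3)
  have r4513 : K 4 5 1 3 = 0 := (h.pair _ _ _ _).trans (h.y1 1 2 3)
  have r0125 : K 0 1 2 5 = b 0 3 := h.pw 0 3
  have r0225 : K 0 2 2 5 = 0 := h.y0 0 0 3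
  have r0325 : K 0 3 2 5 = 0 := h.y0 1 0 3
  have r0425 : K 0 4 2 5 = 0 := h.y0 2 0 3
  have r0525 : K 0 5 2 5 = 0 := h.y0 3 0 3
  have r1225 : K 1 2 2 5 = 0 := h.y1 0 0 3
  have r1325 : K 1 3 2 5 = 0 := h.y1 1 0 3
  have r1425 : K 1 4 2 5 = 0 := h.y1 2 0 3
  have r1525 : K 1 5 2 5 = 0 := h.y1 3 0 3
  have r2325 : K 2 3 2 5 = s 0 1 0 3 := h.ss 0 1 0 3
  have r2425 : K 2 4 2 5 = s 0 2 0 3 := h.ss 0 2 0 3
  have r2525 : K 2 5 2 5 = s 0 3 0 3 := h.ss 0 3 0 3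
  have r3425 : K 3 4 2 5 = s 0 3 1 2 := (h.ss 1 2 0 3).trans (h.sc.pair _ _ _ _)
  have r3525 : K 3 5 2 5 = s 0 3 1 3 := (h.ss 1 3 0 3).trans (h.sc.pair _ _ _ _)
  have r4525 : K 4 5 2 5 = s 0 3 2 3 := (h.ss 2 3 0 3).trans (h.sc.pair _ _ _ _)
  simp only [N6, A6, r0104, r0204, r0304, r0404, r0504, r1204, r1304, r1404, r1504,
    r2304, r2404, r2504, r3404, r3504, r4504, r0113, r0213, r0313,
    r0413, r0513, r1213, r1313, r1413, r1513, r2313, r2413, r2513,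
    r3413, r3513, r4513, r0125, r0225, r0325, r0425, r0525, r1225,
    r1325, r1425, r1525, r2325, r2425, r2525, r3425, r3525, r4525,
    mul_zero, zero_mul, add_zero, zero_add, sub_zero, zero_sub]
  ring

theorem col11 (h : Rot K k b s) : N6 (fun x y => K x y 0 4) (fun x y => K x y 1 5) (fun x y => K x y 2 3) =
    -(1 / 4 * b 0 2 * b 1 3 * s 0 1 2 3) + 1 / 4 * b 0 2 * b 2 3 * s 0 1 1 3 + 1 / 4 * b 0 3 * b 1 2 * s 0 1 2 3 - 1 / 4 * b 0 3 * b 2 3 * s 0 1 1 2 - 1 / 4 * b 1 2 * b 2 3 * s 0 1 0 3 + 1 / 4 * b 1 3 * b 2 3 * s 0 1 0 2 - 1 / 4 * b 2 3 * b 2 3 * s 0 1 0 1 - s 0 1 0 1 := by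
  have b0 : ∀ i, b i i = 0 := fun i => by linarith [h.bn i i]
  have r0104 : K 0 1 0 4 = 0 := h.z0 2
  have r0204 : K 0 2 0 4 = 0 := h.p0o 0 2 (by decide)
  have r0304 : K 0 3 0 4 = 0 := h.p0o 1 2 (by decide)
  have r0404 : K 0 4 0 4 = 1 := h.p0d 2
  have r0504 : K 0 5 0 4 = 0 := h.p0o 3 2 (by decide)
  have r1204 : K 1 2 0 4 = -(b 0 2 / 2) := ((h.pair _ _ _ _).trans (h.p01 2 0)).trans (by rw [h.bn 0 2, neg_div])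
  have r1304 : K 1 3 0 4 = -(b 1 2 / 2) := ((h.pair _ _ _ _).trans (h.p01 2 1)).trans (by rw [h.bn 1 2, neg_div])
  have r1404 : K 1 4 0 4 = 0 := ((h.pair _ _ _ _).trans (h.p01 2 2)).trans (by rw [b0 2, zero_div])
  have r1504 : K 1 5 0 4 = b 2 3 / 2 := (h.pair _ _ _ _).trans (h.p01 2 3)
  have r2304 : K 2 3 0 4 = 0 := (h.pair _ _ _ _).trans (h.y0 2 0 1)
  have r2404 : K 2 4 0 4 = 0 := (h.pair _ _ _ _).trans (h.y0 2 0 2)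
  have r2504 : K 2 5 0 4 = 0 := (h.pair _ _ _ _).trans (h.y0 2 0 3)
  have r3404 : K 3 4 0 4 = 0 := (h.pair _ _ _ _).trans (h.y0 2 1 2)
  have r3504 : K 3 5 0 4 = 0 := (h.pair _ _ _ _).trans (h.y0 2 1 3)
  have r4504 : K 4 5 0 4 = 0 := (h.pair _ _ _ _).trans (h.y0 2 2 3)
  have r0115 : K 0 1 1 5 = 0 := h.z1 3
  have r0215 : K 0 2 1 5 = b 0 3 / 2 := h.p01 0 3
  have r0315 : K 0 3 1 5 = b 1 3 / 2 := h.p01 1 3
  have r0415 : K 0 4 1 5 = b 2 3 / 2 := h.p01 2 3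
  have r0515 : K 0 5 1 5 = 0 := (h.p01 3 3).trans (by rw [b0 3, zero_div])
  have r1215 : K 1 2 1 5 = 0 := h.p1o 0 3 (by decide)
  have r1315 : K 1 3 1 5 = 0 := h.p1o 1 3 (by decide)
  have r1415 : K 1 4 1 5 = 0 := h.p1o 2 3 (by decide)
  have r1515 : K 1 5 1 5 = 1 := h.p1d 3
  have r2315 : K 2 3 1 5 = 0 := (h.pair _ _ _ _).trans (h.y1 3 0 1)
  have r2415 : K 2 4 1 5 = 0 := (h.pair _ _ _ _).trans (h.y1 3 0 2)
  have r2515 : K 2 5 1 5 = 0 := (h.pair _ _ _ _).trans (h.y1 3 0 3)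
  have r3415 : K 3 4 1 5 = 0 := (h.pair _ _ _ _).trans (h.y1 3 1 2)
  have r3515 : K 3 5 1 5 = 0 := (h.pair _ _ _ _).trans (h.y1 3 1 3)
  have r4515 : K 4 5 1 5 = 0 := (h.pair _ _ _ _).trans (h.y1 3 2 3)
  have r0123 : K 0 1 2 3 = b 0 1 := h.pw 0 1
  have r0223 : K 0 2 2 3 = 0 := h.y0 0 0 1
  have r0323 : K 0 3 2 3 = 0 := h.y0 1 0 1
  have r0423 : K 0 4 2 3 = 0 := h.y0 2 0 1
  have r0523 : K 0 5 2 3 = 0 := h.y0 3 0 1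
  have r1223 : K 1 2 2 3 = 0 := h.y1 0 0 1
  have r1323 : K 1 3 2 3 = 0 := h.y1 1 0 1
  have r1423 : K 1 4 2 3 = 0 := h.y1 2 0 1
  have r1523 : K 1 5 2 3 = 0 := h.y1 3 0 1
  have r2323 : K 2 3 2 3 = s 0 1 0 1 := h.ss 0 1 0 1
  have r2423 : K 2 4 2 3 = s 0 1 0 2 := (h.ss 0 2 0 1).trans (h.sc.pair _ _ _ _)
  have r2523 : K 2 5 2 3 = s 0 1 0 3 := (h.ss 0 3 0 1).trans (h.sc.pair _ _ _ _)
  have r3423 : K 3 4 2 3 = s 0 1 1 2 := (h.ss 1 2 0 1).trans (h.sc.pair _ _ _ _)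
  have r3523 : K 3 5 2 3 = s 0 1 1 3 := (h.ss 1 3 0 1).trans (h.sc.pair _ _ _ _)
  have r4523 : K 4 5 2 3 = s 0 1 2 3 := (h.ss 2 3 0 1).trans (h.sc.pair _ _ _ _)
  simp only [N6, A6, r0104, r0204, r0304, r0404, r0504, r1204, r1304, r1404, r1504,
    r2304, r2404, r2504, r3404, r3504, r4504, r0115, r0215, r0315,
    r0415, r0515, r1215, r1315, r1415, r1515, r2315, r2415, r2515,
    r3415, r3515, r4515, r0123, r0223, r0323, r0423, r0523, r1223,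
    r1323, r1423, r1523, r2323, r2423, r2523, r3423, r3523, r4523,
    mul_zero, zero_mul, add_zero, zero_add, sub_zero, zero_sub]
  ring

theorem col12 (h : Rot K k b s) : N6 (fun x y => K x y 0 5) (fun x y => K x y 1 2) (fun x y => K x y 3 4) =
    1 / 4 * b 0 1 * b 0 3 * s 1 2 2 3 - 1 / 4 * b 0 1 * b 2 3 * s 0 3 1 2 - 1 / 4 * b 0 2 * b 0 3 * s 1 2 1 3 + 1 / 4 * b 0 2 * b 1 3 * s 0 3 1 2 + 1 / 4 * b 0 3 * b 0 3 * s 1 2 1 2 - 1 / 4 * b 0 3 * b 1 3 * s 0 2 1 2 + 1 / 4 * b 0 3 * b 2 3 * s 0 1 1 2 + s 1 2 1 2 := by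
  have b0 : ∀ i, b i i = 0 := fun i => by linarith [h.bn i i]
  have r0105 : K 0 1 0 5 = 0 := h.z0 3
  have r0205 : K 0 2 0 5 = 0 := h.p0o 0 3 (by decide)
  have r0305 : K 0 3 0 5 = 0 := h.p0o 1 3 (by decide)
  have r0405 : K 0 4 0 5 = 0 := h.p0o 2 3 (by decide)
  have r0505 : K 0 5 0 5 = 1 := h.p0d 3
  have r1205 : K 1 2 0 5 = -(b 0 3 / 2) := ((h.pair _ _ _ _).trans (h.p01 3 0)).trans (by rw [h.bn 0 3, neg_div])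
  have r1305 : K 1 3 0 5 = -(b 1 3 / 2) := ((h.pair _ _ _ _).trans (h.p01 3 1)).trans (by rw [h.bn 1 3, neg_div])
  have r1405 : K 1 4 0 5 = -(b 2 3 / 2) := ((h.pair _ _ _ _).trans (h.p01 3 2)).trans (by rw [h.bn 2 3, neg_div])
  have r1505 : K 1 5 0 5 = 0 := ((h.pair _ _ _ _).trans (h.p01 3 3)).trans (by rw [b0 3, zero_div])
  have r2305 : K 2 3 0 5 = 0 := (h.pair _ _ _ _).trans (h.y0 3 0 1)
  have r2405 : K 2 4 0 5 = 0 := (h.pair _ _ _ _).trans (h.y0 3 0 2)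
  have r2505 : K 2 5 0 5 = 0 := (h.pair _ _ _ _).trans (h.y0 3 0 3)
  have r3405 : K 3 4 0 5 = 0 := (h.pair _ _ _ _).trans (h.y0 3 1 2)
  have r3505 : K 3 5 0 5 = 0 := (h.pair _ _ _ _).trans (h.y0 3 1 3)
  have r4505 : K 4 5 0 5 = 0 := (h.pair _ _ _ _).trans (h.y0 3 2 3)
  have r0112 : K 0 1 1 2 = 0 := h.z1 0
  have r0212 : K 0 2 1 2 = 0 := (h.p01 0 0).trans (by rw [b0 0, zero_div])
  have r0312 : K 0 3 1 2 = -(b 0 1 / 2) := (h.p01 1 0).trans (by rw [h.bn 0 1, neg_div])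
  have r0412 : K 0 4 1 2 = -(b 0 2 / 2) := (h.p01 2 0).trans (by rw [h.bn 0 2, neg_div])
  have r0512 : K 0 5 1 2 = -(b 0 3 / 2) := (h.p01 3 0).trans (by rw [h.bn 0 3, neg_div])
  have r1212 : K 1 2 1 2 = 1 := h.p1d 0
  have r1312 : K 1 3 1 2 = 0 := h.p1o 1 0 (by decide)
  have r1412 : K 1 4 1 2 = 0 := h.p1o 2 0 (by decide)
  have r1512 : K 1 5 1 2 = 0 := h.p1o 3 0 (by decide)
  have r2312 : K 2 3 1 2 = 0 := (h.pair _ _ _ _).trans (h.y1 0 0 1)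
  have r2412 : K 2 4 1 2 = 0 := (h.pair _ _ _ _).trans (h.y1 0 0 2)
  have r2512 : K 2 5 1 2 = 0 := (h.pair _ _ _ _).trans (h.y1 0 0 3)
  have r3412 : K 3 4 1 2 = 0 := (h.pair _ _ _ _).trans (h.y1 0 1 2)
  have r3512 : K 3 5 1 2 = 0 := (h.pair _ _ _ _).trans (h.y1 0 1 3)
  have r4512 : K 4 5 1 2 = 0 := (h.pair _ _ _ _).trans (h.y1 0 2 3)
  have r0134 : K 0 1 3 4 = b 1 2 := h.pw 1 2
  have r0234 : K 0 2 3 4 = 0 := h.y0 0 1 2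
  have r0334 : K 0 3 3 4 = 0 := h.y0 1 1 2
  have r0434 : K 0 4 3 4 = 0 := h.y0 2 1 2
  have r0534 : K 0 5 3 4 = 0 := h.y0 3 1 2
  have r1234 : K 1 2 3 4 = 0 := h.y1 0 1 2
  have r1334 : K 1 3 3 4 = 0 := h.y1 1 1 2
  have r1434 : K 1 4 3 4 = 0 := h.y1 2 1 2
  have r1534 : K 1 5 3 4 = 0 := h.y1 3 1 2
  have r2334 : K 2 3 3 4 = s 0 1 1 2 := h.ss 0 1 1 2
  have r2434 : K 2 4 3 4 = s 0 2 1 2 := h.ss 0 2 1 2
  have r2534 : K 2 5 3 4 = s 0 3 1 2 := h.ss 0 3 1 2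
  have r3434 : K 3 4 3 4 = s 1 2 1 2 := h.ss 1 2 1 2
  have r3534 : K 3 5 3 4 = s 1 2 1 3 := (h.ss 1 3 1 2).trans (h.sc.pair _ _ _ _)
  have r4534 : K 4 5 3 4 = s 1 2 2 3 := (h.ss 2 3 1 2).trans (h.sc.pair _ _ _ _)
  simp only [N6, A6, r0105, r0205, r0305, r0405, r0505, r1205, r1305, r1405, r1505,
    r2305, r2405, r2505, r3405, r3505, r4505, r0112, r0212, r0312,
    r0412, r0512, r1212, r1312, r1412, r1512, r2312, r2412, r2512,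
    r3412, r3512, r4512, r0134, r0234, r0334, r0434, r0534, r1234,
    r1334, r1434, r1534, r2334, r2434, r2534, r3434, r3534, r4534,
    mul_zero, zero_mul, add_zero, zero_add, sub_zero, zero_sub]
  ring

theorem col13 (h : Rot K k b s) : N6 (fun x y => K x y 0 5) (fun x y => K x y 1 3) (fun x y => K x y 2 4) =
    1 / 4 * b 0 1 * b 1 3 * s 0 2 2 3 - 1 / 4 * b 0 1 * b 2 3 * s 0 2 1 3 - 1 / 4 * b 0 3 * b 1 2 * s 0 2 1 3 + 1 / 4 * b 0 3 * b 1 3 * s 0 2 1 2 + 1 / 4 * b 1 2 * b 1 3 * s 0 2 0 3 - 1 / 4 * b 1 3 * b 1 3 * s 0 2 0 2 + 1 / 4 * b 1 3 * b 2 3 * s 0 1 0 2 - s 0 2 0 2 := by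
  have b0 : ∀ i, b i i = 0 := fun i => by linarith [h.bn i i]
  have r0105 : K 0 1 0 5 = 0 := h.z0 3
  have r0205 : K 0 2 0 5 = 0 := h.p0o 0 3 (by decide)
  have r0305 : K 0 3 0 5 = 0 := h.p0o 1 3 (by decide)
  have r0405 : K 0 4 0 5 = 0 := h.p0o 2 3 (by decide)
  have r0505 : K 0 5 0 5 = 1 := h.p0d 3
  have r1205 : K 1 2 0 5 = -(b 0 3 / 2) := ((h.pair _ _ _ _).trans (h.p01 3 0)).trans (by rw [h.bn 0 3, neg_div])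
  have r1305 : K 1 3 0 5 = -(b 1 3 / 2) := ((h.pair _ _ _ _).trans (h.p01 3 1)).trans (by rw [h.bn 1 3, neg_div])
  have r1405 : K 1 4 0 5 = -(b 2 3 / 2) := ((h.pair _ _ _ _).trans (h.p01 3 2)).trans (by rw [h.bn 2 3, neg_div])
  have r1505 : K 1 5 0 5 = 0 := ((h.pair _ _ _ _).trans (h.p01 3 3)).trans (by rw [b0 3, zero_div])
  have r2305 : K 2 3 0 5 = 0 := (h.pair _ _ _ _).trans (h.y0 3 0 1)
  have r2405 : K 2 4 0 5 = 0 := (h.pair _ _ _ _).trans (h.y0 3 0 2)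
  have r2505 : K 2 5 0 5 = 0 := (h.pair _ _ _ _).trans (h.y0 3 0 3)
  have r3405 : K 3 4 0 5 = 0 := (h.pair _ _ _ _).trans (h.y0 3 1 2)
  have r3505 : K 3 5 0 5 = 0 := (h.pair _ _ _ _).trans (h.y0 3 1 3)
  have r4505 : K 4 5 0 5 = 0 := (h.pair _ _ _ _).trans (h.y0 3 2 3)
  have r0113 : K 0 1 1 3 = 0 := h.z1 1
  have r0213 : K 0 2 1 3 = b 0 1 / 2 := h.p01 0 1
  have r0313 : K 0 3 1 3 = 0 := (h.p01 1 1).trans (by rw [b0 1, zero_div])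
  have r0413 : K 0 4 1 3 = -(b 1 2 / 2) := (h.p01 2 1).trans (by rw [h.bn 1 2, neg_div])
  have r0513 : K 0 5 1 3 = -(b 1 3 / 2) := (h.p01 3 1).trans (by rw [h.bn 1 3, neg_div])
  have r1213 : K 1 2 1 3 = 0 := h.p1o 0 1 (by decide)
  have r1313 : K 1 3 1 3 = 1 := h.p1d 1
  have r1413 : K 1 4 1 3 = 0 := h.p1o 2 1 (by decide)
  have r1513 : K 1 5 1 3 = 0 := h.p1o 3 1 (by decide)
  have r2313 : K 2 3 1 3 = 0 := (h.pair _ _ _ _).trans (h.y1 1 0 1)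
  have r2413 : K 2 4 1 3 = 0 := (h.pair _ _ _ _).trans (h.y1 1 0 2)
  have r2513 : K 2 5 1 3 = 0 := (h.pair _ _ _ _).trans (h.y1 1 0 3)
  have r3413 : K 3 4 1 3 = 0 := (h.pair _ _ _ _).trans (h.y1 1 1 2)
  have r3513 : K 3 5 1 3 = 0 := (h.pair _ _ _ _).trans (h.y1 1 1 3)
  have r4513 : K 4 5 1 3 = 0 := (h.pair _ _ _ _).trans (h.y1 1 2 3)
  have r0124 : K 0 1 2 4 = b 0 2 := h.pw 0 2
  have r0224 : K 0 2 2 4 = 0 := h.y0 0 0 2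
  have r0324 : K 0 3 2 4 = 0 := h.y0 1 0 2
  have r0424 : K 0 4 2 4 = 0 := h.y0 2 0 2
  have r0524 : K 0 5 2 4 = 0 := h.y0 3 0 2
  have r1224 : K 1 2 2 4 = 0 := h.y1 0 0 2
  have r1324 : K 1 3 2 4 = 0 := h.y1 1 0 2
  have r1424 : K 1 4 2 4 = 0 := h.y1 2 0 2
  have r1524 : K 1 5 2 4 = 0 := h.y1 3 0 2
  have r2324 : K 2 3 2 4 = s 0 1 0 2 := h.ss 0 1 0 2
  have r2424 : K 2 4 2 4 = s 0 2 0 2 := h.ss 0 2 0 2
  have r2524 : K 2 5 2 4 = s 0 2 0 3 := (h.ss 0 3 0 2).trans (h.sc.pair _ _ _ _)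
  have r3424 : K 3 4 2 4 = s 0 2 1 2 := (h.ss 1 2 0 2).trans (h.sc.pair _ _ _ _)
  have r3524 : K 3 5 2 4 = s 0 2 1 3 := (h.ss 1 3 0 2).trans (h.sc.pair _ _ _ _)
  have r4524 : K 4 5 2 4 = s 0 2 2 3 := (h.ss 2 3 0 2).trans (h.sc.pair _ _ _ _)
  simp only [N6, A6, r0105, r0205, r0305, r0405, r0505, r1205, r1305, r1405, r1505,
    r2305, r2405, r2505, r3405, r3505, r4505, r0113, r0213, r0313,
    r0413, r0513, r1213, r1313, r1413, r1513, r2313, r2413, r2513,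
    r3413, r3513, r4513, r0124, r0224, r0324, r0424, r0524, r1224,
    r1324, r1424, r1524, r2324, r2424, r2524, r3424, r3524, r4524,
    mul_zero, zero_mul, add_zero, zero_add, sub_zero, zero_sub]
  ring

theorem col14 (h : Rot K k b s) : N6 (fun x y => K x y 0 5) (fun x y => K x y 1 4) (fun x y => K x y 2 3) =
    1 / 4 * b 0 2 * b 1 3 * s 0 1 2 3 - 1 / 4 * b 0 2 * b 2 3 * s 0 1 1 3 - 1 / 4 * b 0 3 * b 1 2 * s 0 1 2 3 + 1 / 4 * b 0 3 * b 2 3 * s 0 1 1 2 + 1 / 4 * b 1 2 * b 2 3 * s 0 1 0 3 - 1 / 4 * b 1 3 * b 2 3 * s 0 1 0 2 + 1 / 4 * b 2 3 * b 2 3 * s 0 1 0 1 + s 0 1 0 1 := by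
  have b0 : ∀ i, b i i = 0 := fun i => by linarith [h.bn i i]
  have r0105 : K 0 1 0 5 = 0 := h.z0 3
  have r0205 : K 0 2 0 5 = 0 := h.p0o 0 3 (by decide)
  have r0305 : K 0 3 0 5 = 0 := h.p0o 1 3 (by decide)
  have r0405 : K 0 4 0 5 = 0 := h.p0o 2 3 (by decide)
  have r0505 : K 0 5 0 5 = 1 := h.p0d 3
  have r1205 : K 1 2 0 5 = -(b 0 3 / 2) := ((h.pair _ _ _ _).trans (h.p01 3 0)).trans (by rw [h.bn 0 3, neg_div])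
  have r1305 : K 1 3 0 5 = -(b 1 3 / 2) := ((h.pair _ _ _ _).trans (h.p01 3 1)).trans (by rw [h.bn 1 3, neg_div])
  have r1405 : K 1 4 0 5 = -(b 2 3 / 2) := ((h.pair _ _ _ _).trans (h.p01 3 2)).trans (by rw [h.bn 2 3, neg_div])
  have r1505 : K 1 5 0 5 = 0 := ((h.pair _ _ _ _).trans (h.p01 3 3)).trans (by rw [b0 3, zero_div])
  have r2305 : K 2 3 0 5 = 0 := (h.pair _ _ _ _).trans (h.y0 3 0 1)
  have r2405 : K 2 4 0 5 = 0 := (h.pair _ _ _ _).trans (h.y0 3 0 2)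
  have r2505 : K 2 5 0 5 = 0 := (h.pair _ _ _ _).trans (h.y0 3 0 3)
  have r3405 : K 3 4 0 5 = 0 := (h.pair _ _ _ _).trans (h.y0 3 1 2)
  have r3505 : K 3 5 0 5 = 0 := (h.pair _ _ _ _).trans (h.y0 3 1 3)
  have r4505 : K 4 5 0 5 = 0 := (h.pair _ _ _ _).trans (h.y0 3 2 3)
  have r0114 : K 0 1 1 4 = 0 := h.z1 2
  have r0214 : K 0 2 1 4 = b 0 2 / 2 := h.p01 0 2
  have r0314 : K 0 3 1 4 = b 1 2 / 2 := h.p01 1 2
  have r0414 : K 0 4 1 4 = 0 := (h.p01 2 2).trans (by rw [b0 2, zero_div])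
  have r0514 : K 0 5 1 4 = -(b 2 3 / 2) := (h.p01 3 2).trans (by rw [h.bn 2 3, neg_div])
  have r1214 : K 1 2 1 4 = 0 := h.p1o 0 2 (by decide)
  have r1314 : K 1 3 1 4 = 0 := h.p1o 1 2 (by decide)
  have r1414 : K 1 4 1 4 = 1 := h.p1d 2
  have r1514 : K 1 5 1 4 = 0 := h.p1o 3 2 (by decide)
  have r2314 : K 2 3 1 4 = 0 := (h.pair _ _ _ _).trans (h.y1 2 0 1)
  have r2414 : K 2 4 1 4 = 0 := (h.pair _ _ _ _).trans (h.y1 2 0 2)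
  have r2514 : K 2 5 1 4 = 0 := (h.pair _ _ _ _).trans (h.y1 2 0 3)
  have r3414 : K 3 4 1 4 = 0 := (h.pair _ _ _ _).trans (h.y1 2 1 2)
  have r3514 : K 3 5 1 4 = 0 := (h.pair _ _ _ _).trans (h.y1 2 1 3)
  have r4514 : K 4 5 1 4 = 0 := (h.pair _ _ _ _).trans (h.y1 2 2 3)
  have r0123 : K 0 1 2 3 = b 0 1 := h.pw 0 1
  have r0223 : K 0 2 2 3 = 0 := h.y0 0 0 1
  have r0323 : K 0 3 2 3 = 0 := h.y0 1 0 1
  have r0423 : K 0 4 2 3 = 0 := h.y0 2 0 1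
  have r0523 : K 0 5 2 3 = 0 := h.y0 3 0 1
  have r1223 : K 1 2 2 3 = 0 := h.y1 0 0 1
  have r1323 : K 1 3 2 3 = 0 := h.y1 1 0 1
  have r1423 : K 1 4 2 3 = 0 := h.y1 2 0 1
  have r1523 : K 1 5 2 3 = 0 := h.y1 3 0 1
  have r2323 : K 2 3 2 3 = s 0 1 0 1 := h.ss 0 1 0 1
  have r2423 : K 2 4 2 3 = s 0 1 0 2 := (h.ss 0 2 0 1).trans (h.sc.pair _ _ _ _)
  have r2523 : K 2 5 2 3 = s 0 1 0 3 := (h.ss 0 3 0 1).trans (h.sc.pair _ _ _ _)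
  have r3423 : K 3 4 2 3 = s 0 1 1 2 := (h.ss 1 2 0 1).trans (h.sc.pair _ _ _ _)
  have r3523 : K 3 5 2 3 = s 0 1 1 3 := (h.ss 1 3 0 1).trans (h.sc.pair _ _ _ _)
  have r4523 : K 4 5 2 3 = s 0 1 2 3 := (h.ss 2 3 0 1).trans (h.sc.pair _ _ _ _)
  simp only [N6, A6, r0105, r0205, r0305, r0405, r0505, r1205, r1305, r1405, r1505,
    r2305, r2405, r2505, r3405, r3505, r4505, r0114, r0214, r0314,
    r0414, r0514, r1214, r1314, r1414, r1514, r2314, r2414, r2514,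
    r3414, r3514, r4514, r0123, r0223, r0323, r0423, r0523, r1223,
    r1323, r1423, r1523, r2323, r2423, r2523, r3423, r3523, r4523,
    mul_zero, zero_mul, add_zero, zero_add, sub_zero, zero_sub]
  ring

end cols

/-- the discriminant of a tensor in dimension four -/
def tau (s : Q4) : ℝ :=
  2 * (sp (s 0 1) (s 2 3) - sp (s 0 2) (s 1 3) + sp (s 0 3) (s 1 2))

/-- the quadratic form of a tensor at the dual of a form -/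
def qst (s : Q4) (b : Fin 4 → Fin 4 → ℝ) : ℝ :=
  sp b (fun i j => sp b (s i j))

/-- the trace of a tensor on the forms -/
def tr2 (s : Q4) : ℝ :=
  s 0 1 0 1 + s 0 2 0 2 + s 0 3 0 3 + s 1 2 1 2 + s 1 3 1 3 + s 2 3 2 3

/-- **The Gauss–Bonnet–Chern sum.** -/
theorem G6_rot {K : T6} {k : ℝ} {b : Fin 4 → Fin 4 → ℝ} {s : Q4} (h : Rot K k b s) :
    G6 K = 192 * (k * tau s + 3 * qst s b + 4 * tr2 s) := by
  have h34 : ∀ i j k l, K i j l k = - K i j k l := fun i j k l => by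
    rw [← h.pair i j l k, h.a12, h.pair]
  have s34 : ∀ i j k l, s i j l k = - s i j k l := fun i j k l => by
    rw [← h.sc.pair i j l k, h.sc.a12, h.sc.pair]
  have hb := h.sc.bia 0 1 2 3
  have hb1 : s 1 2 0 3 = s 0 3 1 2 := h.sc.pair _ _ _ _
  have hb2 : s 2 0 1 3 = - s 0 2 1 3 := h.sc.a12 _ _ _ _
  rw [hb1, hb2] at hb
  have h3 := A6_symm (fun a b c d e f =>
      N6 (fun x y => K x y a b) (fun x y => K x y c d) (fun x y => K x y e f))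
    (fun a b c d e f => N6_12 _ _ _) (fun a b c d e f => N6_23 _ _ _)
  beta_reduce at h3
  rw [G6_eq h.a12 h34, h3]
  rw [col0 h, col1 h, col2 h, col3 h, col4 h, col5 h, col6 h, col7 h, col8 h, col9 h, col10 h, col11 h, col12 h, col13 h, col14 h]
  have q0201 : s 0 2 0 1 = s 0 1 0 2 := h.sc.pair _ _ _ _
  have q0301 : s 0 3 0 1 = s 0 1 0 3 := h.sc.pair _ _ _ _
  have q0302 : s 0 3 0 2 = s 0 2 0 3 := h.sc.pair _ _ _ _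
  have q1201 : s 1 2 0 1 = s 0 1 1 2 := h.sc.pair _ _ _ _
  have q1202 : s 1 2 0 2 = s 0 2 1 2 := h.sc.pair _ _ _ _
  have q1203 : s 1 2 0 3 = s 0 3 1 2 := h.sc.pair _ _ _ _
  have q1301 : s 1 3 0 1 = s 0 1 1 3 := h.sc.pair _ _ _ _
  have q1302 : s 1 3 0 2 = s 0 2 1 3 := h.sc.pair _ _ _ _
  have q1303 : s 1 3 0 3 = s 0 3 1 3 := h.sc.pair _ _ _ _
  have q1312 : s 1 3 1 2 = s 1 2 1 3 := h.sc.pair _ _ _ _
  have q2301 : s 2 3 0 1 = s 0 1 2 3 := h.sc.pair _ _ _ _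
  have q2302 : s 2 3 0 2 = s 0 2 2 3 := h.sc.pair _ _ _ _
  have q2303 : s 2 3 0 3 = s 0 3 2 3 := h.sc.pair _ _ _ _
  have q2312 : s 2 3 1 2 = s 1 2 2 3 := h.sc.pair _ _ _ _
  have q2313 : s 2 3 1 3 = s 1 3 2 3 := h.sc.pair _ _ _ _
  simp only [tau, qst, tr2, sp, q0201, q0301, q0302, q1201, q1202, q1203, q1301, q1302,
    q1303, q1312, q2301, q2302, q2303, q2312, q2313]
  linear_combination (-384 * (b 0 1 * b 2 3 - b 0 2 * b 1 3 + b 0 3 * b 1 2)) * hb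

end Pool.Agent.H70PR
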