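import Pool.Agent.H70PR.Idn
import Pool.Agent.W140.HD.SQ4

/-!
# The inequality in dimension four
-/

set_option autoImplicit false
set_option linter.unusedSimpArgs false

namespace Pool.Agent.H70PR

open Finset Pool.Agent.W666.GB Pool.Agent.W669.HD Pool.Agent.W976.HD
open Pool.Agent.W975.HD (SM PP PP_wedge pf eps_vals SM_swap1 SM_swap2)
open Pool.Agent.W155.HD.K4 (sp_eps kap_sp k4)

theorem cur34 {P : Q4} (hP : Cur4 P) (i j k l : Fin 4) : P i j l k = - P i j k l := by
  rw [← hP.pair i j l k, hP.a12, hP.pair]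

theorem kap_tau {P : Q4} (hP : Cur4 P) : kap P = 16 * tau P := by
  have h34 := cur34 hP
  rw [kap_sp P h34]
  have h1 := sum4' fun a b c d => 4 * sp (P a b) (P c d)
  rw [h1]
  have q10 : ∀ i j, P 1 0 i j = - P 0 1 i j := fun i j => hP.a12 _ _ _ _
  have q20 : ∀ i j, P 2 0 i j = - P 0 2 i j := fun i j => hP.a12 _ _ _ _
  have q30 : ∀ i j, P 3 0 i j = - P 0 3 i j := fun i j => hP.a12 _ _ _ _
  have q21 : ∀ i j, P 2 1 i j = - P 1 2 i j := fun i j => hP.a12 _ _ _ _
  have q31 : ∀ i j, P 3 1 i j = - P 1 3 i j := fun i j => hP.a12 _ _ _ _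
  have q32 : ∀ i j, P 3 2 i j = - P 2 3 i j := fun i j => hP.a12 _ _ _ _
  simp only [A4, sp, tau, q10, q20, q30, q21, q31, q32]
  ring

theorem eps_ij (i j : Fin 4) : eps i j i j = 0 := by
  rw [eps_vals]
  ring

theorem pf_le (m : Fin 4 → Fin 4 → ℝ) : 2 * |pf m| ≤
    m 0 1 * m 0 1 + m 0 2 * m 0 2 + m 0 3 * m 0 3 + m 1 2 * m 1 2 + m 1 3 * m 1 3 +
      m 2 3 * m 2 3 := by
  unfold pf
  rcases abs_cases (m 0 1 * m 2 3 - m 0 2 * m 1 3 + m 0 3 * m 1 2) with ⟨h, _⟩ | ⟨h, _⟩
  · rw [h]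
    nlinarith [sq_nonneg (m 0 1 - m 2 3), sq_nonneg (m 0 2 + m 1 3), sq_nonneg (m 0 3 - m 1 2)]
  · rw [h]
    nlinarith [sq_nonneg (m 0 1 + m 2 3), sq_nonneg (m 0 2 - m 1 3), sq_nonneg (m 0 3 + m 1 2)]

theorem sp_sum {n : ℕ} (b : Fin 4 → Fin 4 → ℝ) (f : Fin n → Fin 4 → Fin 4 → ℝ) (c : Fin n → ℝ) :
    sp b (fun i j => ∑ a, c a * f a i j) = ∑ a, c a * sp b (f a) := by
  simp only [sp, Finset.mul_sum, ← Finset.sum_add_distrib, ← Finset.sum_sub_distrib]
  exact Finset.sum_congr rfl fun a _ => by ring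

/-- **Lemma.** The three bounds for a tensor of nonnegative sectional curvature in dimension
four. -/
theorem lemL {P : Q4} (hP : Cur4 P) (hs : Sec4 P) {b : Fin 4 → Fin 4 → ℝ}
    (hb : ∀ i j, b j i = - b i j) : ∃ t : ℝ, 6 * t ^ 2 ≤ tau P ∧ 6 * |t| ≤ tr2 P ∧
      -(2 * t * pf b) ≤ qst P b := by
  obtain ⟨t, n, μ, hμ, hK⟩ := Pool.Agent.W140.HD.SQ4.sq4 P hP hs
  have h4 := k4 P (fun i j k l => P i j k l + t * eps i j k l) t n μ hP (fun i j k l => rfl) hμ hK
  obtain ⟨k1, k2, -⟩ := h4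
  rw [kap_tau hP] at k1
  rw [kap_eps] at k1 k2
  refine ⟨t, by linarith, ?_, ?_⟩
  · -- the trace
    have e : ∀ i j, P i j i j = ∑ a, μ a i j * μ a i j := by
      intro i j
      have h := hK i j i j
      rwa [eps_ij, mul_zero, add_zero] at h
    have h1 : tr2 P = ∑ a, (μ a 0 1 * μ a 0 1 + μ a 0 2 * μ a 0 2 + μ a 0 3 * μ a 0 3 +
        μ a 1 2 * μ a 1 2 + μ a 1 3 * μ a 1 3 + μ a 2 3 * μ a 2 3) := by
      simp only [tr2, e, Finset.sum_add_distrib]
    have h2 : 3 * t = ∑ a, pf (μ a) := by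
      have b1 := hP.bia 0 1 2 3
      have hb1 : P 1 2 0 3 = P 0 3 1 2 := hP.pair _ _ _ _
      have hb2 : P 2 0 1 3 = - P 0 2 1 3 := hP.a12 _ _ _ _
      have c1 := hK 0 1 2 3
      have c2 := hK 0 2 1 3
      have c3 := hK 0 3 1 2
      rw [eps_vals] at c1 c2 c3
      norm_num at c1 c2 c3
      have : ∑ a, pf (μ a) = (∑ a, μ a 0 1 * μ a 2 3) - (∑ a, μ a 0 2 * μ a 1 3) +
          ∑ a, μ a 0 3 * μ a 1 2 := by
        rw [← Finset.sum_sub_distrib, ← Finset.sum_add_distrib]
        rfl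
      rw [this, ← c1, ← c2, ← c3]
      linarith
    have h3 : 6 * |t| = 2 * |∑ a, pf (μ a)| := by
      rw [← h2, abs_mul]
      norm_num
      ring
    rw [h3, h1]
    calc 2 * |∑ a, pf (μ a)| ≤ 2 * ∑ a, |pf (μ a)| :=
          mul_le_mul_of_nonneg_left (Finset.abs_sum_le_sum_abs _ _) (by norm_num)
      _ = ∑ a, 2 * |pf (μ a)| := by rw [Finset.mul_sum]
      _ ≤ _ := Finset.sum_le_sum fun a _ => pf_le (μ a)
  · -- the value at the dual of `b`
    have h1 : ∀ i j, sp b (P i j) = (∑ a, μ a i j * sp b (μ a)) - t * b i j := by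
      intro i j
      rw [← sp_sum b μ (fun a => μ a i j), ← sp_eps b hb i j]
      have h2 : P i j = fun k l => (∑ a, μ a i j * μ a k l) - t * eps i j k l := by
        funext k l
        rw [← hK]
        ring
      rw [h2]
      simp only [sp]
      ring
    have h2 : qst P b = (∑ a, sp b (μ a) ^ 2) - t * (2 * pf b) := by
      unfold qst
      simp only [h1]
      have h3 : sp b (fun i j => (∑ a, μ a i j * sp b (μ a)) - t * b i j) =
          sp b (fun i j => ∑ a, sp b (μ a) * μ a i j) - t * sp b b := by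
        simp only [sp, mul_comm]
        ring
      rw [h3, sp_sum]
      congr 1
      · exact Finset.sum_congr rfl fun a _ => by ring
      · unfold sp pf
        ring
    rw [h2]
    have : 0 ≤ ∑ a, sp b (μ a) ^ 2 := Finset.sum_nonneg fun a _ => sq_nonneg _
    linarith

theorem SM_smul (P : Q4) (x y : Fin 4 → ℝ) (c d : ℝ) :
    SM P (fun i => c * x i) (fun i => d * y i) (fun i => c * x i) (fun i => d * y i) =
      c ^ 2 * d ^ 2 * SM P x y x y := by
  unfold SM
  simp only [Finset.mul_sum]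
  exact Finset.sum_congr rfl fun i _ => Finset.sum_congr rfl fun j _ =>
    Finset.sum_congr rfl fun k _ => Finset.sum_congr rfl fun l _ => by ring

theorem SM_wedge {P : Q4} (h1 : ∀ i j k l, P j i k l = - P i j k l)
    (h2 : ∀ i j k l, P i j l k = - P i j k l) (x y x' y' : Fin 4 → ℝ) (c : ℝ)
    (h : ∀ k l, x' k * y' l - x' l * y' k = c * (x k * y l - x l * y k)) :
    SM P x' y' x' y' = c ^ 2 * SM P x y x y := by
  have e1 := PP_wedge h1 h2 x' y' (x := fun k l => x' k * y' l - x' l * y' k) (fun _ _ => rfl)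
  have e2 := PP_wedge h1 h2 x y (x := fun k l => x k * y l - x l * y k) (fun _ _ => rfl)
  have e3 : PP P (fun k l => x' k * y' l - x' l * y' k) =
      c ^ 2 * PP P (fun k l => x k * y l - x l * y k) := by
    unfold PP
    simp only [h, Finset.mul_sum]
    exact Finset.sum_congr rfl fun i _ => Finset.sum_congr rfl fun j _ =>
      Finset.sum_congr rfl fun k _ => Finset.sum_congr rfl fun l _ => by ring
  rw [e1, e2] at e3
  linarith

/-- Nonnegative values on orthonormal pairs suffice. -/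
theorem sec_of_on {P : Q4} (h1 : ∀ i j k l, P j i k l = - P i j k l)
    (h2 : ∀ i j k l, P i j l k = - P i j k l)
    (h : ∀ u v : Fin 4 → ℝ, ∑ i, u i ^ 2 = 1 → ∑ i, v i ^ 2 = 1 → ∑ i, u i * v i = 0 →
      0 ≤ SM P u v u v) : Sec4 P := by
  intro x y
  change 0 ≤ SM P x y x y
  obtain ⟨X, hX⟩ : ∃ X, X = ∑ i, x i ^ 2 := ⟨_, rfl⟩
  have hX0 : 0 ≤ X := by rw [hX]; exact Finset.sum_nonneg fun i _ => sq_nonneg _
  rcases hX0.eq_or_lt with h0 | hpos
  · have hx : ∀ i, x i = 0 := by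
      intro i
      have h3 : ∑ i, x i ^ 2 = 0 := by rw [← hX, ← h0]
      have h4 := (Finset.sum_eq_zero_iff_of_nonneg (fun i _ => sq_nonneg (x i))).1 h3 i
        (Finset.mem_univ i)
      exact pow_eq_zero_iff (by norm_num) |>.1 h4
    have : SM P x y x y = 0 := by
      unfold SM
      simp [hx]
    rw [this]
  obtain ⟨Z, hZ⟩ : ∃ Z, Z = ∑ i, x i * y i := ⟨_, rfl⟩
  obtain ⟨w, hw⟩ : ∃ w : Fin 4 → ℝ, w = fun i => X * y i - Z * x i := ⟨_, rfl⟩
  have hwe := SM_wedge h1 h2 x y x w X (fun k l => by rw [hw]; ring)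
  have horth : ∑ i, x i * w i = 0 := by
    have : ∑ i, x i * w i = X * (∑ i, x i * y i) - Z * ∑ i, x i ^ 2 := by
      rw [hw, Finset.mul_sum, Finset.mul_sum, ← Finset.sum_sub_distrib]
      exact Finset.sum_congr rfl fun i _ => by ring
    rw [this, ← hZ, ← hX]
    ring
  obtain ⟨Y, hY⟩ : ∃ Y, Y = ∑ i, w i ^ 2 := ⟨_, rfl⟩
  have hY0 : 0 ≤ Y := by rw [hY]; exact Finset.sum_nonneg fun i _ => sq_nonneg _
  have key : 0 ≤ SM P x w x w := by
    rcases hY0.eq_or_lt with h0 | hYpos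
    · have hx : ∀ i, w i = 0 := by
        intro i
        have h3 : ∑ i, w i ^ 2 = 0 := by rw [← hY, ← h0]
        have h4 := (Finset.sum_eq_zero_iff_of_nonneg (fun i _ => sq_nonneg (w i))).1 h3 i
          (Finset.mem_univ i)
        exact pow_eq_zero_iff (by norm_num) |>.1 h4
      have : SM P x w x w = 0 := by
        unfold SM
        simp [hx]
      rw [this]
    · have sX := Real.sq_sqrt hX0
      have sY := Real.sq_sqrt hY0
      have pX := Real.sqrt_pos.2 hpos
      have pY := Real.sqrt_pos.2 hYpos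
      have h3 := h (fun i => (Real.sqrt X)⁻¹ * x i) (fun i => (Real.sqrt Y)⁻¹ * w i) ?_ ?_ ?_
      · rw [SM_smul] at h3
        have h5 : 0 < (Real.sqrt X)⁻¹ ^ 2 * (Real.sqrt Y)⁻¹ ^ 2 := by positivity
        exact nonneg_of_mul_nonneg_right h3 h5
      · simp only [mul_pow, ← Finset.mul_sum]
        rw [← hX, inv_pow, sX]
        exact inv_mul_cancel₀ hpos.ne'
      · simp only [mul_pow, ← Finset.mul_sum]
        rw [← hY, inv_pow, sY]
        exact inv_mul_cancel₀ hYpos.ne'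
      · have : ∑ i, (Real.sqrt X)⁻¹ * x i * ((Real.sqrt Y)⁻¹ * w i) =
            (Real.sqrt X)⁻¹ * (Real.sqrt Y)⁻¹ * ∑ i, x i * w i := by
          rw [Finset.mul_sum]
          exact Finset.sum_congr rfl fun i _ => by ring
        rw [this, horth, mul_zero]
  rw [hwe] at key
  have : 0 < X ^ 2 := by positivity
  exact nonneg_of_mul_nonneg_right key this

/-- the value of a form on a pair of vectors -/
def bv (b : Fin 4 → Fin 4 → ℝ) (u v : Fin 4 → ℝ) : ℝ := ∑ i, ∑ j, b i j * (u i * v j)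

/-- the tensor of constant curvature one -/
def uni : Q4 := fun i j k l =>
  (if i = k then 1 else 0) * (if j = l then 1 else 0) -
    (if i = l then 1 else 0) * (if j = k then 1 else 0)

/-- the modified tensor -/
noncomputable def sg (k : ℝ) (s : Q4) (b : Fin 4 → Fin 4 → ℝ) : Q4 := fun i j l m =>
  k * s i j l m - b i j * b l m + pf b / 3 * eps i j l m + 4 / 5 * uni i j l m

theorem bb_bia {b : Fin 4 → Fin 4 → ℝ} (hx : ∀ i j, b j i = - b i j) (i j k l : Fin 4) :
    b i j * b k l + b j k * b i l + b k i * b j l = pf b * eps i j k l := by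
  unfold pf
  have h10 := hx 0 1
  have h20 := hx 0 2
  have h30 := hx 0 3
  have h21 := hx 1 2
  have h31 := hx 1 3
  have h32 := hx 2 3
  have d0 := Pool.Agent.W975.HD.diag_zero hx 0
  have d1 := Pool.Agent.W975.HD.diag_zero hx 1
  have d2 := Pool.Agent.W975.HD.diag_zero hx 2
  have d3 := Pool.Agent.W975.HD.diag_zero hx 3
  rw [eps_vals]
  fin_cases i <;> fin_cases j <;> fin_cases k <;> fin_cases l <;>
    simp only [Fin.mk_zero, Fin.mk_one, Fin.reduceFinMk, Fin.zero_eta, h10, h20, h30, h21, h31,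
      h32, d0, d1, d2, d3] <;> norm_num <;> ring

theorem sg_cur {k : ℝ} {s : Q4} {b : Fin 4 → Fin 4 → ℝ} (hs : Cur4 s)
    (hb : ∀ i j, b j i = - b i j) : Cur4 (sg k s b) := by
  constructor
  · intro i j l m
    unfold sg uni
    rw [hs.a12 i j, hb i j, Pool.Agent.W140.HD.SQ4.eps_anti i j]
    ring
  · intro i j l m
    unfold sg uni
    rw [hs.pair i j l m, Pool.Agent.W140.HD.SQ4.eps_pair i j l m]
    simp only [@eq_comm _ l i, @eq_comm _ l j, @eq_comm _ m i, @eq_comm _ m j]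
    ring
  · intro i j l m
    unfold sg uni
    have h1 := hs.bia i j l m
    have h2 := bb_bia hb i j l m
    have h3 : eps j l i m = eps i j l m := by
      rw [eps_vals, eps_vals]; ring
    have h4 : eps l i j m = eps i j l m := by
      rw [eps_vals, eps_vals]; ring
    rw [h3, h4]
    simp only [@eq_comm _ l i, @eq_comm _ l j, @eq_comm _ j i]
    linear_combination k * h1 - h2

theorem SM_eps (u v : Fin 4 → ℝ) : SM eps u v u v = 0 := by
  unfold SM
  simp only [eps_vals, Fin.sum_univ_four]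
  norm_num
  ring

theorem SM_uni (u v : Fin 4 → ℝ) : SM uni u v u v =
    (∑ i, u i ^ 2) * (∑ i, v i ^ 2) - (∑ i, u i * v i) ^ 2 := by
  have h : ∀ i j : Fin 4, ∑ k, ∑ l, uni i j k l * (u i * v j * u k * v l) =
      u i ^ 2 * v j ^ 2 - (u i * v i) * (u j * v j) := by
    intro i j
    have h1 : ∀ k l : Fin 4, uni i j k l * (u i * v j * u k * v l) =
        (if i = k then (if j = l then u i * v j * u k * v l else 0) else 0) -
        (if j = k then (if i = l then u i * v j * u k * v l else 0) else 0) := by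
      intro k l
      unfold uni
      split_ifs <;> ring
    simp only [h1, Finset.sum_sub_distrib]
    rw [Finset.sum_comm]
    simp
    ring
  unfold SM
  simp only [h]
  simp only [Finset.sum_sub_distrib]
  rw [Finset.sum_mul_sum, sq, Finset.sum_mul_sum]

theorem SM_bb (b : Fin 4 → Fin 4 → ℝ) (u v : Fin 4 → ℝ) :
    SM (fun i j k l => b i j * b k l) u v u v = bv b u v ^ 2 := by
  have h : SM (fun i j k l => b i j * b k l) u v u v =
      ∑ i, ∑ j, (b i j * (u i * v j)) * bv b u v := by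
    unfold SM bv
    refine Finset.sum_congr rfl fun i _ => Finset.sum_congr rfl fun j _ => ?_
    rw [Finset.mul_sum]
    refine Finset.sum_congr rfl fun k _ => ?_
    rw [Finset.mul_sum]
    refine Finset.sum_congr rfl fun l _ => ?_
    ring
  rw [h, sq]
  simp only [← Finset.sum_mul]
  rfl

end Pool.Agent.H70PR
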