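import Pool.Agent.H70PR.Ineq

/-!
# The inequality for a tensor invariant under the rotations of a plane
-/

set_option autoImplicit false
set_option linter.unusedSimpArgs false

namespace Pool.Agent.H70PR

open Finset Pool.Agent.W666.GB Pool.Agent.W669.HD Pool.Agent.W976.HD
open Pool.Agent.W975.HD (SM PP PP_wedge pf eps_vals)

theorem sg_SM (k : ℝ) (s : Q4) (b : Fin 4 → Fin 4 → ℝ) (u v : Fin 4 → ℝ) :
    SM (sg k s b) u v u v = k * SM s u v u v - bv b u v ^ 2 +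
      4 / 5 * ((∑ i, u i ^ 2) * (∑ i, v i ^ 2) - (∑ i, u i * v i) ^ 2) := by
  have h : SM (sg k s b) u v u v = k * SM s u v u v - SM (fun i j k l => b i j * b k l) u v u v +
      pf b / 3 * SM eps u v u v + 4 / 5 * SM uni u v u v := by
    unfold SM sg
    simp only [Finset.mul_sum, ← Finset.sum_sub_distrib, ← Finset.sum_add_distrib]
    exact Finset.sum_congr rfl fun i _ => Finset.sum_congr rfl fun j _ =>
      Finset.sum_congr rfl fun k _ => Finset.sum_congr rfl fun l _ => by ring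
  rw [h, SM_bb, SM_eps, SM_uni]
  ring

theorem sg_poly (k : ℝ) {s : Q4} {b : Fin 4 → Fin 4 → ℝ} (hs : Cur4 s) :
    k * (k * tau s + 3 * qst s b + 4 * tr2 s) = tau (sg k s b) + 5 * qst (sg k s b) b +
      12 / 5 * tr2 (sg k s b) + 40 / 3 * pf b ^ 2 - 384 / 25 := by
  have hb := hs.bia 0 1 2 3
  have hb1 : s 1 2 0 3 = s 0 3 1 2 := hs.pair _ _ _ _
  have hb2 : s 2 0 1 3 = - s 0 2 1 3 := hs.a12 _ _ _ _
  rw [hb1, hb2] at hb
  have e1 : ∀ i j l m : Fin 4, sg k s b i j l m =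
      k * s i j l m - b i j * b l m + pf b / 3 * eps i j l m + 4 / 5 * uni i j l m :=
    fun _ _ _ _ => rfl
  have g0101 : sg k s b 0 1 0 1 = k * s 0 1 0 1 - b 0 1 * b 0 1 + 4 / 5 := by
    rw [e1, show eps 0 1 0 1 = (0 : ℝ) by rw [eps_vals]; norm_num,
      show uni 0 1 0 1 = (1 : ℝ) by simp [uni]]; ring
  have g0102 : sg k s b 0 1 0 2 = k * s 0 1 0 2 - b 0 1 * b 0 2 := by
    rw [e1, show eps 0 1 0 2 = (0 : ℝ) by rw [eps_vals]; norm_num,
      show uni 0 1 0 2 = (0 : ℝ) by simp [uni]]; ring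
  have g0103 : sg k s b 0 1 0 3 = k * s 0 1 0 3 - b 0 1 * b 0 3 := by
    rw [e1, show eps 0 1 0 3 = (0 : ℝ) by rw [eps_vals]; norm_num,
      show uni 0 1 0 3 = (0 : ℝ) by simp [uni]]; ring
  have g0112 : sg k s b 0 1 1 2 = k * s 0 1 1 2 - b 0 1 * b 1 2 := by
    rw [e1, show eps 0 1 1 2 = (0 : ℝ) by rw [eps_vals]; norm_num,
      show uni 0 1 1 2 = (0 : ℝ) by simp [uni]]; ring
  have g0113 : sg k s b 0 1 1 3 = k * s 0 1 1 3 - b 0 1 * b 1 3 := by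
    rw [e1, show eps 0 1 1 3 = (0 : ℝ) by rw [eps_vals]; norm_num,
      show uni 0 1 1 3 = (0 : ℝ) by simp [uni]]; ring
  have g0123 : sg k s b 0 1 2 3 = k * s 0 1 2 3 - b 0 1 * b 2 3 + pf b / 3 := by
    rw [e1, show eps 0 1 2 3 = (1 : ℝ) by rw [eps_vals]; norm_num,
      show uni 0 1 2 3 = (0 : ℝ) by simp [uni]]; ring
  have g0201 : sg k s b 0 2 0 1 = k * s 0 1 0 2 - b 0 2 * b 0 1 := by
    rw [e1, show eps 0 2 0 1 = (0 : ℝ) by rw [eps_vals]; norm_num,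
      show uni 0 2 0 1 = (0 : ℝ) by simp [uni], hs.pair 0 1 0 2]; ring
  have g0202 : sg k s b 0 2 0 2 = k * s 0 2 0 2 - b 0 2 * b 0 2 + 4 / 5 := by
    rw [e1, show eps 0 2 0 2 = (0 : ℝ) by rw [eps_vals]; norm_num,
      show uni 0 2 0 2 = (1 : ℝ) by simp [uni]]; ring
  have g0203 : sg k s b 0 2 0 3 = k * s 0 2 0 3 - b 0 2 * b 0 3 := by
    rw [e1, show eps 0 2 0 3 = (0 : ℝ) by rw [eps_vals]; norm_num,
      show uni 0 2 0 3 = (0 : ℝ) by simp [uni]]; ring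
  have g0212 : sg k s b 0 2 1 2 = k * s 0 2 1 2 - b 0 2 * b 1 2 := by
    rw [e1, show eps 0 2 1 2 = (0 : ℝ) by rw [eps_vals]; norm_num,
      show uni 0 2 1 2 = (0 : ℝ) by simp [uni]]; ring
  have g0213 : sg k s b 0 2 1 3 = k * s 0 2 1 3 - b 0 2 * b 1 3 - pf b / 3 := by
    rw [e1, show eps 0 2 1 3 = (-1 : ℝ) by rw [eps_vals]; norm_num,
      show uni 0 2 1 3 = (0 : ℝ) by simp [uni]]; ring
  have g0223 : sg k s b 0 2 2 3 = k * s 0 2 2 3 - b 0 2 * b 2 3 := by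
    rw [e1, show eps 0 2 2 3 = (0 : ℝ) by rw [eps_vals]; norm_num,
      show uni 0 2 2 3 = (0 : ℝ) by simp [uni]]; ring
  have g0301 : sg k s b 0 3 0 1 = k * s 0 1 0 3 - b 0 3 * b 0 1 := by
    rw [e1, show eps 0 3 0 1 = (0 : ℝ) by rw [eps_vals]; norm_num,
      show uni 0 3 0 1 = (0 : ℝ) by simp [uni], hs.pair 0 1 0 3]; ring
  have g0302 : sg k s b 0 3 0 2 = k * s 0 2 0 3 - b 0 3 * b 0 2 := by
    rw [e1, show eps 0 3 0 2 = (0 : ℝ) by rw [eps_vals]; norm_num,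
      show uni 0 3 0 2 = (0 : ℝ) by simp [uni], hs.pair 0 2 0 3]; ring
  have g0303 : sg k s b 0 3 0 3 = k * s 0 3 0 3 - b 0 3 * b 0 3 + 4 / 5 := by
    rw [e1, show eps 0 3 0 3 = (0 : ℝ) by rw [eps_vals]; norm_num,
      show uni 0 3 0 3 = (1 : ℝ) by simp [uni]]; ring
  have g0312 : sg k s b 0 3 1 2 = k * s 0 3 1 2 - b 0 3 * b 1 2 + pf b / 3 := by
    rw [e1, show eps 0 3 1 2 = (1 : ℝ) by rw [eps_vals]; norm_num,
      show uni 0 3 1 2 = (0 : ℝ) by simp [uni]]; ring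
  have g0313 : sg k s b 0 3 1 3 = k * s 0 3 1 3 - b 0 3 * b 1 3 := by
    rw [e1, show eps 0 3 1 3 = (0 : ℝ) by rw [eps_vals]; norm_num,
      show uni 0 3 1 3 = (0 : ℝ) by simp [uni]]; ring
  have g0323 : sg k s b 0 3 2 3 = k * s 0 3 2 3 - b 0 3 * b 2 3 := by
    rw [e1, show eps 0 3 2 3 = (0 : ℝ) by rw [eps_vals]; norm_num,
      show uni 0 3 2 3 = (0 : ℝ) by simp [uni]]; ring
  have g1201 : sg k s b 1 2 0 1 = k * s 0 1 1 2 - b 1 2 * b 0 1 := by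
    rw [e1, show eps 1 2 0 1 = (0 : ℝ) by rw [eps_vals]; norm_num,
      show uni 1 2 0 1 = (0 : ℝ) by simp [uni], hs.pair 0 1 1 2]; ring
  have g1202 : sg k s b 1 2 0 2 = k * s 0 2 1 2 - b 1 2 * b 0 2 := by
    rw [e1, show eps 1 2 0 2 = (0 : ℝ) by rw [eps_vals]; norm_num,
      show uni 1 2 0 2 = (0 : ℝ) by simp [uni], hs.pair 0 2 1 2]; ring
  have g1203 : sg k s b 1 2 0 3 = k * s 0 3 1 2 - b 1 2 * b 0 3 + pf b / 3 := by
    rw [e1, show eps 1 2 0 3 = (1 : ℝ) by rw [eps_vals]; norm_num,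
      show uni 1 2 0 3 = (0 : ℝ) by simp [uni], hs.pair 0 3 1 2]; ring
  have g1212 : sg k s b 1 2 1 2 = k * s 1 2 1 2 - b 1 2 * b 1 2 + 4 / 5 := by
    rw [e1, show eps 1 2 1 2 = (0 : ℝ) by rw [eps_vals]; norm_num,
      show uni 1 2 1 2 = (1 : ℝ) by simp [uni]]; ring
  have g1213 : sg k s b 1 2 1 3 = k * s 1 2 1 3 - b 1 2 * b 1 3 := by
    rw [e1, show eps 1 2 1 3 = (0 : ℝ) by rw [eps_vals]; norm_num,
      show uni 1 2 1 3 = (0 : ℝ) by simp [uni]]; ring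
  have g1223 : sg k s b 1 2 2 3 = k * s 1 2 2 3 - b 1 2 * b 2 3 := by
    rw [e1, show eps 1 2 2 3 = (0 : ℝ) by rw [eps_vals]; norm_num,
      show uni 1 2 2 3 = (0 : ℝ) by simp [uni]]; ring
  have g1301 : sg k s b 1 3 0 1 = k * s 0 1 1 3 - b 1 3 * b 0 1 := by
    rw [e1, show eps 1 3 0 1 = (0 : ℝ) by rw [eps_vals]; norm_num,
      show uni 1 3 0 1 = (0 : ℝ) by simp [uni], hs.pair 0 1 1 3]; ring
  have g1302 : sg k s b 1 3 0 2 = k * s 0 2 1 3 - b 1 3 * b 0 2 - pf b / 3 := by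
    rw [e1, show eps 1 3 0 2 = (-1 : ℝ) by rw [eps_vals]; norm_num,
      show uni 1 3 0 2 = (0 : ℝ) by simp [uni], hs.pair 0 2 1 3]; ring
  have g1303 : sg k s b 1 3 0 3 = k * s 0 3 1 3 - b 1 3 * b 0 3 := by
    rw [e1, show eps 1 3 0 3 = (0 : ℝ) by rw [eps_vals]; norm_num,
      show uni 1 3 0 3 = (0 : ℝ) by simp [uni], hs.pair 0 3 1 3]; ring
  have g1312 : sg k s b 1 3 1 2 = k * s 1 2 1 3 - b 1 3 * b 1 2 := by
    rw [e1, show eps 1 3 1 2 = (0 : ℝ) by rw [eps_vals]; norm_num,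
      show uni 1 3 1 2 = (0 : ℝ) by simp [uni], hs.pair 1 2 1 3]; ring
  have g1313 : sg k s b 1 3 1 3 = k * s 1 3 1 3 - b 1 3 * b 1 3 + 4 / 5 := by
    rw [e1, show eps 1 3 1 3 = (0 : ℝ) by rw [eps_vals]; norm_num,
      show uni 1 3 1 3 = (1 : ℝ) by simp [uni]]; ring
  have g1323 : sg k s b 1 3 2 3 = k * s 1 3 2 3 - b 1 3 * b 2 3 := by
    rw [e1, show eps 1 3 2 3 = (0 : ℝ) by rw [eps_vals]; norm_num,
      show uni 1 3 2 3 = (0 : ℝ) by simp [uni]]; ring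
  have g2301 : sg k s b 2 3 0 1 = k * s 0 1 2 3 - b 2 3 * b 0 1 + pf b / 3 := by
    rw [e1, show eps 2 3 0 1 = (1 : ℝ) by rw [eps_vals]; norm_num,
      show uni 2 3 0 1 = (0 : ℝ) by simp [uni], hs.pair 0 1 2 3]; ring
  have g2302 : sg k s b 2 3 0 2 = k * s 0 2 2 3 - b 2 3 * b 0 2 := by
    rw [e1, show eps 2 3 0 2 = (0 : ℝ) by rw [eps_vals]; norm_num,
      show uni 2 3 0 2 = (0 : ℝ) by simp [uni], hs.pair 0 2 2 3]; ring
  have g2303 : sg k s b 2 3 0 3 = k * s 0 3 2 3 - b 2 3 * b 0 3 := by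
    rw [e1, show eps 2 3 0 3 = (0 : ℝ) by rw [eps_vals]; norm_num,
      show uni 2 3 0 3 = (0 : ℝ) by simp [uni], hs.pair 0 3 2 3]; ring
  have g2312 : sg k s b 2 3 1 2 = k * s 1 2 2 3 - b 2 3 * b 1 2 := by
    rw [e1, show eps 2 3 1 2 = (0 : ℝ) by rw [eps_vals]; norm_num,
      show uni 2 3 1 2 = (0 : ℝ) by simp [uni], hs.pair 1 2 2 3]; ring
  have g2313 : sg k s b 2 3 1 3 = k * s 1 3 2 3 - b 2 3 * b 1 3 := by
    rw [e1, show eps 2 3 1 3 = (0 : ℝ) by rw [eps_vals]; norm_num,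
      show uni 2 3 1 3 = (0 : ℝ) by simp [uni], hs.pair 1 3 2 3]; ring
  have g2323 : sg k s b 2 3 2 3 = k * s 2 3 2 3 - b 2 3 * b 2 3 + 4 / 5 := by
    rw [e1, show eps 2 3 2 3 = (0 : ℝ) by rw [eps_vals]; norm_num,
      show uni 2 3 2 3 = (1 : ℝ) by simp [uni]]; ring
  have q0201 : s 0 2 0 1 = s 0 1 0 2 := hs.pair _ _ _ _
  have q0301 : s 0 3 0 1 = s 0 1 0 3 := hs.pair _ _ _ _
  have q0302 : s 0 3 0 2 = s 0 2 0 3 := hs.pair _ _ _ _
  have q1201 : s 1 2 0 1 = s 0 1 1 2 := hs.pair _ _ _ _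
  have q1202 : s 1 2 0 2 = s 0 2 1 2 := hs.pair _ _ _ _
  have q1203 : s 1 2 0 3 = s 0 3 1 2 := hs.pair _ _ _ _
  have q1301 : s 1 3 0 1 = s 0 1 1 3 := hs.pair _ _ _ _
  have q1302 : s 1 3 0 2 = s 0 2 1 3 := hs.pair _ _ _ _
  have q1303 : s 1 3 0 3 = s 0 3 1 3 := hs.pair _ _ _ _
  have q1312 : s 1 3 1 2 = s 1 2 1 3 := hs.pair _ _ _ _
  have q2301 : s 2 3 0 1 = s 0 1 2 3 := hs.pair _ _ _ _
  have q2302 : s 2 3 0 2 = s 0 2 2 3 := hs.pair _ _ _ _
  have q2303 : s 2 3 0 3 = s 0 3 2 3 := hs.pair _ _ _ _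
  have q2312 : s 2 3 1 2 = s 1 2 2 3 := hs.pair _ _ _ _
  have q2313 : s 2 3 1 3 = s 1 3 2 3 := hs.pair _ _ _ _
  simp only [tau, qst, tr2, sp, g0101, g0102, g0103, g0112, g0113, g0123, g0201, g0202,
    g0203, g0212, g0213, g0223, g0301, g0302, g0303, g0312,
    g0313, g0323, g1201, g1202, g1203, g1212, g1213, g1223,
    g1301, g1302, g1303, g1312, g1313, g1323, g2301, g2302,
    g2303, g2312, g2313, g2323,
    q0201, q0301, q0302, q1201, q1202, q1203, q1301, q1302,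
    q1303, q1312, q2301, q2302, q2303, q2312, q2313]
  unfold pf
  linear_combination (-4 / 3 * k * (b 0 1 * b 2 3 - b 0 2 * b 1 3 + b 0 3 * b 1 2)) * hb

/-- **The inequality.** -/
theorem main_ineq {k : ℝ} (hk : 0 < k) {s : Q4} (hs : Cur4 s) {b : Fin 4 → Fin 4 → ℝ}
    (hb : ∀ i j, b j i = - b i j)
    (H : ∀ u v : Fin 4 → ℝ, ∑ i, u i ^ 2 = 1 → ∑ i, v i ^ 2 = 1 → ∑ i, u i * v i = 0 →
      ∀ D : ℝ, 0 ≤ k * D ^ 2 + 3 * D * bv b u v + 2 * |D| + SM s u v u v) :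
    0 ≤ k * tau s + 3 * qst s b + 4 * tr2 s := by
  suffices h : 0 ≤ k * (k * tau s + 3 * qst s b + 4 * tr2 s) from nonneg_of_mul_nonneg_right h hk
  rcases le_or_gt |pf b| 4 with hq | hq
  · -- small Pfaffian
    obtain ⟨r, hr⟩ : ∃ r : Q4, r = fun i j l m => k * s i j l m := ⟨_, rfl⟩
    have hrc : Cur4 r := by
      rw [hr]
      exact ⟨fun i j l m => by rw [hs.a12]; ring, fun i j l m => by rw [hs.pair],
        fun i j l m => by linear_combination k * hs.bia i j l m⟩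
    have hrs : Sec4 r := by
      refine sec_of_on hrc.a12 (cur34 hrc) fun u v h1 h2 h3 => ?_
      have h4 := H u v h1 h2 h3 0
      have h5 : SM r u v u v = k * SM s u v u v := by
        unfold SM
        rw [hr]
        simp only [Finset.mul_sum]
        exact Finset.sum_congr rfl fun i _ => Finset.sum_congr rfl fun j _ =>
          Finset.sum_congr rfl fun k _ => Finset.sum_congr rfl fun l _ => by ring
      rw [h5]
      simp only [abs_zero] at h4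
      have : 0 ≤ SM s u v u v := by linarith
      positivity
    obtain ⟨t, t1, t2, t3⟩ := lemL hrc hrs hb
    have e1 : tau r = k ^ 2 * tau s := by
      rw [hr]; simp only [tau, sp]; ring
    have e2 : tr2 r = k * tr2 s := by
      rw [hr]; simp only [tr2]; ring
    have e3 : qst r b = k * qst s b := by
      rw [hr]; simp only [qst, sp]; ring
    have h1 : t * pf b ≤ |t| * 4 := by
      calc t * pf b ≤ |t * pf b| := le_abs_self _
        _ = |t| * |pf b| := abs_mul _ _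
        _ ≤ |t| * 4 := mul_le_mul_of_nonneg_left hq (abs_nonneg _)
    have h2 : k * (k * tau s + 3 * qst s b + 4 * tr2 s) = tau r + 3 * qst r b + 4 * tr2 r := by
      rw [e1, e2, e3]; ring
    rw [h2]
    have h3 := sq_nonneg t
    linarith
  · -- large Pfaffian
    rw [sg_poly k hs]
    have hc := sg_cur (k := k) hs hb
    have hss : Sec4 (sg k s b) := by
      refine sec_of_on hc.a12 (cur34 hc) fun u v h1 h2 h3 => ?_
      rw [sg_SM, h1, h2, h3]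
      have h4 := H u v h1 h2 h3 (-(2 / 3) * bv b u v / k)
      have h5 : |(-(2 / 3) * bv b u v / k)| = 2 / 3 * |bv b u v| / k := by
        rw [abs_div, abs_mul, abs_of_pos hk]
        norm_num
      rw [h5] at h4
      have h6 : k * (k * (-(2 / 3) * bv b u v / k) ^ 2 + 3 * (-(2 / 3) * bv b u v / k) * bv b u v +
          2 * (2 / 3 * |bv b u v| / k) + SM s u v u v) =
          4 / 9 * bv b u v ^ 2 - 2 * bv b u v ^ 2 + 4 / 3 * |bv b u v| + k * SM s u v u v := by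
        field_simp
        ring
      have h7 := mul_nonneg hk.le h4
      rw [h6] at h7
      have h8 : bv b u v ^ 2 = |bv b u v| ^ 2 := (sq_abs _).symm
      have h9 := sq_nonneg (|bv b u v| - 6 / 5)
      nlinarith
    obtain ⟨t, t1, t2, t3⟩ := lemL hc hss hb
    have h1 : 16 ≤ pf b ^ 2 := by
      rw [← sq_abs]
      nlinarith
    have h2 := abs_nonneg t
    have h3 := sq_nonneg (6 * t - 5 * pf b)
    nlinarith

end Pool.Agent.H70PR
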