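import Pool.Agent.H70PR.Geo2

/-!
# Isometries fixing a four-dimensional subspace of a six-dimensional space
-/

set_option autoImplicit false

namespace Pool.Agent.H70PR

open Finset Module Pool.Agent.W666.GB Pool.Agent.W669.HD

variable {V : Type} [NormedAddCommGroup V] [InnerProductSpace ℝ V]

/-- an isometry fixing the vectors of a subspace of codimension two is a rotation of a plane or an
involution -/
theorem iso_rot (hd : finrank ℝ V = 6) (g : V ≃ₗᵢ[ℝ] V) {W : Submodule ℝ V}
    (hW : finrank ℝ W = 4) (hgW : ∀ w ∈ W, g w = w) (hx : ∃ x, g (g x) ≠ x) :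
    ∃ (p q : V) (c s : ℝ), s ≠ 0 ∧ c ^ 2 + s ^ 2 = 1 ∧ g p = c • p + s • q ∧
      g q = (-s) • p + c • q ∧ Spans p q W := by
  have hfin : FiniteDimensional ℝ V := FiniteDimensional.of_finrank_pos (by omega)
  have h1 := Submodule.finrank_add_finrank_orthogonal W
  have h2 : finrank ℝ Wᗮ = 2 := by omega
  obtain ⟨b, -⟩ : ∃ b : OrthonormalBasis (Fin 2) ℝ Wᗮ, True :=
    ⟨(stdOrthonormalBasis ℝ Wᗮ).reindex (finCongr h2), trivial⟩
  obtain ⟨p, hp⟩ : ∃ p : V, p = b 0 := ⟨_, rfl⟩
  obtain ⟨q, hq⟩ : ∃ q : V, q = b 1 := ⟨_, rfl⟩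
  have hexp : ∀ y ∈ Wᗮ, ∃ α β : ℝ, y = α • p + β • q := by
    intro y hy
    refine ⟨inner ℝ (b 0) (⟨y, hy⟩ : Wᗮ), inner ℝ (b 1) (⟨y, hy⟩ : Wᗮ), ?_⟩
    have := congrArg Subtype.val (b.sum_repr' (⟨y, hy⟩ : Wᗮ))
    rw [Fin.sum_univ_two] at this
    rw [hp, hq]
    exact this.symm
  have hpW : p ∈ Wᗮ := by rw [hp]; exact (b 0).2
  have hqW : q ∈ Wᗮ := by rw [hq]; exact (b 1).2
  have npp : inner ℝ p p = (1 : ℝ) := by
    rw [hp]
    exact b.inner_eq_one 0
  have nqq : inner ℝ q q = (1 : ℝ) := by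
    rw [hq]
    exact b.inner_eq_one 1
  have npq : inner ℝ p q = (0 : ℝ) := by
    rw [hp, hq]
    exact b.inner_eq_zero (i := 0) (j := 1) (by decide)
  have nqp : inner ℝ q p = (0 : ℝ) := by rw [real_inner_comm, npq]
  have hgP : ∀ y ∈ Wᗮ, g y ∈ Wᗮ := by
    intro y hy
    rw [Submodule.mem_orthogonal] at hy ⊢
    intro w hw
    rw [← hgW w hw, LinearIsometryEquiv.inner_map_map]
    exact hy w hw
  obtain ⟨c, s, hgp⟩ := hexp _ (hgP p hpW)
  obtain ⟨c', s', hgq⟩ := hexp _ (hgP q hqW)
  have e1 : c ^ 2 + s ^ 2 = 1 := by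
    have := LinearIsometryEquiv.inner_map_map g p p
    rw [hgp, npp] at this
    simp only [inner_add_left, inner_add_right, real_inner_smul_left, real_inner_smul_right, npp,
      nqq, npq, nqp] at this
    linarith
  have e2 : c' ^ 2 + s' ^ 2 = 1 := by
    have := LinearIsometryEquiv.inner_map_map g q q
    rw [hgq, nqq] at this
    simp only [inner_add_left, inner_add_right, real_inner_smul_left, real_inner_smul_right, npp,
      nqq, npq, nqp] at this
    linarith
  have e3 : c * c' + s * s' = 0 := by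
    have := LinearIsometryEquiv.inner_map_map g p q
    rw [hgp, hgq, npq] at this
    simp only [inner_add_left, inner_add_right, real_inner_smul_left, real_inner_smul_right, npp,
      nqq, npq, nqp] at this
    linarith
  have hsp : Spans p q W := by
    intro x
    have hx : x ∈ W ⊔ Wᗮ := by
      rw [Submodule.sup_orthogonal_of_hasOrthogonalProjection]
      trivial
    obtain ⟨w, hw, y, hy, rfl⟩ := Submodule.mem_sup.1 hx
    obtain ⟨α, β, rfl⟩ := hexp y hy
    exact ⟨α, β, w, hw, by abel⟩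
  -- the two vectors determine the isometry
  have hinv : g (g p) = p → g (g q) = q → False := by
    intro h3 h4
    obtain ⟨x, hx⟩ := hx
    apply hx
    obtain ⟨α, β, w, hw, rfl⟩ := hsp x
    simp only [map_add, map_smul, h3, h4, hgW w hw]
  have hgg : ∀ α β : ℝ, g (α • p + β • q) = (α * c + β * c') • p + (α * s + β * s') • q := by
    intro α β
    rw [map_add, map_smul, map_smul, hgp, hgq]
    module
  obtain ⟨l, hl⟩ : ∃ l : ℝ, l = c * s' - s * c' := ⟨_, rfl⟩
  have f1 : s' = l * c := by rw [hl]; linear_combination (-s') * e1 + s * e3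
  have f2 : c' = -(l * s) := by rw [hl]; linear_combination (-c') * e1 + c * e3
  have f3 : l ^ 2 = 1 := by
    rw [f1, f2] at e2
    have : l ^ 2 * (c ^ 2 + s ^ 2) = 1 := by linarith
    rwa [e1, mul_one] at this
  have f4 : (l - 1) * (l + 1) = 0 := by linear_combination f3
  rcases mul_eq_zero.1 f4 with h | h
  · have hl1 : l = 1 := by linarith
    rw [hl1] at f1 f2
    refine ⟨p, q, c, s, ?_, e1, hgp, ?_, hsp⟩
    · intro hs
      refine hinv ?_ ?_
      · rw [hgp, hgg]
        have h5 : c * c + s * c' = 1 := by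
          rw [hs] at e1 ⊢
          linear_combination e1
        have h6 : c * s + s * s' = 0 := by rw [hs]; ring
        rw [h5, h6]
        simp
      · rw [hgq, hgg]
        have h5 : c' * c + s' * c' = 0 := by rw [f2, hs]; ring
        have h6 : c' * s + s' * s' = 1 := by
          rw [f1, f2]
          rw [hs] at e1 ⊢
          linear_combination e1
        rw [h5, h6]
        simp
    · rw [hgq, f1, f2]
      simp
  · have hl1 : l = -1 := by linarith
    rw [hl1] at f1 f2
    exfalso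
    refine hinv ?_ ?_
    · rw [hgp, hgg]
      have h5 : c * c + s * c' = 1 := by rw [f2]; linarith
      have h6 : c * s + s * s' = 0 := by rw [f1]; ring
      rw [h5, h6]
      simp
    · rw [hgq, hgg]
      have h5 : c' * c + s' * c' = 0 := by rw [f2, f1]; ring
      have h6 : c' * s + s' * s' = 1 := by rw [f2, f1]; linarith
      rw [h5, h6]
      simp

/-- the relations for a tensor invariant under an isometry -/
theorem iso_rel (hd : finrank ℝ V = 6) {S : V → V → V → V → ℝ} (hS : AlgCurv S)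
    (g : V ≃ₗᵢ[ℝ] V) {W : Submodule ℝ V} (hW : finrank ℝ W = 4) (hgW : ∀ w ∈ W, g w = w)
    (hx : ∃ x, g (g x) ≠ x) (hg : ∀ a b c d, S (g a) (g b) (g c) (g d) = S a b c d) :
    ∃ p q : V, Spans p q W ∧ PlaneRel S p q W := by
  obtain ⟨p, q, c, s, hs, hcs, hp, hq, hsp⟩ := iso_rot hd g hW hgW hx
  exact ⟨p, q, hsp, rel_of_inv hS (g := (g.toLinearEquiv : V →ₗ[ℝ] V)) hs hcs hp hq hgW
    (fun x y z w _ _ _ _ => hg x y z w)⟩

end Pool.Agent.H70PR
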