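import Pool.Agent.W976.HD.D4

/-!
# Polarised Pfaffians in dimension six
-/

set_option autoImplicit false
set_option linter.unusedSimpArgs false

namespace Pool.Agent.H70PR

open Finset Pool.Agent.W666.GB Pool.Agent.W669.HD Pool.Agent.W976.HD

/-- the polarised Pfaffian of three forms on `ℝ⁶` (up to a factor) -/
def P6 (f g h : Fin 6 → Fin 6 → ℝ) : ℝ :=
  ∑ σ : Equiv.Perm (Fin 6), sn σ * (f (σ 0) (σ 1) * (g (σ 2) (σ 3) * h (σ 4) (σ 5)))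

/-- the sum over the matchings of the six indices -/
def A6 (F : Fin 6 → Fin 6 → Fin 6 → Fin 6 → Fin 6 → Fin 6 → ℝ) : ℝ :=
  (F 0 1 2 3 4 5 - F 0 1 2 4 3 5 + F 0 1 2 5 3 4 + F 0 1 3 4 2 5 - F 0 1 3 5 2 4 + F 0 1 4 5 2 3
    - F 0 2 1 3 4 5 + F 0 2 1 4 3 5 - F 0 2 1 5 3 4 - F 0 2 3 4 1 5 + F 0 2 3 5 1 4 - F 0 2 4 5 1 3
    + F 0 3 1 2 4 5 - F 0 3 1 4 2 5 + F 0 3 1 5 2 4 + F 0 3 2 4 1 5 - F 0 3 2 5 1 4 + F 0 3 4 5 1 2
    - F 0 4 1 2 3 5 + F 0 4 1 3 2 5 - F 0 4 1 5 2 3 - F 0 4 2 3 1 5 + F 0 4 2 5 1 3 - F 0 4 3 5 1 2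
    + F 0 5 1 2 3 4 - F 0 5 1 3 2 4 + F 0 5 1 4 2 3 + F 0 5 2 3 1 4 - F 0 5 2 4 1 3 + F 0 5 3 4 1 2
    + F 1 2 0 3 4 5 - F 1 2 0 4 3 5 + F 1 2 0 5 3 4 + F 1 2 3 4 0 5 - F 1 2 3 5 0 4 + F 1 2 4 5 0 3
    - F 1 3 0 2 4 5 + F 1 3 0 4 2 5 - F 1 3 0 5 2 4 - F 1 3 2 4 0 5 + F 1 3 2 5 0 4 - F 1 3 4 5 0 2
    + F 1 4 0 2 3 5 - F 1 4 0 3 2 5 + F 1 4 0 5 2 3 + F 1 4 2 3 0 5 - F 1 4 2 5 0 3 + F 1 4 3 5 0 2
    - F 1 5 0 2 3 4 + F 1 5 0 3 2 4 - F 1 5 0 4 2 3 - F 1 5 2 3 0 4 + F 1 5 2 4 0 3 - F 1 5 3 4 0 2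
    + F 2 3 0 1 4 5 - F 2 3 0 4 1 5 + F 2 3 0 5 1 4 + F 2 3 1 4 0 5 - F 2 3 1 5 0 4 + F 2 3 4 5 0 1
    - F 2 4 0 1 3 5 + F 2 4 0 3 1 5 - F 2 4 0 5 1 3 - F 2 4 1 3 0 5 + F 2 4 1 5 0 3 - F 2 4 3 5 0 1
    + F 2 5 0 1 3 4 - F 2 5 0 3 1 4 + F 2 5 0 4 1 3 + F 2 5 1 3 0 4 - F 2 5 1 4 0 3 + F 2 5 3 4 0 1
    + F 3 4 0 1 2 5 - F 3 4 0 2 1 5 + F 3 4 0 5 1 2 + F 3 4 1 2 0 5 - F 3 4 1 5 0 2 + F 3 4 2 5 0 1
    - F 3 5 0 1 2 4 + F 3 5 0 2 1 4 - F 3 5 0 4 1 2 - F 3 5 1 2 0 4 + F 3 5 1 4 0 2 - F 3 5 2 4 0 1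
    + F 4 5 0 1 2 3 - F 4 5 0 2 1 3 + F 4 5 0 3 1 2 + F 4 5 1 2 0 3 - F 4 5 1 3 0 2 + F 4 5 2 3 0 1)

/-- the sum over the matchings for three forms -/
def N6 (f g h : Fin 6 → Fin 6 → ℝ) : ℝ :=
  A6 fun a b c d e k => f a b * (g c d * h e k)

/-- the composite of two of the maps in the expansion of a sum over permutations -/
def tab (p : Fin 6) (q : Fin 5) (i : Fin 4) : Fin 6 :=
  Equiv.swap 0 p (Equiv.swap 0 q i.succ).succ

theorem sum5 (F : Fin 5 → Fin 5 → Fin 5 → Fin 5 → Fin 5 → ℝ) :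
    ∑ π : Equiv.Perm (Fin 5), sn π * F (π 0) (π 1) (π 2) (π 3) (π 4) =
      ∑ p : Fin 5, (if p = 0 then (1 : ℝ) else -1) * ∑ e : Equiv.Perm (Fin 4), sn e *
        F p (Equiv.swap 0 p (e 0).succ) (Equiv.swap 0 p (e 1).succ) (Equiv.swap 0 p (e 2).succ)
          (Equiv.swap 0 p (e 3).succ) := by
  rw [sum_succ (n := 4) fun π => F (π 0) (π 1) (π 2) (π 3) (π 4)]
  refine Finset.sum_congr rfl fun p _ => ?_
  congr 1
  refine Finset.sum_congr rfl fun e _ => ?_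
  have h1 : (1 : Fin 5) = Fin.succ 0 := rfl
  have h2 : (2 : Fin 5) = Fin.succ 1 := rfl
  have h3 : (3 : Fin 5) = Fin.succ 2 := rfl
  have h4 : (4 : Fin 5) = Fin.succ 3 := rfl
  rw [Equiv.Perm.decomposeFin_symm_apply_zero, h1, h2, h3, h4,
    Equiv.Perm.decomposeFin_symm_apply_succ, Equiv.Perm.decomposeFin_symm_apply_succ,
    Equiv.Perm.decomposeFin_symm_apply_succ, Equiv.Perm.decomposeFin_symm_apply_succ]

theorem sum6 (F : Fin 6 → Fin 6 → Fin 6 → Fin 6 → Fin 6 → Fin 6 → ℝ) :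
    ∑ π : Equiv.Perm (Fin 6), sn π * F (π 0) (π 1) (π 2) (π 3) (π 4) (π 5) =
      ∑ p : Fin 6, (if p = 0 then (1 : ℝ) else -1) * ∑ e : Equiv.Perm (Fin 5), sn e *
        F p (Equiv.swap 0 p (e 0).succ) (Equiv.swap 0 p (e 1).succ) (Equiv.swap 0 p (e 2).succ)
          (Equiv.swap 0 p (e 3).succ) (Equiv.swap 0 p (e 4).succ) := by
  rw [sum_succ (n := 5) fun π => F (π 0) (π 1) (π 2) (π 3) (π 4) (π 5)]
  refine Finset.sum_congr rfl fun p _ => ?_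
  congr 1
  refine Finset.sum_congr rfl fun e _ => ?_
  have h1 : (1 : Fin 6) = Fin.succ 0 := rfl
  have h2 : (2 : Fin 6) = Fin.succ 1 := rfl
  have h3 : (3 : Fin 6) = Fin.succ 2 := rfl
  have h4 : (4 : Fin 6) = Fin.succ 3 := rfl
  have h5 : (5 : Fin 6) = Fin.succ 4 := rfl
  rw [Equiv.Perm.decomposeFin_symm_apply_zero, h1, h2, h3, h4, h5,
    Equiv.Perm.decomposeFin_symm_apply_succ, Equiv.Perm.decomposeFin_symm_apply_succ,
    Equiv.Perm.decomposeFin_symm_apply_succ, Equiv.Perm.decomposeFin_symm_apply_succ,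
    Equiv.Perm.decomposeFin_symm_apply_succ]

theorem P6_tab (f g h : Fin 6 → Fin 6 → ℝ) (hg : ∀ i j, g j i = - g i j)
    (hh : ∀ i j, h j i = - h i j) :
    P6 f g h = ∑ p : Fin 6, (if p = 0 then (1 : ℝ) else -1) *
      ∑ q : Fin 5, (if q = 0 then (1 : ℝ) else -1) * (4 * (f p (Equiv.swap 0 p q.succ) *
        sp (fun i j => g (tab p q i) (tab p q j)) (fun i j => h (tab p q i) (tab p q j)))) := by
  rw [P6, sum6 fun a b c d e k => f a b * (g c d * h e k)]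
  refine Finset.sum_congr rfl fun p _ => ?_
  congr 1
  rw [sum5 fun b c d e k => f p (Equiv.swap 0 p b.succ) *
    (g (Equiv.swap 0 p c.succ) (Equiv.swap 0 p d.succ) *
      h (Equiv.swap 0 p e.succ) (Equiv.swap 0 p k.succ))]
  refine Finset.sum_congr rfl fun q _ => ?_
  congr 1
  have h1 := sum4_anti (fun i j => g (tab p q i) (tab p q j))
    (fun i j => h (tab p q i) (tab p q j)) (fun i j => hg _ _) (fun i j => hh _ _)
  calc _ = f p (Equiv.swap 0 p q.succ) * ∑ e : Equiv.Perm (Fin 4), sn e *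
        (g (tab p q (e 0)) (tab p q (e 1)) * h (tab p q (e 2)) (tab p q (e 3))) := by
          rw [Finset.mul_sum]
          refine Finset.sum_congr rfl fun e _ => ?_
          simp only [tab]
          ring
    _ = _ := by
          rw [h1]
          ring

/-- the values of `tab` -/
def tabv : Fin 6 → Fin 5 → Fin 4 → Fin 6 := ![
  ![![2, 3, 4, 5], ![1, 3, 4, 5], ![2, 1, 4, 5], ![2, 3, 1, 5], ![2, 3, 4, 1]],
  ![![2, 3, 4, 5], ![0, 3, 4, 5], ![2, 0, 4, 5], ![2, 3, 0, 5], ![2, 3, 4, 0]],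
  ![![0, 3, 4, 5], ![1, 3, 4, 5], ![0, 1, 4, 5], ![0, 3, 1, 5], ![0, 3, 4, 1]],
  ![![2, 0, 4, 5], ![1, 0, 4, 5], ![2, 1, 4, 5], ![2, 0, 1, 5], ![2, 0, 4, 1]],
  ![![2, 3, 0, 5], ![1, 3, 0, 5], ![2, 1, 0, 5], ![2, 3, 1, 5], ![2, 3, 0, 1]],
  ![![2, 3, 4, 0], ![1, 3, 4, 0], ![2, 1, 4, 0], ![2, 3, 1, 0], ![2, 3, 4, 1]]]

/-- the values of the second map -/
def tabw : Fin 6 → Fin 5 → Fin 6 := ![
  ![1, 2, 3, 4, 5],
  ![0, 2, 3, 4, 5],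
  ![1, 0, 3, 4, 5],
  ![1, 2, 0, 4, 5],
  ![1, 2, 3, 0, 5],
  ![1, 2, 3, 4, 0]]

theorem tab_eq : ∀ p q i, tab p q i = tabv p q i := by
  decide +kernel

theorem tabw_eq : ∀ (p : Fin 6) (q : Fin 5), Equiv.swap 0 p q.succ = tabw p q := by
  decide +kernel

/-- **The polarised Pfaffian as a sum over matchings.** -/
theorem P6_eq (f g h : Fin 6 → Fin 6 → ℝ) (hf : ∀ i j, f j i = - f i j)
    (hg : ∀ i j, g j i = - g i j) (hh : ∀ i j, h j i = - h i j) :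
    P6 f g h = 8 * N6 f g h := by
  rw [P6_tab f g h hg hh]
  have f10 := hf 0 1
  have f20 := hf 0 2
  have f30 := hf 0 3
  have f40 := hf 0 4
  have f50 := hf 0 5
  have f21 := hf 1 2
  have f31 := hf 1 3
  have f41 := hf 1 4
  have f51 := hf 1 5
  have f32 := hf 2 3
  have f42 := hf 2 4
  have f52 := hf 2 5
  have f43 := hf 3 4
  have f53 := hf 3 5
  have f54 := hf 4 5
  have g10 := hg 0 1
  have g20 := hg 0 2
  have g30 := hg 0 3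
  have g40 := hg 0 4
  have g50 := hg 0 5
  have g21 := hg 1 2
  have g31 := hg 1 3
  have g41 := hg 1 4
  have g51 := hg 1 5
  have g32 := hg 2 3
  have g42 := hg 2 4
  have g52 := hg 2 5
  have g43 := hg 3 4
  have g53 := hg 3 5
  have g54 := hg 4 5
  have h10 := hh 0 1
  have h20 := hh 0 2
  have h30 := hh 0 3
  have h40 := hh 0 4
  have h50 := hh 0 5
  have h21 := hh 1 2
  have h31 := hh 1 3
  have h41 := hh 1 4
  have h51 := hh 1 5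
  have h32 := hh 2 3
  have h42 := hh 2 4
  have h52 := hh 2 5
  have h43 := hh 3 4
  have h53 := hh 3 5
  have h54 := hh 4 5
  simp only [tab_eq, tabw_eq, Fin.sum_univ_six, Fin.sum_univ_five, sp]
  simp only [tabv, tabw, Matrix.cons_val]
  have n1 : (1 : Fin 6) ≠ 0 := by decide
  have n2 : (2 : Fin 6) ≠ 0 := by decide
  have n3 : (3 : Fin 6) ≠ 0 := by decide
  have n4 : (4 : Fin 6) ≠ 0 := by decide
  have n5 : (5 : Fin 6) ≠ 0 := by decide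
  have m1 : (1 : Fin 5) ≠ 0 := by decide
  have m2 : (2 : Fin 5) ≠ 0 := by decide
  have m3 : (3 : Fin 5) ≠ 0 := by decide
  have m4 : (4 : Fin 5) ≠ 0 := by decide
  simp only [n1, n2, n3, n4, n5, m1, m2, m3, m4, if_true, if_false]
  simp only [f10, f20, f30, f40, f50, f21, f31, f41, f51, f32, f42, f52, f43, f53, f54,
    g10, g20, g30, g40, g50, g21, g31, g41, g51, g32, g42, g52, g43, g53, g54,
    h10, h20, h30, h40, h50, h21, h31, h41, h51, h32, h42, h52, h43, h53, h54, N6, A6]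
  ring

end Pool.Agent.H70PR
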